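import Pool.Agent.H69.EGD.Mnb

/-!
# BKM: the main terms of a block are small

`κ = kap r = (3 - 11 r)/100`, so `0 < κ < 1/30`. Put `G = g k²`, `X` as in the statement. If `X < 1` the inner sums are empty and
the left side is `0`. Otherwise use `mnb` with `ε = κ` and `Z = T` (`X ≤ 8 T^(2κ + 4 r - 1) ≤ T` for large `T`, because
`g k² U V ≤ (g k U)(g k V) ≤ T^(2r)`, `E0 ≤ T^(2r)`, `q ≤ T^κ`; also `1 ≤ g k` and `U, V ≤ T^r ≤ T`). The fourth power of the sum is at most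
`C T^κ (T/(G E0 q))^2 (a q) E0^4 X U (1 + X U/E0) (V² + E0)
  = 8 C a T^(1+2κ) (g k²)^(-1) E0^3 U² V (1 + X U/E0) (V² + E0)`,
with `E0^3 ≤ T^(6r)`, `U² V ≤ T^(3r)/(g k)^3`, `(g k²)^(-1) ≤ (g k)^(-1)`, `V² + E0 ≤ 2 T^(2r)` and
`X U/E0 = 8 T^(κ-1) g k² U² V q ≤ 8 T^(2κ - 1 + 3r) ≤ 8` (`g k² U² V ≤ (g k U)(k V) U ≤ T^(3r)`). So it is at most
`144 C a T^(1 + 11 r + 2κ)/(g k)^4 = 144 C a T^(4 - 98 κ)/(g k)^4 ≤ (T^(1-κ)/(4 g k))^4` for `T ≥ T0(a)`.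
-/

open Finset H69LB EG

namespace H69EGD

/-- the saving -/
noncomputable def kap (r : ℝ) : ℝ := (3 - 11 * r) / 100

theorem bkm_real {C a T s t g k U V E0 q : ℝ} (hC : 0 < C) (ha : 1 ≤ a) (hT : 0 < T) (hs : 2 ≤ s) (ht : 1 ≤ t)
    (hT3 : T ^ 3 = t ^ 11 * s ^ 100) (hsC : 144 * 256 * C * a ≤ s) (hg : 1 ≤ g) (hk : 1 ≤ k) (hU : 1 ≤ U) (hV : 1 ≤ V)
    (hE0 : 1 ≤ E0) (hq : 1 ≤ q) (hqs : q ≤ s) (hgU : g * k * U ≤ t) (hgV : g * k * V ≤ t) (hEt : E0 ≤ t ^ 2)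
    {X : ℝ} (hX : X = 8 * s * (g * k ^ 2 * U * V * E0 * q) / T) :
    X ≤ T ∧ C * s * (T / (g * k ^ 2 * E0 * q)) ^ 2 * (a * q) * E0 ^ 4 * (X * U) * (1 + X * U / E0) * (V ^ 2 + E0) ≤
      (T / s / (4 * (g * k))) ^ 4 := by
  have hg0 : 0 < g := by linarith
  have hk0 : 0 < k := by linarith
  have hU0 : 0 < U := by linarith
  have hV0 : 0 < V := by linarith
  have hE00 : 0 < E0 := by linarith
  have hq0 : 0 < q := by linarith
  have hs0 : 0 < s := by linarith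
  have ht0 : 0 < t := by linarith
  have ha0 : 0 < a := by linarith
  have hs1 : 1 ≤ s := by linarith
  have hw1 : 1 ≤ g * k := one_le_mul_of_one_le_of_one_le hg hk
  have hw0 : 0 < g * k := by linarith
  have hG : g * k ≤ g * k ^ 2 := by nlinarith
  have hGUV : g * k ^ 2 * U * V ≤ t ^ 2 := by
    calc g * k ^ 2 * U * V = 1 * (g * k ^ 2 * U * V) := by ring
      _ ≤ g * (g * k ^ 2 * U * V) := by gcongr
      _ = (g * k * U) * (g * k * V) := by ring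
      _ ≤ t * t := by gcongr
      _ = t ^ 2 := by ring
  have hUt : U ≤ t := by
    calc U = 1 * U := by ring
      _ ≤ (g * k) * U := by gcongr
      _ ≤ t := hgU
  have hVt : V ≤ t := by
    calc V = 1 * V := by ring
      _ ≤ (g * k) * V := by gcongr
      _ ≤ t := hgV
  have hts : t ^ 22 ≥ t ^ 12 := pow_le_pow_right₀ ht (by norm_num)
  have hX1 : X ≤ T := by
    rw [hX, div_le_iff₀ hT]
    have h1 : 8 * s * (g * k ^ 2 * U * V * E0 * q) ≤ 8 * s ^ 2 * t ^ 4 := by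
      calc 8 * s * (g * k ^ 2 * U * V * E0 * q) ≤ 8 * s * (t ^ 2 * t ^ 2 * s) := by gcongr
        _ = 8 * s ^ 2 * t ^ 4 := by ring
    refine h1.trans ?_
    refine le_of_pow_le_pow_left₀ (n := 3) (by norm_num) (by positivity) ?_
    have h2 : (T * T) ^ 3 = (t ^ 11 * s ^ 100) ^ 2 := by rw [← hT3]; ring
    rw [h2]
    have h3 : (8 : ℝ) ^ 3 ≤ s ^ 9 := by
      calc (8 : ℝ) ^ 3 = 2 ^ 9 := by norm_num
        _ ≤ s ^ 9 := pow_le_pow_left₀ (by norm_num) hs 9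
    calc (8 * s ^ 2 * t ^ 4) ^ 3 = 8 ^ 3 * s ^ 6 * t ^ 12 := by ring
      _ ≤ s ^ 9 * s ^ 6 * t ^ 22 := by gcongr
      _ = s ^ 15 * t ^ 22 := by ring
      _ ≤ s ^ 200 * t ^ 22 := by
          refine mul_le_mul_of_nonneg_right (pow_le_pow_right₀ hs1 (by norm_num)) (by positivity)
      _ = (t ^ 11 * s ^ 100) ^ 2 := by ring
  refine ⟨hX1, ?_⟩
  have hX0 : 0 < X := by rw [hX]; positivity
  have hXU : X * U / E0 ≤ 8 := by
    have h1 : X * U / E0 = 8 * (s * (g * k ^ 2 * U * V * U * q) / T) := by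
      rw [hX]; field_simp
    rw [h1]
    have h2 : s * (g * k ^ 2 * U * V * U * q) / T ≤ 1 := by
      rw [div_le_one hT]
      have h3 : s * (g * k ^ 2 * U * V * U * q) ≤ s ^ 2 * t ^ 3 := by
        calc s * (g * k ^ 2 * U * V * U * q) ≤ s * (t ^ 2 * t * s) := by gcongr
          _ = s ^ 2 * t ^ 3 := by ring
      refine h3.trans ?_
      refine le_of_pow_le_pow_left₀ (n := 3) (by norm_num) hT.le ?_
      rw [hT3]
      calc (s ^ 2 * t ^ 3) ^ 3 = t ^ 9 * s ^ 6 := by ring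
        _ ≤ t ^ 11 * s ^ 100 := by
            refine mul_le_mul (pow_le_pow_right₀ ht (by norm_num)) (pow_le_pow_right₀ hs1 (by norm_num)) (by positivity) (by positivity)
    linarith
  have hUV : U ^ 2 * V / (g * k ^ 2) ≤ t ^ 3 / (g * k) ^ 4 := by
    rw [div_le_div_iff₀ (by positivity) (by positivity)]
    calc U ^ 2 * V * (g * k) ^ 4 = (g * k * U) * (g * k * U) * (g * k * V) * (g * k) := by ring
      _ ≤ t * t * t * (g * k ^ 2) := by gcongr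
      _ = t ^ 3 * (g * k ^ 2) := by ring
  have hVE : V ^ 2 + E0 ≤ 2 * t ^ 2 := by
    have : V ^ 2 ≤ t ^ 2 := by gcongr
    linarith
  have hE3 : E0 ^ 3 ≤ t ^ 6 := by
    calc E0 ^ 3 ≤ (t ^ 2) ^ 3 := by gcongr
      _ = t ^ 6 := by ring
  have e1 : C * s * (T / (g * k ^ 2 * E0 * q)) ^ 2 * (a * q) * E0 ^ 4 * (X * U) * (1 + X * U / E0) * (V ^ 2 + E0) =
      8 * C * a * s ^ 2 * T * E0 ^ 3 * (U ^ 2 * V / (g * k ^ 2)) * (1 + X * U / E0) * (V ^ 2 + E0) := by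
    have h1 : X * U = 8 * s * (g * k ^ 2 * U * V * E0 * q) / T * U := by rw [hX]
    generalize hY : (1 + X * U / E0) * (V ^ 2 + E0) = Y
    have h2 : C * s * (T / (g * k ^ 2 * E0 * q)) ^ 2 * (a * q) * E0 ^ 4 * (X * U) * (1 + X * U / E0) * (V ^ 2 + E0) =
        C * s * (T / (g * k ^ 2 * E0 * q)) ^ 2 * (a * q) * E0 ^ 4 * (X * U) * Y := by rw [← hY]; ring
    have h3 : 8 * C * a * s ^ 2 * T * E0 ^ 3 * (U ^ 2 * V / (g * k ^ 2)) * (1 + X * U / E0) * (V ^ 2 + E0) =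
        8 * C * a * s ^ 2 * T * E0 ^ 3 * (U ^ 2 * V / (g * k ^ 2)) * Y := by rw [← hY]; ring
    rw [h2, h3, h1]
    field_simp
  rw [e1]
  have hXUE : 0 ≤ X * U / E0 := by positivity
  calc 8 * C * a * s ^ 2 * T * E0 ^ 3 * (U ^ 2 * V / (g * k ^ 2)) * (1 + X * U / E0) * (V ^ 2 + E0) ≤
      8 * C * a * s ^ 2 * T * t ^ 6 * (t ^ 3 / (g * k) ^ 4) * (1 + 8) * (2 * t ^ 2) := by gcongr
    _ = (144 * 256 * C * a) * s ^ 6 * t ^ 11 * T / (256 * s ^ 4 * (g * k) ^ 4) := by field_simp; ring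
    _ ≤ s * s ^ 6 * t ^ 11 * T / (256 * s ^ 4 * (g * k) ^ 4) := by gcongr
    _ = s ^ 7 * t ^ 11 * T / (256 * s ^ 4 * (g * k) ^ 4) := by ring
    _ ≤ s ^ 100 * t ^ 11 * T / (256 * s ^ 4 * (g * k) ^ 4) := by
        have h7 : s ^ 7 ≤ s ^ 100 := pow_le_pow_right₀ hs1 (by norm_num)
        gcongr
    _ = T ^ 3 * T / (256 * s ^ 4 * (g * k) ^ 4) := by rw [hT3]; ring
    _ = (T / s / (4 * (g * k))) ^ 4 := by field_simp; ring

theorem bkm {η : ℝ} {φ : ℝ → ℝ} (hφ : Wt η φ) {r : ℝ} (hr0 : 0 < r) (hr : r < 3 / 11) :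
    ∀ a : ℕ, 1 ≤ a → ∃ T0 : ℝ, 1 ≤ T0 ∧ ∀ T : ℝ, T0 ≤ T → ∀ q E0 U V g k : ℕ, 1 ≤ q → 1 ≤ E0 → 1 ≤ U →
    1 ≤ V → 1 ≤ g → 1 ≤ k → (q : ℝ) ≤ T ^ kap r → (g : ℝ) * k * U ≤ T ^ r → (g : ℝ) * k * V ≤ T ^ r →
    (E0 : ℝ) ≤ T ^ (2 * r) →
    ∀ EE : Finset ℕ, EE ⊆ Ico E0 (2 * E0) → ∀ f : ℕ → ℕ, (∀ E ∈ EE, Nat.Coprime (f E) E) →
    (∀ E ∈ EE, Nat.Coprime (g * k ^ 2) (a * E * q)) → ∀ α β : ℕ → ℕ → ℝ,
    (∀ E u, |α E u| ≤ 1) → (∀ E v, |β E v| ≤ 1) →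
    (∀ E ∈ EE, ∀ u, α E u ≠ 0 → Nat.Coprime u (a * E * q)) → (∀ E ∈ EE, ∀ v, β E v ≠ 0 → Nat.Coprime v (a * E * q)) →
    ∑ E ∈ EE, ‖∑ u ∈ Ico U (2 * U), ∑ v ∈ Ico V (2 * V), ((α E u * β E v : ℝ) : ℂ) *
      ∑ h ∈ Icc 1 ⌊8 * T ^ kap r * ((g : ℝ) * k ^ 2 * U * V * E0 * q) / T⌋₊,
        ((T / (((g * k ^ 2 * u * v : ℕ) : ℝ) * E * q) : ℝ) : ℂ) *
        ph φ (h * T / (((g * k ^ 2 * u * v : ℕ) : ℝ) * E * q)) *
        chi (a * E * q) ((h : ZMod (a * E * q)) * (f E : ZMod (a * E * q)) *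
          ((g * k ^ 2 * u * v : ℕ) : ZMod (a * E * q))⁻¹)‖ ≤
      T ^ (1 - kap r) / (4 * (g * k)) := by
  intro a ha
  obtain ⟨C, hC, hm⟩ := mnb hφ (kap r) (by unfold kap; linarith)
  have hκ : 0 < kap r := by unfold kap; linarith
  have ha1 : (1 : ℝ) ≤ a := by exact_mod_cast ha
  set S0 : ℝ := max 2 (144 * 256 * C * a) with hS0
  have hS02 : 2 ≤ S0 := le_max_left _ _
  have hS0C : 144 * 256 * C * a ≤ S0 := le_max_right _ _
  refine ⟨S0 ^ (1 / kap r), Real.one_le_rpow (by linarith) (by positivity), ?_⟩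
  intro T hT q E0 U V g k hq hE0 hU hV hg hk hqs hgU hgV hEt EE hEE f hf hcop α β hα hβ hαc hβc
  have hT1 : 1 ≤ T := (Real.one_le_rpow (by linarith) (by positivity)).trans hT
  have hT0 : 0 < T := by linarith
  have hs : S0 ≤ T ^ kap r := by
    calc S0 = (S0 ^ (1 / kap r)) ^ kap r := by
          rw [← Real.rpow_mul (by linarith), one_div, inv_mul_cancel₀ hκ.ne', Real.rpow_one]
      _ ≤ T ^ kap r := Real.rpow_le_rpow (by positivity) hT hκ.le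
  have ht1 : 1 ≤ T ^ r := Real.one_le_rpow hT1 hr0.le
  have hT3 : T ^ 3 = (T ^ r) ^ 11 * (T ^ kap r) ^ 100 := by
    rw [← Real.rpow_natCast (T ^ r), ← Real.rpow_natCast (T ^ kap r), ← Real.rpow_mul hT0.le, ← Real.rpow_mul hT0.le,
      ← Real.rpow_add hT0, ← Real.rpow_natCast T 3]
    congr 1
    unfold kap
    push_cast
    ring
  have hgc : (1 : ℝ) ≤ g := by exact_mod_cast hg
  have hkc : (1 : ℝ) ≤ k := by exact_mod_cast hk
  have hUc : (1 : ℝ) ≤ U := by exact_mod_cast hU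
  have hVc : (1 : ℝ) ≤ V := by exact_mod_cast hV
  have hEc : (1 : ℝ) ≤ E0 := by exact_mod_cast hE0
  have hqc : (1 : ℝ) ≤ q := by exact_mod_cast hq
  have hEt2 : (E0 : ℝ) ≤ (T ^ r) ^ 2 := by
    refine hEt.trans (le_of_eq ?_)
    rw [← Real.rpow_natCast (T ^ r), ← Real.rpow_mul hT0.le]
    congr 1
    push_cast
    ring
  obtain ⟨hX1, hX2⟩ := bkm_real (X := 8 * T ^ kap r * ((g : ℝ) * k ^ 2 * U * V * E0 * q) / T) hC ha1 hT0 (hS02.trans hs) ht1 hT3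
    (hS0C.trans hs) hgc hkc hUc hVc hEc hqc hqs hgU hgV hEt2 rfl
  set X : ℝ := 8 * T ^ kap r * ((g : ℝ) * k ^ 2 * U * V * E0 * q) / T with hX
  have hR0 : 0 ≤ T ^ (1 - kap r) / (4 * ((g : ℝ) * k)) := by positivity
  by_cases hXlt : X < 1
  · have hfl : ⌊X⌋₊ = 0 := Nat.floor_eq_zero.mpr hXlt
    rw [hfl]
    refine le_trans (le_of_eq ?_) hR0
    refine Finset.sum_eq_zero fun E _ => ?_
    rw [norm_eq_zero]
    refine Finset.sum_eq_zero fun u _ => Finset.sum_eq_zero fun v _ => ?_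
    have hI : Icc 1 0 = (∅ : Finset ℕ) := by decide
    rw [hI, Finset.sum_empty, mul_zero]
  · have hX1' : 1 ≤ X := not_lt.mp hXlt
    have hUT : (U : ℝ) ≤ T := by
      have h1 : (U : ℝ) ≤ T ^ r := by
        calc (U : ℝ) = 1 * 1 * U := by ring
          _ ≤ g * k * U := by gcongr
          _ ≤ T ^ r := hgU
      refine h1.trans ?_
      calc T ^ r ≤ T ^ (1 : ℝ) := Real.rpow_le_rpow_of_exponent_le hT1 (by linarith)
        _ = T := Real.rpow_one T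
    have hVT : (V : ℝ) ≤ T := by
      have h1 : (V : ℝ) ≤ T ^ r := by
        calc (V : ℝ) = 1 * 1 * V := by ring
          _ ≤ g * k * V := by gcongr
          _ ≤ T ^ r := hgV
      refine h1.trans ?_
      calc T ^ r ≤ T ^ (1 : ℝ) := Real.rpow_le_rpow_of_exponent_le hT1 (by linarith)
        _ = T := Real.rpow_one T
    have hG1 : 1 ≤ g * k ^ 2 := Nat.mul_pos hg (pow_pos hk 2)
    have h4 := hm T hT1 a q E0 U V (g * k ^ 2) ha hq hE0 hU hV hG1 X T hX1' hX1 hUT hVT EE hEE f hf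
      hcop α β hα hβ hαc hβc
    refine le_of_pow_le_pow_left₀ (n := 4) (by norm_num) hR0 ?_
    refine h4.trans ?_
    have e2 : T ^ (1 - kap r) = T / T ^ kap r := by
      rw [Real.rpow_sub hT0, Real.rpow_one]
    rw [e2]
    refine le_trans (le_of_eq ?_) hX2
    push_cast
    ring

end H69EGD
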