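import Pool.Agent.H69.EGD.Defs

/-!
# PHS: the phase

Let `a t0 + 1 = D n`. Then `t0/(D E q) = n/(a E q) - 1/(a D E q)`, so the left side is `e(-h/(a D E q)) e(h n/(a E q))`.
Modulo `m = a E q`: `a t0 + 1 ≡ a τ + 1` because `t0 ≡ τ` modulo `E q`; so `D n = a τ + 1` in `ZMod m` and, as `D` is a unit,
`n = (a τ + 1) D⁻¹`.
-/

open Finset H69LB EG

namespace H69EGD

theorem phs {a D E q t0 τ : ℕ} (ha : 1 ≤ a) (hD : 1 ≤ D) (hE : 1 ≤ E) (hq : 1 ≤ q) (hco : Nat.Coprime D (a * E * q))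
    (h1 : D ∣ a * t0 + 1) (h2 : t0 ≡ τ [MOD (E * q)]) (h : ℕ) :
    ee ((h : ℝ) * t0 / ((D * E * q : ℕ) : ℝ)) =
      ee (-((h : ℝ) / ((a * (D * E * q) : ℕ) : ℝ))) *
        chi (a * E * q) ((h : ZMod (a * E * q)) * ((a * τ + 1 : ℕ) : ZMod (a * E * q)) * (D : ZMod (a * E * q))⁻¹) := by
  obtain ⟨n, hn⟩ := h1
  have hm : 1 ≤ a * E * q := Nat.mul_pos (Nat.mul_pos ha hE) hq
  have e1 : a * t0 + 1 ≡ a * τ + 1 [MOD a * E * q] := by
    have := (h2.mul_left' a).add_right 1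
    rwa [← mul_assoc] at this
  have e2 : ((D * n : ℕ) : ZMod (a * E * q)) = ((a * τ + 1 : ℕ) : ZMod (a * E * q)) := by
    rw [← hn]
    exact (ZMod.natCast_eq_natCast_iff _ _ _).mpr e1
  have e3 : (D : ZMod (a * E * q)) * (D : ZMod (a * E * q))⁻¹ = 1 := ZMod.coe_mul_inv_eq_one D hco
  have e4 : (h : ZMod (a * E * q)) * ((a * τ + 1 : ℕ) : ZMod (a * E * q)) * (D : ZMod (a * E * q))⁻¹ =
      ((h * n : ℕ) : ZMod (a * E * q)) := by
    rw [← e2, Nat.cast_mul, Nat.cast_mul]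
    calc (h : ZMod (a * E * q)) * ((D : ZMod (a * E * q)) * n) * (D : ZMod (a * E * q))⁻¹
        = h * n * ((D : ZMod (a * E * q)) * (D : ZMod (a * E * q))⁻¹) := by ring
      _ = h * n := by rw [e3, mul_one]
  rw [e4, chi_natCast hm, ← ee_add]
  congr 1
  have hnR : (a : ℝ) * t0 + 1 = D * n := by exact_mod_cast hn
  have a0 : (a : ℝ) ≠ 0 := by positivity
  have D0 : (D : ℝ) ≠ 0 := by positivity
  have E0 : (E : ℝ) ≠ 0 := by positivity
  have q0 : (q : ℝ) ≠ 0 := by positivity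
  push_cast
  field_simp
  linear_combination (h : ℝ) * hnR

end H69EGD
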