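import Pool.Agent.H69.EGD.Poi
import Pool.Agent.H69.EGD.Phs

/-!
# LOC: the sum over one pair of moduli

Write `M = D E q`. By the Chinese remainder theorem (`D` is coprime to `a`, so `a t + 1 ≡ 0 mod D` is one residue class; `E` is
coprime to `b` because `E ∣ b τ + 1`; `D`, `E`, `q` are pairwise coprime) there is `t0` with `t0 ≡ τ mod E q` and
`D ∣ a t0 + 1`, and for all `t`: (`t ≡ ρ mod q`, `D ∣ a t + 1`, `E ∣ b t + 1`) iff `t ≡ t0 mod M`. So `NDE` is the sum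
in `poi` (with this `K`, and modulus `M`), and `poi` gives the error `C (M/(T X))^K` and the main term
`2 Re ∑_{h ≤ X} (T/M) φ^(h T/M) e(h t0/M)`. By `phs`, `e(h t0/M) = e(-h/(a M)) chi(...)`, and
`|e(-h/(a M)) - 1| ≤ 2 π h/M`, `|φ^| ≤ ∫ φ ≤ 2 η ≤ 1`, so replacing `e(-h/(aM))` by `1` costs at most
`2 (T/M) ∑_{h ≤ X} 2 π h/M ≤ 4 π T X²/M²` (`∑_{h ≤ X} h ≤ ⌊X⌋² ≤ X²`).
-/

open Finset H69LB EG

namespace H69EGD

private theorem Loc_sub {η : ℝ} {φ : ℝ → ℝ} (hφ : Wt η φ) (x : ℝ) :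
    φ x ≤ (Set.Icc (1 - η) (1 + η)).indicator (fun _ => (1 : ℝ)) x := by
  by_cases hx : x ∈ Set.Icc (1 - η) (1 + η)
  · rw [Set.indicator_of_mem hx]
    exact hφ.le_one x
  · rw [Set.indicator_of_notMem hx, hφ.zero x]
    by_contra hcon
    push Not at hcon
    have := abs_lt.mp hcon
    exact hx ⟨by linarith, by linarith⟩

private theorem Loc_int {η : ℝ} {φ : ℝ → ℝ} (hφ : Wt η φ) : ∫ x, φ x ≤ 1 := by
  have h1 : MeasureTheory.Integrable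
      ((Set.Icc (1 - η) (1 + η)).indicator (fun _ => (1 : ℝ))) := by
    rw [MeasureTheory.integrable_indicator_iff measurableSet_Icc]
    exact MeasureTheory.integrableOn_const (by simp)
  calc ∫ x, φ x ≤ ∫ x, (Set.Icc (1 - η) (1 + η)).indicator (fun _ => (1 : ℝ)) x :=
        MeasureTheory.integral_mono_of_nonneg (Filter.Eventually.of_forall hφ.nonneg) h1
          (Filter.Eventually.of_forall (Loc_sub hφ))
    _ = 2 * η := by
        rw [MeasureTheory.integral_indicator measurableSet_Icc]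
        have hη := hφ.η_pos
        simp only [MeasureTheory.integral_const, MeasurableSet.univ,
          MeasureTheory.measureReal_restrict_apply, Set.univ_inter, smul_eq_mul, mul_one]
        rw [Real.volume_real_Icc_of_le (by linarith)]
        ring
    _ ≤ 1 := by linarith [hφ.η_le]

private theorem Loc_ph {η : ℝ} {φ : ℝ → ℝ} (hφ : Wt η φ) (y : ℝ) : ‖ph φ y‖ ≤ 1 := by
  have h1 : ‖ph φ y‖ ≤ ∫ x, ‖((φ x : ℝ) : ℂ)‖ := by
    unfold ph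
    exact VectorFourier.norm_fourierIntegral_le_integral_norm _ _ _ _ _
  have h2 : ∀ x, ‖((φ x : ℝ) : ℂ)‖ = φ x := by
    intro x
    rw [Complex.norm_real, Real.norm_of_nonneg (hφ.nonneg x)]
  simp_rw [h2] at h1
  exact h1.trans (Loc_int hφ)

private theorem Loc_ee (x : ℝ) : ‖ee x - 1‖ ≤ 2 * Real.pi * |x| := by
  have h1 : ee x = Complex.exp (Complex.I * ((2 * Real.pi * x : ℝ) : ℂ)) := by
    unfold ee
    congr 1
    push_cast
    ring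
  rw [h1]
  refine Real.norm_exp_I_mul_ofReal_sub_one_le.trans ?_
  rw [Real.norm_eq_abs, abs_mul, abs_of_pos Real.two_pi_pos]

private theorem Loc_dvd {a D t t0 : ℕ} (hc : Nat.Coprime D a) (h0 : D ∣ a * t0 + 1) :
    D ∣ a * t + 1 ↔ t ≡ t0 [MOD D] := by
  have h0' : a * t0 + 1 ≡ 0 [MOD D] := (Nat.modEq_zero_iff_dvd).mpr h0
  constructor
  · intro h
    have h' : a * t + 1 ≡ 0 [MOD D] := (Nat.modEq_zero_iff_dvd).mpr h
    have h1 : a * t + 1 ≡ a * t0 + 1 [MOD D] := h'.trans h0'.symm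
    have h2 : a * t ≡ a * t0 [MOD D] := Nat.ModEq.add_right_cancel' 1 h1
    exact Nat.ModEq.cancel_left_of_coprime hc h2
  · intro h
    have h1 : a * t + 1 ≡ a * t0 + 1 [MOD D] := (h.mul_left a).add_right 1
    exact (Nat.modEq_zero_iff_dvd).mp (h1.trans h0')

private theorem Loc_crt {a b q ρ D E τ : ℕ} (hD : 1 ≤ D)
    (hco : Nat.Coprime D (a * E * q)) (hEq : Nat.Coprime E q) (hτ : τ ≡ ρ [MOD q])
    (hE : E ∣ b * τ + 1) : ∃ t0 : ℕ, D ∣ a * t0 + 1 ∧ t0 ≡ τ [MOD (E * q)] ∧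
      ∀ t, (t ≡ ρ [MOD q] ∧ D ∣ a * t + 1 ∧ E ∣ b * t + 1) ↔ t ≡ t0 [MOD (D * E * q)] := by
  have hDa : Nat.Coprime D a := by
    rw [mul_assoc] at hco
    exact Nat.Coprime.coprime_mul_right_right hco
  have hDEq : Nat.Coprime D (E * q) := by
    rw [mul_assoc] at hco
    exact Nat.Coprime.coprime_mul_left_right hco
  have hEb : Nat.Coprime E b := by
    have h1 : Nat.gcd E b ∣ b * τ + 1 := (Nat.gcd_dvd_left E b).trans hE
    have h2 : Nat.gcd E b ∣ b * τ := (Nat.gcd_dvd_right E b).trans (Dvd.intro τ rfl)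
    exact Nat.dvd_one.mp ((Nat.dvd_add_right h2).mp h1)
  -- a solution modulo `D`
  obtain ⟨u, hu⟩ : ∃ u : ℕ, D ∣ a * u + 1 := by
    haveI : NeZero D := ⟨by omega⟩
    refine ⟨(-((a : ZMod D))⁻¹).val, ?_⟩
    rw [← ZMod.natCast_eq_zero_iff]
    push_cast
    rw [ZMod.natCast_val, ZMod.cast_id', id, mul_neg, ZMod.coe_mul_inv_eq_one a hDa.symm]
    ring
  obtain ⟨t0, ht1, ht2⟩ := Nat.chineseRemainder hDEq u τ
  have h0 : D ∣ a * t0 + 1 := (Loc_dvd hDa hu).mpr ht1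
  refine ⟨t0, h0, ht2, fun t => ?_⟩
  rw [Loc_dvd hDa h0, Loc_dvd hEb hE, mul_assoc, ← Nat.modEq_and_modEq_iff_modEq_mul hDEq]
  constructor
  · rintro ⟨h1, h2, h3⟩
    refine ⟨h2, ?_⟩
    have h4 : t ≡ τ [MOD (E * q)] :=
      (Nat.modEq_and_modEq_iff_modEq_mul hEq).mp ⟨h3, h1.trans hτ.symm⟩
    exact h4.trans ht2.symm
  · rintro ⟨h2, h3⟩
    obtain ⟨h4, h5⟩ := (Nat.modEq_and_modEq_iff_modEq_mul hEq).mpr (h3.trans ht2)
    exact ⟨h5.trans hτ, h2, h4⟩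

private theorem Loc_sum {X : ℝ} (hX : 0 < X) : ∑ h ∈ Icc 1 ⌊X⌋₊, (h : ℝ) ≤ X ^ 2 := by
  have h1 : (⌊X⌋₊ : ℝ) ≤ X := Nat.floor_le hX.le
  calc ∑ h ∈ Icc 1 ⌊X⌋₊, (h : ℝ) ≤ ∑ h ∈ Icc 1 ⌊X⌋₊, (⌊X⌋₊ : ℝ) :=
        Finset.sum_le_sum fun h hh => by exact_mod_cast (Finset.mem_Icc.mp hh).2
    _ = (⌊X⌋₊ : ℝ) * ⌊X⌋₊ := by simp
    _ ≤ X * X := mul_le_mul h1 h1 (Nat.cast_nonneg _) hX.le
    _ = X ^ 2 := by ring

theorem loc {η : ℝ} {φ : ℝ → ℝ} (hφ : Wt η φ) (K : ℕ) (hK : 1 ≤ K) :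
    ∃ C : ℝ, 0 < C ∧ ∀ T : ℝ, 1 ≤ T → ∀ a b q ρ D E τ : ℕ, 1 ≤ a → 1 ≤ b → 1 ≤ q → 1 ≤ D → 1 ≤ E →
      Nat.Coprime D (a * E * q) → Nat.Coprime E q → τ ≡ ρ [MOD q] → E ∣ b * τ + 1 → ∀ X : ℝ, 0 < X →
      |NDE φ T a b q ρ D E - T * (∫ x, φ x) / ((D : ℝ) * (E : ℝ) * q) -
        2 * (∑ h ∈ Icc 1 ⌊X⌋₊, ((T / ((D : ℝ) * E * q) : ℝ) : ℂ) * ph φ (h * T / ((D : ℝ) * E * q)) *
          chi (a * E * q)
            ((h : ZMod (a * E * q)) * ((a * τ + 1 : ℕ) : ZMod (a * E * q)) * (D : ZMod (a * E * q))⁻¹)).re| ≤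
          C * (((D : ℝ) * E * q / (T * X)) ^ K + T * X ^ 2 / ((D : ℝ) * E * q) ^ 2) := by
  obtain ⟨C0, hC0, hpoi⟩ := poi hφ K hK
  refine ⟨C0 + 4 * Real.pi, by have := Real.pi_pos; positivity, ?_⟩
  intro T hT a b q ρ D E τ ha hb hq hD hE hco hEq hτ hEτ X hX
  obtain ⟨t0, hDt, htE, hiff⟩ := Loc_crt hD hco hEq hτ hEτ
  have hM1 : 1 ≤ D * E * q := Nat.mul_pos (Nat.mul_pos (by omega) (by omega)) (by omega)
  have h1 := hpoi T hT (D * E * q) hM1 t0 X hX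
  have hN : NDE φ T a b q ρ D E =
      ∑ t ∈ (range (⌊2 * T⌋₊ + 1)).filter (fun t => t ≡ t0 [MOD (D * E * q)]), φ ((t : ℝ) / T) := by
    unfold NDE
    refine Finset.sum_congr (Finset.filter_congr fun t _ => hiff t) fun _ _ => rfl
  rw [← hN] at h1
  have hcast : ((D * E * q : ℕ) : ℝ) = (D : ℝ) * E * q := by push_cast; ring
  obtain ⟨m, hm⟩ : ∃ m : ℝ, m = (D : ℝ) * E * q := ⟨_, rfl⟩
  have hm1 : 1 ≤ m := by rw [hm, ← hcast]; exact_mod_cast hM1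
  have hm0 : 0 < m := by linarith
  have hphs : ∀ h : ℕ, ee ((h : ℝ) * t0 / m) = ee (-((h : ℝ) / ((a : ℝ) * m))) *
      chi (a * E * q) ((h : ZMod (a * E * q)) * ((a * τ + 1 : ℕ) : ZMod (a * E * q)) *
        (D : ZMod (a * E * q))⁻¹) := by
    intro h
    have h2 := phs ha hD hE hq hco hDt htE h
    have hcast2 : ((a * (D * E * q) : ℕ) : ℝ) = (a : ℝ) * m := by rw [hm]; push_cast; ring
    rw [hcast, hcast2, ← hm] at h2
    exact h2
  rw [hcast] at h1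
  rw [← hm] at h1 ⊢
  have hT0 : 0 < T := by linarith
  set S1 : ℂ := ∑ h ∈ Icc 1 ⌊X⌋₊, ((T / m : ℝ) : ℂ) * ph φ (h * T / m) * ee ((h : ℝ) * t0 / m)
    with hS1
  set S2 : ℂ := ∑ h ∈ Icc 1 ⌊X⌋₊, ((T / m : ℝ) : ℂ) * ph φ (h * T / m) *
      chi (a * E * q) ((h : ZMod (a * E * q)) * ((a * τ + 1 : ℕ) : ZMod (a * E * q)) *
        (D : ZMod (a * E * q))⁻¹) with hS2
  have hdiff : ‖S1 - S2‖ ≤ 2 * Real.pi * (T * X ^ 2 / m ^ 2) := by
    rw [hS1, hS2, ← Finset.sum_sub_distrib]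
    refine (norm_sum_le _ _).trans ?_
    have hterm : ∀ h ∈ Icc 1 ⌊X⌋₊, ‖((T / m : ℝ) : ℂ) * ph φ (h * T / m) * ee ((h : ℝ) * t0 / m) -
        ((T / m : ℝ) : ℂ) * ph φ (h * T / m) *
          chi (a * E * q) ((h : ZMod (a * E * q)) * ((a * τ + 1 : ℕ) : ZMod (a * E * q)) *
            (D : ZMod (a * E * q))⁻¹)‖ ≤ 2 * Real.pi * T / m ^ 2 * h := by
      intro h _
      rw [hphs h, ← mul_assoc, ← sub_mul, norm_mul, norm_chi, mul_one]
      have e1 : ((T / m : ℝ) : ℂ) * ph φ (h * T / m) * ee (-((h : ℝ) / ((a : ℝ) * m))) -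
          ((T / m : ℝ) : ℂ) * ph φ (h * T / m) =
          ((T / m : ℝ) : ℂ) * ph φ (h * T / m) * (ee (-((h : ℝ) / ((a : ℝ) * m))) - 1) := by ring
      rw [e1, norm_mul, norm_mul, Complex.norm_real, Real.norm_of_nonneg (by positivity)]
      have h2 := Loc_ph hφ (h * T / m)
      have h3 := Loc_ee (-((h : ℝ) / ((a : ℝ) * m)))
      have ha' : (1 : ℝ) ≤ a := by exact_mod_cast ha
      rw [abs_neg, abs_of_nonneg (by positivity)] at h3
      have h4 : (h : ℝ) / ((a : ℝ) * m) ≤ h / m :=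
        div_le_div_of_nonneg_left (Nat.cast_nonneg h) hm0 (le_mul_of_one_le_left hm0.le ha')
      have h5 : ‖ee (-((h : ℝ) / ((a : ℝ) * m))) - 1‖ ≤ 2 * Real.pi * (h / m) :=
        h3.trans (mul_le_mul_of_nonneg_left h4 Real.two_pi_pos.le)
      calc T / m * ‖ph φ (h * T / m)‖ * ‖ee (-((h : ℝ) / ((a : ℝ) * m))) - 1‖ ≤
          T / m * 1 * (2 * Real.pi * (h / m)) := by
            have := norm_nonneg (ph φ (h * T / m))
            have hTm : 0 ≤ T / m := by positivity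
            exact mul_le_mul (mul_le_mul_of_nonneg_left h2 hTm) h5 (norm_nonneg _) (by positivity)
        _ = 2 * Real.pi * T / m ^ 2 * h := by
            field_simp
    refine (Finset.sum_le_sum hterm).trans ?_
    rw [← Finset.mul_sum]
    have hpi := Real.pi_pos
    calc 2 * Real.pi * T / m ^ 2 * ∑ h ∈ Icc 1 ⌊X⌋₊, (h : ℝ) ≤ 2 * Real.pi * T / m ^ 2 * X ^ 2 :=
          mul_le_mul_of_nonneg_left (Loc_sum hX) (by positivity)
      _ = 2 * Real.pi * (T * X ^ 2 / m ^ 2) := by ring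
  have hre : |S1.re - S2.re| ≤ 2 * Real.pi * (T * X ^ 2 / m ^ 2) := by
    rw [← Complex.sub_re]
    exact (Complex.abs_re_le_norm _).trans hdiff
  have hpi := Real.pi_pos
  have hn1 : 0 ≤ (m / (T * X)) ^ K := by positivity
  have hn2 : 0 ≤ T * X ^ 2 / m ^ 2 := by positivity
  have hsplit : NDE φ T a b q ρ D E - T * (∫ x, φ x) / m - 2 * S2.re =
      (NDE φ T a b q ρ D E - T * (∫ x, φ x) / m - 2 * S1.re) + 2 * (S1.re - S2.re) := by ring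
  rw [hsplit]
  refine (abs_add_le _ _).trans ?_
  rw [abs_mul, abs_two]
  have e2 : (C0 + 4 * Real.pi) * ((m / (T * X)) ^ K + T * X ^ 2 / m ^ 2) =
      C0 * (m / (T * X)) ^ K + 2 * (2 * Real.pi * (T * X ^ 2 / m ^ 2)) +
        (4 * Real.pi * (m / (T * X)) ^ K + C0 * (T * X ^ 2 / m ^ 2)) := by ring
  rw [e2]
  have hn3 : 0 ≤ 4 * Real.pi * (m / (T * X)) ^ K + C0 * (T * X ^ 2 / m ^ 2) := by positivity
  linarith

end H69EGD
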