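import Pool.Agent.H69.EGD.Bkm
import Pool.Agent.H69.EGD.Loc

/-!
# BLK: one block

`κ = kap r`, `D = g k² u v`, `M = D E q`. If all `α E u` (`E ∈ EE`, `u ∈ [U, 2U)`) vanish or all `β E v` vanish, the left side is
`0`. Otherwise `g k U ≤ T^r`, `g k V ≤ T^r`, `E0 ≤ T^(2r)`. For `E ∈ EE` choose `τ_E` with `τ_E ≡ ρ mod q`, `E ∣ b τ_E + 1` (`E` coprime
to `b` and `q`), `f E = a τ_E + 1`; `f E` is coprime to `E`: a prime `p ∣ E, p ∣ a τ_E + 1` divides `(a - b) τ_E` and not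
`τ_E`. Let `X = 8 T^κ (g k² U V E0 q)/T > 0`; `g k² U V E0 q ≤ M ≤ 8 g k² U V E0 q`, so `M/(T X) ≤ T^(-κ)` and
`T X²/M² ≤ 64 T^(2κ-1)`. Use `loc` with `K = ⌈1/κ⌉` for each `(E, u, v)` with `α E u β E v ≠ 0` (then `D` is coprime to `a E q`):
the error is at most `C (T^(-1) + 64 T^(2κ-1)) ≤ 65 C T^(2κ-1)`, in total at most `E0 U V 65 C T^(2κ-1) ≤ 65 C T^(4r+2κ-1)/(g k)`
(`E0 ≤ T^(2r)`, `U V ≤ T^(2r)/(g k)^2`), and `4r + 2κ - 1 < 1/2 < 1 - κ`: at most `T^(1-κ)/(2 g k)` for large `T`. The main terms: `|2 Re z| ≤ 2 |z|`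
and `bkm` (for the set `EE'` of the `E ∈ EE` with `g k²` coprime to `a E q`; for the other `E` all the terms vanish): at most
`2 T^(1-κ)/(4 g k)`. Sum: `T^(1-κ)/(g k)`.
-/

open Finset H69LB EG

namespace H69EGD

theorem Blk_tau {b q ρ E : ℕ} (hE : 1 ≤ E) (h1 : Nat.Coprime E b) (h2 : Nat.Coprime E q) :
    ∃ τ : ℕ, τ ≡ ρ [MOD q] ∧ E ∣ b * τ + 1 := by
  haveI : NeZero E := ⟨by omega⟩
  have hu : (b : ZMod E) * (b : ZMod E)⁻¹ = 1 := ZMod.coe_mul_inv_eq_one b h1.symm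
  have ht : ((b * (-(b : ZMod E)⁻¹).val + 1 : ℕ) : ZMod E) = 0 := by
    push_cast
    rw [ZMod.natCast_zmod_val, mul_neg, hu]
    ring
  have hd : E ∣ b * (-(b : ZMod E)⁻¹).val + 1 := (ZMod.natCast_eq_zero_iff _ _).1 ht
  obtain ⟨τ, hτ1, hτ2⟩ := Nat.chineseRemainder h2.symm ρ (-(b : ZMod E)⁻¹).val
  refine ⟨τ, hτ1, ?_⟩
  have h3 : b * τ + 1 ≡ b * (-(b : ZMod E)⁻¹).val + 1 [MOD E] := (hτ2.mul_left b).add_right 1
  exact (Nat.modEq_zero_iff_dvd).1 (h3.trans ((Nat.modEq_zero_iff_dvd).2 hd))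

theorem Blk_cop {a b E τ : ℕ} (h : E ∣ b * τ + 1)
    (hp : ∀ p : ℕ, p.Prime → p ∣ E → ¬ (p : ℤ) ∣ (a : ℤ) - b) : Nat.Coprime (a * τ + 1) E := by
  refine Nat.Coprime.symm (Nat.coprime_of_dvd (fun p hpp hpE hpa => ?_))
  have h1 : (p : ℤ) ∣ (b : ℤ) * τ + 1 := by exact_mod_cast (hpE.trans h)
  have h2 : (p : ℤ) ∣ (a : ℤ) * τ + 1 := by exact_mod_cast hpa
  have h3 : (p : ℤ) ∣ ((a : ℤ) - b) * τ := by
    have := dvd_sub h2 h1
    have e : (a : ℤ) * τ + 1 - ((b : ℤ) * τ + 1) = ((a : ℤ) - b) * τ := by ring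
    rwa [e] at this
  have hpi : Prime (p : ℤ) := Nat.prime_iff_prime_int.1 hpp
  rcases hpi.dvd_or_dvd h3 with h4 | h4
  · exact hp p hpp hpE h4
  · have h5 : (p : ℤ) ∣ 1 := by
      have h6 : (p : ℤ) ∣ (b : ℤ) * τ := h4.mul_left _
      exact (dvd_add_right h6).1 h1
    exact hpi.not_isUnit (isUnit_of_dvd_one h5)

theorem Blk_one (U V : ℕ) (α β : ℕ → ℝ) (N : ℕ → ℕ → ℝ) (S : ℕ → ℕ → ℂ) (err : ℝ) (herr : 0 ≤ err)
    (hα : ∀ u, |α u| ≤ 1) (hβ : ∀ v, |β v| ≤ 1)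
    (h : ∀ u ∈ Ico U (2 * U), ∀ v ∈ Ico V (2 * V), α u ≠ 0 → β v ≠ 0 → |N u v - 2 * (S u v).re| ≤ err) :
    |∑ u ∈ Ico U (2 * U), ∑ v ∈ Ico V (2 * V), α u * β v * N u v| ≤
      2 * ‖∑ u ∈ Ico U (2 * U), ∑ v ∈ Ico V (2 * V), ((α u * β v : ℝ) : ℂ) * S u v‖ + U * V * err := by
  have e1 : ∑ u ∈ Ico U (2 * U), ∑ v ∈ Ico V (2 * V), α u * β v * N u v =
      2 * (∑ u ∈ Ico U (2 * U), ∑ v ∈ Ico V (2 * V), ((α u * β v : ℝ) : ℂ) * S u v).re +
      ∑ u ∈ Ico U (2 * U), ∑ v ∈ Ico V (2 * V), α u * β v * (N u v - 2 * (S u v).re) := by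
    rw [Complex.re_sum, mul_sum, ← sum_add_distrib]
    refine sum_congr rfl (fun u _ => ?_)
    rw [Complex.re_sum, mul_sum, ← sum_add_distrib]
    refine sum_congr rfl (fun v _ => ?_)
    rw [Complex.re_ofReal_mul]
    ring
  rw [e1]
  refine (abs_add_le _ _).trans (add_le_add ?_ ?_)
  · rw [abs_mul, abs_of_pos (by norm_num : (0 : ℝ) < 2)]
    exact mul_le_mul_of_nonneg_left (Complex.abs_re_le_norm _) (by norm_num)
  · calc |∑ u ∈ Ico U (2 * U), ∑ v ∈ Ico V (2 * V), α u * β v * (N u v - 2 * (S u v).re)|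
        ≤ ∑ u ∈ Ico U (2 * U), |∑ v ∈ Ico V (2 * V), α u * β v * (N u v - 2 * (S u v).re)| :=
          abs_sum_le_sum_abs _ _
      _ ≤ ∑ u ∈ Ico U (2 * U), ∑ v ∈ Ico V (2 * V), |α u * β v * (N u v - 2 * (S u v).re)| :=
          sum_le_sum (fun u _ => abs_sum_le_sum_abs _ _)
      _ ≤ ∑ u ∈ Ico U (2 * U), ∑ v ∈ Ico V (2 * V), err := by
          refine sum_le_sum (fun u hu => sum_le_sum (fun v hv => ?_))
          by_cases ha : α u = 0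
          · rw [ha]; simpa using herr
          by_cases hb : β v = 0
          · rw [hb]; simpa using herr
          rw [abs_mul, abs_mul]
          have h1 := h u hu v hv ha hb
          have h2 : |α u| * |β v| ≤ 1 := mul_le_one₀ (hα u) (abs_nonneg _) (hβ v)
          calc |α u| * |β v| * |N u v - 2 * (S u v).re| ≤ 1 * err :=
                mul_le_mul h2 h1 (abs_nonneg _) (by norm_num)
            _ = err := one_mul _
      _ = U * V * err := by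
          simp only [sum_const, Nat.card_Ico, nsmul_eq_mul]
          have e2 : 2 * U - U = U := by omega
          have e3 : 2 * V - V = V := by omega
          rw [e2, e3]
          ring

theorem Blk_err {T κ M0 M : ℝ} {K : ℕ} (hT : 1 ≤ T) (hκ : 0 < κ) (hK : 1 ≤ κ * K) (hM0 : 0 < M0) (h1 : M0 ≤ M)
    (h2 : M ≤ 8 * M0) :
    (M / (T * (8 * T ^ κ * M0 / T))) ^ K + T * (8 * T ^ κ * M0 / T) ^ 2 / M ^ 2 ≤ 65 * T ^ (2 * κ - 1) := by
  have hT0 : 0 < T := by linarith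
  have hM : 0 < M := by linarith
  have hTk : 0 < T ^ κ := Real.rpow_pos_of_pos hT0 κ
  have a1 : M / (T * (8 * T ^ κ * M0 / T)) ≤ T ^ (-κ) := by
    rw [Real.rpow_neg hT0.le, ← one_div, div_le_div_iff₀ (by positivity) hTk]
    have e : T * (8 * T ^ κ * M0 / T) = 8 * T ^ κ * M0 := by field_simp
    rw [e]
    calc M * T ^ κ ≤ 8 * M0 * T ^ κ := mul_le_mul_of_nonneg_right h2 hTk.le
      _ = 1 * (8 * T ^ κ * M0) := by ring
  have a2 : (M / (T * (8 * T ^ κ * M0 / T))) ^ K ≤ T ^ (2 * κ - 1) := by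
    calc (M / (T * (8 * T ^ κ * M0 / T))) ^ K ≤ (T ^ (-κ)) ^ K := pow_le_pow_left₀ (by positivity) a1 K
      _ = T ^ (-κ * K) := by rw [← Real.rpow_natCast, ← Real.rpow_mul hT0.le]
      _ ≤ T ^ (2 * κ - 1) := Real.rpow_le_rpow_of_exponent_le hT (by nlinarith)
  have a3 : T * (8 * T ^ κ * M0 / T) ^ 2 / M ^ 2 ≤ 64 * T ^ (2 * κ - 1) := by
    have e1 : T ^ (2 * κ - 1) = (T ^ κ) ^ 2 / T := by
      rw [Real.rpow_sub hT0, Real.rpow_one, two_mul, Real.rpow_add hT0, pow_two]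
    rw [e1, div_le_iff₀ (by positivity)]
    have e2 : T * (8 * T ^ κ * M0 / T) ^ 2 = 64 * ((T ^ κ) ^ 2 / T) * M0 ^ 2 := by
      field_simp
      ring
    rw [e2]
    exact mul_le_mul_of_nonneg_left (pow_le_pow_left₀ hM0.le h1 2) (by positivity)
  linarith

theorem blk {η : ℝ} {φ : ℝ → ℝ} (hφ : Wt η φ) {r : ℝ} (hr0 : 0 < r) (hr : r < 3 / 11) :
    ∀ a : ℕ, 1 ≤ a → ∃ T0 : ℝ, 1 ≤ T0 ∧ ∀ T : ℝ, T0 ≤ T → ∀ b q ρ g k U V E0 : ℕ, 1 ≤ b → 1 ≤ q →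
      (q : ℝ) ≤ T ^ kap r → 1 ≤ g → 1 ≤ k → 1 ≤ U → 1 ≤ V → 1 ≤ E0 → ∀ EE : Finset ℕ, EE ⊆ Ico E0 (2 * E0) →
      (∀ E ∈ EE, Nat.Coprime E (a * b * q) ∧ (∀ p : ℕ, p.Prime → p ∣ E → ¬ (p : ℤ) ∣ (a : ℤ) - b) ∧
        (E : ℝ) ≤ T ^ (2 * r)) →
      ∀ α β : ℕ → ℕ → ℝ, (∀ E u, |α E u| ≤ 1) → (∀ E v, |β E v| ≤ 1) →
      (∀ E ∈ EE, ∀ u, α E u ≠ 0 → Nat.Coprime (g * k * u) (a * E * q) ∧ ((g * k * u : ℕ) : ℝ) ≤ T ^ r) →
      (∀ E ∈ EE, ∀ v, β E v ≠ 0 → Nat.Coprime (g * k * v) (a * E * q) ∧ ((g * k * v : ℕ) : ℝ) ≤ T ^ r) →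
      ∑ E ∈ EE, |∑ u ∈ Ico U (2 * U), ∑ v ∈ Ico V (2 * V), α E u * β E v *
        (NDE φ T a b q ρ (g * k ^ 2 * u * v) E -
          T * (∫ x, φ x) / (((g * k ^ 2 * u * v : ℕ) : ℝ) * (E : ℝ) * q))| ≤ T ^ (1 - kap r) / (g * k) := by
  intro a ha
  have hκ0 : 0 < kap r := by unfold kap; linarith
  have hκ1 : kap r < 3 / 100 := by unfold kap; linarith
  obtain ⟨TB, hTB1, hB⟩ := bkm hφ hr0 hr a ha
  have hKc : 1 ≤ ⌈1 / kap r⌉₊ := Nat.one_le_iff_ne_zero.2 (by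
    have : 0 < ⌈1 / kap r⌉₊ := Nat.ceil_pos.2 (by positivity)
    omega)
  have hK1 : 1 ≤ kap r * (⌈1 / kap r⌉₊ : ℝ) := by
    have h1 : 1 / kap r ≤ (⌈1 / kap r⌉₊ : ℝ) := Nat.le_ceil _
    calc (1 : ℝ) = kap r * (1 / kap r) := by field_simp
      _ ≤ _ := mul_le_mul_of_nonneg_left h1 hκ0.le
  obtain ⟨C, hC, hloc⟩ := loc hφ ⌈1 / kap r⌉₊ hKc
  set K : ℕ := ⌈1 / kap r⌉₊ with hKdef
  refine ⟨max TB ((130 * C) ^ (10 / 9 : ℝ)), le_max_of_le_left hTB1, ?_⟩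
  intro T hT b q ρ g k U V E0 hb hq hqT hg hk hU hV hE0 EE hEE hEE2 α β hα hβ hαc hβc
  have hTB : TB ≤ T := (le_max_left _ _).trans hT
  have hT1 : 1 ≤ T := hTB1.trans hTB
  have hT0 : 0 < T := by linarith
  have hTC : 130 * C ≤ T ^ (9 / 10 : ℝ) := by
    have h1 : (130 * C) ^ (10 / 9 : ℝ) ≤ T := (le_max_right _ _).trans hT
    calc 130 * C = ((130 * C) ^ (10 / 9 : ℝ)) ^ (9 / 10 : ℝ) := by
          rw [← Real.rpow_mul (by positivity)]; norm_num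
      _ ≤ T ^ (9 / 10 : ℝ) := Real.rpow_le_rpow (by positivity) h1 (by norm_num)
  have hg' : (1 : ℝ) ≤ g := by exact_mod_cast hg
  have hk' : (1 : ℝ) ≤ k := by exact_mod_cast hk
  have hU' : (1 : ℝ) ≤ U := by exact_mod_cast hU
  have hV' : (1 : ℝ) ≤ V := by exact_mod_cast hV
  have hq' : (1 : ℝ) ≤ q := by exact_mod_cast hq
  have hE0' : (1 : ℝ) ≤ E0 := by exact_mod_cast hE0
  have hrhs : 0 ≤ T ^ (1 - kap r) / ((g : ℝ) * k) := by positivity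
  by_cases hA : ∀ E ∈ EE, ∀ u ∈ Ico U (2 * U), α E u = 0
  · refine le_trans (le_of_eq ?_) hrhs
    refine sum_eq_zero (fun E hE => ?_)
    rw [abs_eq_zero]
    refine sum_eq_zero (fun u hu => sum_eq_zero (fun v _ => ?_))
    rw [hA E hE u hu]; ring
  by_cases hB' : ∀ E ∈ EE, ∀ v ∈ Ico V (2 * V), β E v = 0
  · refine le_trans (le_of_eq ?_) hrhs
    refine sum_eq_zero (fun E hE => ?_)
    rw [abs_eq_zero]
    refine sum_eq_zero (fun u _ => sum_eq_zero (fun v hv => ?_))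
    rw [hB' E hE v hv]; ring
  push Not at hA hB'
  obtain ⟨E1, hE1, u1, hu1, hα1⟩ := hA
  obtain ⟨E2, hE2, v1, hv1, hβ1⟩ := hB'
  have hgU : (g : ℝ) * k * U ≤ T ^ r := by
    have h1 := (hαc E1 hE1 u1 hα1).2
    push_cast at h1
    have h2 : (U : ℝ) ≤ u1 := by exact_mod_cast (mem_Ico.1 hu1).1
    exact (mul_le_mul_of_nonneg_left h2 (by positivity)).trans h1
  have hgV : (g : ℝ) * k * V ≤ T ^ r := by
    have h1 := (hβc E2 hE2 v1 hβ1).2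
    push_cast at h1
    have h2 : (V : ℝ) ≤ v1 := by exact_mod_cast (mem_Ico.1 hv1).1
    exact (mul_le_mul_of_nonneg_left h2 (by positivity)).trans h1
  have hE0T : (E0 : ℝ) ≤ T ^ (2 * r) := by
    have h2 : (E0 : ℝ) ≤ E1 := by exact_mod_cast (mem_Ico.1 (hEE hE1)).1
    exact h2.trans (hEE2 E1 hE1).2.2
  have hEpos : ∀ E ∈ EE, 1 ≤ E := fun E hE => hE0.trans (mem_Ico.1 (hEE hE)).1
  have hτ : ∀ E : ℕ, ∃ τ : ℕ, E ∈ EE → (τ ≡ ρ [MOD q] ∧ E ∣ b * τ + 1) := by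
    intro E
    by_cases hE : E ∈ EE
    · have hc := (hEE2 E hE).1
      have h1 : Nat.Coprime E b := hc.coprime_dvd_right ⟨a * q, by ring⟩
      have h2 : Nat.Coprime E q := hc.coprime_dvd_right ⟨a * b, by ring⟩
      obtain ⟨τ, hτ⟩ := Blk_tau (ρ := ρ) (hEpos E hE) h1 h2
      exact ⟨τ, fun _ => hτ⟩
    · exact ⟨0, fun h => absurd h hE⟩
  choose τ hτ using hτ
  set EE' : Finset ℕ := EE.filter (fun E => Nat.Coprime (g * k ^ 2) (a * E * q)) with hEE'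
  have hsub : EE' ⊆ EE := filter_subset _ _
  have hfc : ∀ E ∈ EE', Nat.Coprime (a * τ E + 1) E := by
    intro E hE
    have hE' := hsub hE
    exact Blk_cop (hτ E hE').2 (hEE2 E hE').2.1
  have hmain := hB T hTB q E0 U V g k hq hE0 hU hV hg hk hqT hgU hgV hE0T EE' (hsub.trans hEE)
    (fun E => a * τ E + 1) hfc (fun E hE => (mem_filter.1 hE).2) α β hα hβ
    (fun E hE u hu => (hαc E (hsub hE) u hu).1.coprime_dvd_left (dvd_mul_left u (g * k)))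
    (fun E hE v hv => (hβc E (hsub hE) v hv).1.coprime_dvd_left (dvd_mul_left v (g * k)))
  set M0 : ℝ := (g : ℝ) * k ^ 2 * U * V * E0 * q with hM0
  have hM00 : 0 < M0 := by positivity
  set X : ℝ := 8 * T ^ kap r * M0 / T with hX
  have hX0 : 0 < X := by positivity
  set err : ℝ := C * (65 * T ^ (2 * kap r - 1)) with herr
  have herr0 : 0 ≤ err := by positivity
  have hout : ∑ E ∈ EE, |∑ u ∈ Ico U (2 * U), ∑ v ∈ Ico V (2 * V), α E u * β E v *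
        (NDE φ T a b q ρ (g * k ^ 2 * u * v) E -
          T * (∫ x, φ x) / (((g * k ^ 2 * u * v : ℕ) : ℝ) * (E : ℝ) * q))| =
      ∑ E ∈ EE', |∑ u ∈ Ico U (2 * U), ∑ v ∈ Ico V (2 * V), α E u * β E v *
        (NDE φ T a b q ρ (g * k ^ 2 * u * v) E -
          T * (∫ x, φ x) / (((g * k ^ 2 * u * v : ℕ) : ℝ) * (E : ℝ) * q))| := by
    refine (sum_subset hsub (fun E hE hE' => ?_)).symm
    rw [abs_eq_zero]
    refine sum_eq_zero (fun u _ => sum_eq_zero (fun v _ => ?_))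
    have h0 : α E u = 0 := by
      by_contra hne
      apply hE'
      refine mem_filter.2 ⟨hE, ?_⟩
      have hc := (hαc E hE u hne).1
      have hgk : Nat.Coprime (g * k) (a * E * q) := hc.coprime_dvd_left (dvd_mul_right _ _)
      have hk2 : Nat.Coprime k (a * E * q) := hgk.coprime_dvd_left (dvd_mul_left _ _)
      have e : g * k ^ 2 = g * k * k := by ring
      rw [e]
      exact hgk.mul_left hk2
    rw [h0]; ring
  rw [hout]
  have hE' : ∀ E ∈ EE', |∑ u ∈ Ico U (2 * U), ∑ v ∈ Ico V (2 * V), α E u * β E v *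
        (NDE φ T a b q ρ (g * k ^ 2 * u * v) E -
          T * (∫ x, φ x) / (((g * k ^ 2 * u * v : ℕ) : ℝ) * (E : ℝ) * q))| ≤
      2 * ‖∑ u ∈ Ico U (2 * U), ∑ v ∈ Ico V (2 * V), ((α E u * β E v : ℝ) : ℂ) *
      ∑ h ∈ Icc 1 ⌊X⌋₊,
        ((T / (((g * k ^ 2 * u * v : ℕ) : ℝ) * E * q) : ℝ) : ℂ) *
        ph φ (h * T / (((g * k ^ 2 * u * v : ℕ) : ℝ) * E * q)) *
        chi (a * E * q) ((h : ZMod (a * E * q)) * ((a * τ E + 1 : ℕ) : ZMod (a * E * q)) *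
          ((g * k ^ 2 * u * v : ℕ) : ZMod (a * E * q))⁻¹)‖ + U * V * err := by
    intro E hE
    have hEm := hsub hE
    have hE1' := hEpos E hEm
    have hEr : (1 : ℝ) ≤ E := by exact_mod_cast hE1'
    refine Blk_one U V (α E) (β E) _ _ err herr0 (hα E) (hβ E) ?_
    intro u hu v hv hau hbv
    have hu0 : 1 ≤ u := hU.trans (mem_Ico.1 hu).1
    have hv0 : 1 ≤ v := hV.trans (mem_Ico.1 hv).1
    have hD1 : 1 ≤ g * k ^ 2 * u * v :=
      Nat.mul_pos (Nat.mul_pos (Nat.mul_pos (by omega) (by positivity)) (by omega)) (by omega)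
    have hcD : Nat.Coprime (g * k ^ 2 * u * v) (a * E * q) := by
      have c1 := (hαc E hEm u hau).1
      have c2 := (hβc E hEm v hbv).1.coprime_dvd_left (show k * v ∣ g * k * v from ⟨g, by ring⟩)
      have e : g * k ^ 2 * u * v = g * k * u * (k * v) := by ring
      rw [e]
      exact c1.mul_left c2
    have hcEq : Nat.Coprime E q := (hEE2 E hEm).1.coprime_dvd_right ⟨a * b, by ring⟩
    have h1 := hloc T hT1 a b q ρ (g * k ^ 2 * u * v) E (τ E) ha hb hq hD1 hE1' hcD hcEq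
      (hτ E hEm).1 (hτ E hEm).2 X hX0
    refine h1.trans ?_
    rw [herr]
    refine mul_le_mul_of_nonneg_left ?_ hC.le
    have hur : (U : ℝ) ≤ u := by exact_mod_cast (mem_Ico.1 hu).1
    have hur2 : (u : ℝ) ≤ 2 * U := by exact_mod_cast (mem_Ico.1 hu).2.le
    have hvr : (V : ℝ) ≤ v := by exact_mod_cast (mem_Ico.1 hv).1
    have hvr2 : (v : ℝ) ≤ 2 * V := by exact_mod_cast (mem_Ico.1 hv).2.le
    have hEr1 : (E0 : ℝ) ≤ E := by exact_mod_cast (mem_Ico.1 (hEE hEm)).1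
    have hEr2 : (E : ℝ) ≤ 2 * E0 := by exact_mod_cast (mem_Ico.1 (hEE hEm)).2.le
    have b1 : M0 ≤ (((g * k ^ 2 * u * v : ℕ) : ℝ)) * E * q := by
      push_cast
      rw [hM0]
      gcongr
    have b2 : (((g * k ^ 2 * u * v : ℕ) : ℝ)) * E * q ≤ 8 * M0 := by
      push_cast
      rw [hM0]
      calc (g : ℝ) * k ^ 2 * u * v * E * q ≤ (g : ℝ) * k ^ 2 * (2 * U) * (2 * V) * (2 * E0) * q := by gcongr
        _ = _ := by ring
    exact Blk_err hT1 hκ0 hK1 hM00 b1 b2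
  have hcard : (EE'.card : ℝ) ≤ E0 := by
    have h1 : EE'.card ≤ (Ico E0 (2 * E0)).card := card_le_card (hsub.trans hEE)
    rw [Nat.card_Ico] at h1
    have h2 : EE'.card ≤ E0 := by omega
    exact_mod_cast h2
  have hgk0 : (0 : ℝ) < (g : ℝ) * k := by positivity
  have hgk1 : (1 : ℝ) ≤ (g : ℝ) * k := one_le_mul_of_one_le_of_one_le hg' hk'
  have hUV : (U : ℝ) * V ≤ T ^ (2 * r) / ((g : ℝ) * k) := by
    rw [le_div_iff₀ hgk0]
    have h1 : ((g : ℝ) * k * U) * ((g : ℝ) * k * V) ≤ T ^ r * T ^ r :=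
      mul_le_mul hgU hgV (by positivity) (by positivity)
    rw [← Real.rpow_add hT0, ← two_mul] at h1
    refine le_trans ?_ h1
    calc (U : ℝ) * V * ((g : ℝ) * k) = ((g : ℝ) * k) * U * V * 1 := by ring
      _ ≤ ((g : ℝ) * k) * U * V * ((g : ℝ) * k) := mul_le_mul_of_nonneg_left hgk1 (by positivity)
      _ = _ := by ring
  have hexp : T ^ (2 * r) * T ^ (2 * r) * T ^ (2 * kap r - 1) * T ^ (9 / 10 : ℝ) ≤ T ^ (1 - kap r) := by
    rw [← Real.rpow_add hT0, ← Real.rpow_add hT0, ← Real.rpow_add hT0]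
    refine Real.rpow_le_rpow_of_exponent_le hT1 ?_
    unfold kap
    linarith
  calc ∑ E ∈ EE', |∑ u ∈ Ico U (2 * U), ∑ v ∈ Ico V (2 * V), α E u * β E v *
        (NDE φ T a b q ρ (g * k ^ 2 * u * v) E -
          T * (∫ x, φ x) / (((g * k ^ 2 * u * v : ℕ) : ℝ) * (E : ℝ) * q))|
      ≤ ∑ E ∈ EE', (2 * ‖∑ u ∈ Ico U (2 * U), ∑ v ∈ Ico V (2 * V), ((α E u * β E v : ℝ) : ℂ) *
      ∑ h ∈ Icc 1 ⌊X⌋₊,
        ((T / (((g * k ^ 2 * u * v : ℕ) : ℝ) * E * q) : ℝ) : ℂ) *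
        ph φ (h * T / (((g * k ^ 2 * u * v : ℕ) : ℝ) * E * q)) *
        chi (a * E * q) ((h : ZMod (a * E * q)) * ((a * τ E + 1 : ℕ) : ZMod (a * E * q)) *
          ((g * k ^ 2 * u * v : ℕ) : ZMod (a * E * q))⁻¹)‖ + U * V * err) := sum_le_sum hE'
    _ = 2 * (∑ E ∈ EE', ‖∑ u ∈ Ico U (2 * U), ∑ v ∈ Ico V (2 * V), ((α E u * β E v : ℝ) : ℂ) *
      ∑ h ∈ Icc 1 ⌊X⌋₊,
        ((T / (((g * k ^ 2 * u * v : ℕ) : ℝ) * E * q) : ℝ) : ℂ) *
        ph φ (h * T / (((g * k ^ 2 * u * v : ℕ) : ℝ) * E * q)) *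
        chi (a * E * q) ((h : ZMod (a * E * q)) * ((a * τ E + 1 : ℕ) : ZMod (a * E * q)) *
          ((g * k ^ 2 * u * v : ℕ) : ZMod (a * E * q))⁻¹)‖) + EE'.card * (U * V * err) := by
        rw [sum_add_distrib, ← mul_sum, sum_const, nsmul_eq_mul]
    _ ≤ 2 * (T ^ (1 - kap r) / (4 * (g * k))) + T ^ (1 - kap r) / (2 * (g * k)) := by
        refine add_le_add (mul_le_mul_of_nonneg_left hmain (by norm_num)) ?_
        calc (EE'.card : ℝ) * (U * V * err) ≤ T ^ (2 * r) * (T ^ (2 * r) / ((g : ℝ) * k) * err) := by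
              have h1 : (EE'.card : ℝ) ≤ T ^ (2 * r) := hcard.trans hE0T
              have h2 : (U : ℝ) * V * err ≤ T ^ (2 * r) / ((g : ℝ) * k) * err :=
                mul_le_mul_of_nonneg_right hUV herr0
              exact mul_le_mul h1 h2 (by positivity) (by positivity)
          _ = (130 * C) * (T ^ (2 * r) * T ^ (2 * r) * T ^ (2 * kap r - 1)) / (2 * (g * k)) := by
              rw [herr]; field_simp; ring
          _ ≤ T ^ (1 - kap r) / (2 * (g * k)) := by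
              refine div_le_div_of_nonneg_right ?_ (by positivity)
              calc (130 * C) * (T ^ (2 * r) * T ^ (2 * r) * T ^ (2 * kap r - 1))
                  ≤ T ^ (9 / 10 : ℝ) * (T ^ (2 * r) * T ^ (2 * r) * T ^ (2 * kap r - 1)) :=
                    mul_le_mul_of_nonneg_right hTC (by positivity)
                _ = T ^ (2 * r) * T ^ (2 * r) * T ^ (2 * kap r - 1) * T ^ (9 / 10 : ℝ) := by ring
                _ ≤ _ := hexp
    _ = T ^ (1 - kap r) / (g * k) := by field_simp; ring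

end H69EGD
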