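import Pool.Agent.H69.EGD.Defs

/-!
# MOB: the decomposition of least common multiples

For positive `d1, d2` with gcd `n`: `F(lcm(d1,d2)) = ∑_{g ∣ n} F(d1 d2/g) [g = n] = ∑_{g ∣ n} F(d1 d2/g) ∑_{k ∣ n/g} μ(k)`.
So the left side is `∑_{g,k} μ(k) ∑_{d1, d2 ∈ S, g k ∣ d1, g k ∣ d2} l(d1) l(d2) F(d1 d2/g)` (`g, k ≤ N` automatically), and
`d1 = g k u`, `d2 = g k v` (`u, v ≤ N`) gives `d1 d2/g = g k² u v`.
-/

open Finset H69LB EG

namespace H69EGD

theorem Mob_re (N : ℕ) (S : Finset ℕ) (hS : ∀ d ∈ S, 1 ≤ d ∧ d ≤ N) (c : ℕ) (hc : 1 ≤ c) (G : ℕ → ℝ) :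
    ∑ d ∈ S, (if c ∣ d then G d else 0) = ∑ u ∈ Icc 1 N, (if c * u ∈ S then G (c * u) else 0) := by
  rw [← Finset.sum_filter, ← Finset.sum_filter]
  symm
  apply Finset.sum_nbij (fun u => c * u)
  · intro u hu
    rw [Finset.mem_filter] at hu ⊢
    exact ⟨hu.2, Dvd.intro u rfl⟩
  · intro u _ v _ huv
    exact Nat.eq_of_mul_eq_mul_left hc huv
  · intro d hd
    rw [Finset.mem_coe, Finset.mem_filter] at hd
    obtain ⟨hd, u, rfl⟩ := hd
    have h1 := hS _ hd
    refine ⟨u, ?_, rfl⟩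
    rw [Finset.mem_coe, Finset.mem_filter, Finset.mem_Icc]
    refine ⟨⟨?_, ?_⟩, hd⟩
    · rcases Nat.eq_zero_or_pos u with h0 | h0
      · subst h0
        simp at h1
      · exact h0
    · exact le_trans (Nat.le_mul_of_pos_left u hc) h1.2
  · intro u _
    rfl

theorem Mob_sum (m : ℕ) (hm : 1 ≤ m) :
    ∑ k ∈ m.divisors, (ArithmeticFunction.moebius k : ℝ) = if m = 1 then 1 else 0 := by
  have h := congrArg (fun f : ArithmeticFunction ℤ => f m) ArithmeticFunction.moebius_mul_coe_zeta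
  simp only [ArithmeticFunction.one_apply, ArithmeticFunction.coe_mul_zeta_apply] at h
  have h2 : ((∑ k ∈ m.divisors, ArithmeticFunction.moebius k : ℤ) : ℝ) = ((if m = 1 then 1 else 0 : ℤ) : ℝ) := by
    rw [h]
  push_cast at h2
  exact h2

theorem Mob_gk (N n g : ℕ) (hn : 1 ≤ n) (hnN : n ≤ N) (hg : 1 ≤ g) :
    ∑ k ∈ Icc 1 N, (ArithmeticFunction.moebius k : ℝ) * (if g * k ∣ n then 1 else 0) = if g = n then 1 else 0 := by
  by_cases hgn : g ∣ n
  · obtain ⟨m, rfl⟩ := hgn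
    have hm : 1 ≤ m := by
      rcases Nat.eq_zero_or_pos m with h0 | h0
      · subst h0
        simp at hn
      · exact h0
    have h1 : ∑ k ∈ Icc 1 N, (ArithmeticFunction.moebius k : ℝ) * (if g * k ∣ g * m then 1 else 0) =
        ∑ k ∈ m.divisors, (ArithmeticFunction.moebius k : ℝ) := by
      have h2 : ∀ k ∈ Icc 1 N, (ArithmeticFunction.moebius k : ℝ) * (if g * k ∣ g * m then 1 else 0) =
          (if k ∣ m then (ArithmeticFunction.moebius k : ℝ) else 0) := by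
        intro k _
        have h3 : g * k ∣ g * m ↔ k ∣ m := Nat.mul_dvd_mul_iff_left hg
        by_cases h4 : k ∣ m
        · rw [if_pos (h3.2 h4), if_pos h4, mul_one]
        · rw [if_neg (fun h => h4 (h3.1 h)), if_neg h4, mul_zero]
      rw [Finset.sum_congr rfl h2, ← Finset.sum_filter]
      apply Finset.sum_congr _ (fun _ _ => rfl)
      ext k
      rw [Finset.mem_filter, Finset.mem_Icc, Nat.mem_divisors]
      constructor
      · rintro ⟨_, h⟩
        exact ⟨h, by omega⟩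
      · rintro ⟨h, _⟩
        have h5 := Nat.pos_of_dvd_of_pos h hm
        have h6 := Nat.le_of_dvd hm h
        have h7 : m ≤ g * m := Nat.le_mul_of_pos_left m hg
        exact ⟨⟨h5, by omega⟩, h⟩
    rw [h1, Mob_sum m hm]
    by_cases h8 : m = 1
    · subst h8
      simp
    · rw [if_neg h8, if_neg]
      intro h9
      apply h8
      have h10 : g * m = g * 1 := by omega
      exact Nat.eq_of_mul_eq_mul_left hg h10
  · have hgn' : ¬ g = n := by
      intro h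
      apply hgn
      rw [h]
    rw [if_neg hgn']
    apply Finset.sum_eq_zero
    intro k _
    rw [if_neg (fun h => hgn (dvd_trans (Dvd.intro k rfl) h)), mul_zero]

theorem Mob_pt (N d1 d2 : ℕ) (h1 : 1 ≤ d1 ∧ d1 ≤ N) (h2 : 1 ≤ d2 ∧ d2 ≤ N) (F : ℕ → ℝ) :
    F (Nat.lcm d1 d2) = ∑ g ∈ Icc 1 N, ∑ k ∈ Icc 1 N, (ArithmeticFunction.moebius k : ℝ) *
      (if g * k ∣ d1 then (if g * k ∣ d2 then F (d1 * d2 / g) else 0) else 0) := by
  have hn : 1 ≤ Nat.gcd d1 d2 := Nat.gcd_pos_of_pos_left d2 h1.1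
  have hnN : Nat.gcd d1 d2 ≤ N := le_trans (Nat.gcd_le_left d2 h1.1) h1.2
  have h3 : ∀ g ∈ Icc 1 N, ∑ k ∈ Icc 1 N, (ArithmeticFunction.moebius k : ℝ) *
      (if g * k ∣ d1 then (if g * k ∣ d2 then F (d1 * d2 / g) else 0) else 0) =
      if g = Nat.gcd d1 d2 then F (d1 * d2 / g) else 0 := by
    intro g hg
    have h4 := Mob_gk N (Nat.gcd d1 d2) g hn hnN (Finset.mem_Icc.1 hg).1
    have h5 : ∀ k ∈ Icc 1 N, (ArithmeticFunction.moebius k : ℝ) *
      (if g * k ∣ d1 then (if g * k ∣ d2 then F (d1 * d2 / g) else 0) else 0) =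
      ((ArithmeticFunction.moebius k : ℝ) * (if g * k ∣ Nat.gcd d1 d2 then 1 else 0)) * F (d1 * d2 / g) := by
      intro k _
      by_cases h6 : g * k ∣ d1
      · by_cases h7 : g * k ∣ d2
        · rw [if_pos h6, if_pos h7, if_pos (Nat.dvd_gcd h6 h7), mul_one]
        · rw [if_pos h6, if_neg h7, if_neg (fun h => h7 (dvd_trans h (Nat.gcd_dvd_right d1 d2)))]
          ring
      · rw [if_neg h6, if_neg (fun h => h6 (dvd_trans h (Nat.gcd_dvd_left d1 d2)))]
        ring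
    rw [Finset.sum_congr rfl h5, ← Finset.sum_mul, h4]
    by_cases h8 : g = Nat.gcd d1 d2
    · rw [if_pos h8, if_pos h8, one_mul]
    · rw [if_neg h8, if_neg h8, zero_mul]
  rw [Finset.sum_congr rfl h3, Finset.sum_ite_eq' (Icc 1 N) (Nat.gcd d1 d2) (fun g => F (d1 * d2 / g)),
    if_pos (Finset.mem_Icc.2 ⟨hn, hnN⟩)]
  rfl

theorem mob (N : ℕ) (S : Finset ℕ) (hS : ∀ d ∈ S, 1 ≤ d ∧ d ≤ N) (l : ℕ → ℝ) (F : ℕ → ℝ) :
    ∑ d ∈ S ×ˢ S, l d.1 * l d.2 * F (Nat.lcm d.1 d.2) =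
      ∑ g ∈ Icc 1 N, ∑ k ∈ Icc 1 N, (ArithmeticFunction.moebius k : ℝ) *
        ∑ u ∈ Icc 1 N, ∑ v ∈ Icc 1 N,
          (if g * k * u ∈ S then l (g * k * u) else 0) * (if g * k * v ∈ S then l (g * k * v) else 0) *
            F (g * k ^ 2 * u * v) := by
  -- the inner sums
  have hin : ∀ g ∈ Icc 1 N, ∀ k ∈ Icc 1 N,
      ∑ u ∈ Icc 1 N, ∑ v ∈ Icc 1 N,
          (if g * k * u ∈ S then l (g * k * u) else 0) * (if g * k * v ∈ S then l (g * k * v) else 0) *
            F (g * k ^ 2 * u * v) =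
      ∑ d1 ∈ S, ∑ d2 ∈ S, l d1 * l d2 *
        (if g * k ∣ d1 then (if g * k ∣ d2 then F (d1 * d2 / g) else 0) else 0) := by
    intro g hg k hk
    have hg1 : 1 ≤ g := (Finset.mem_Icc.1 hg).1
    have hk1 : 1 ≤ k := (Finset.mem_Icc.1 hk).1
    have hc : 1 ≤ g * k := Nat.mul_pos hg1 hk1
    have e1 : ∀ d1 ∈ S, ∑ d2 ∈ S, l d1 * l d2 *
        (if g * k ∣ d1 then (if g * k ∣ d2 then F (d1 * d2 / g) else 0) else 0) =
        if g * k ∣ d1 then (∑ d2 ∈ S, if g * k ∣ d2 then l d1 * l d2 * F (d1 * d2 / g) else 0) else 0 := by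
      intro d1 _
      by_cases h : g * k ∣ d1
      · rw [if_pos h]
        apply Finset.sum_congr rfl
        intro d2 _
        rw [if_pos h]
        by_cases h' : g * k ∣ d2
        · rw [if_pos h', if_pos h']
        · rw [if_neg h', if_neg h', mul_zero]
      · rw [if_neg h]
        apply Finset.sum_eq_zero
        intro d2 _
        rw [if_neg h, mul_zero]
    rw [Finset.sum_congr rfl e1, Mob_re N S hS (g * k) hc
      (fun d1 => ∑ d2 ∈ S, if g * k ∣ d2 then l d1 * l d2 * F (d1 * d2 / g) else 0)]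
    apply Finset.sum_congr rfl
    intro u _
    by_cases hu : g * k * u ∈ S
    · rw [if_pos hu, if_pos hu, Mob_re N S hS (g * k) hc (fun d2 => l (g * k * u) * l d2 * F (g * k * u * d2 / g))]
      apply Finset.sum_congr rfl
      intro v _
      by_cases hv : g * k * v ∈ S
      · rw [if_pos hv, if_pos hv]
        have h9 : g * k * u * (g * k * v) / g = g * k ^ 2 * u * v := by
          have h10 : g * k * u * (g * k * v) = g * (g * k ^ 2 * u * v) := by ring
          rw [h10, Nat.mul_div_cancel_left _ hg1]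
        rw [h9]
      · rw [if_neg hv, if_neg hv, mul_zero, zero_mul]
    · rw [if_neg hu, if_neg hu]
      apply Finset.sum_eq_zero
      intro v _
      rw [zero_mul, zero_mul]
  have hR : ∑ g ∈ Icc 1 N, ∑ k ∈ Icc 1 N, (ArithmeticFunction.moebius k : ℝ) *
        ∑ u ∈ Icc 1 N, ∑ v ∈ Icc 1 N,
          (if g * k * u ∈ S then l (g * k * u) else 0) * (if g * k * v ∈ S then l (g * k * v) else 0) *
            F (g * k ^ 2 * u * v) =
      ∑ g ∈ Icc 1 N, ∑ k ∈ Icc 1 N, ∑ d ∈ S ×ˢ S, l d.1 * l d.2 * ((ArithmeticFunction.moebius k : ℝ) *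
        (if g * k ∣ d.1 then (if g * k ∣ d.2 then F (d.1 * d.2 / g) else 0) else 0)) := by
    apply Finset.sum_congr rfl
    intro g hg
    apply Finset.sum_congr rfl
    intro k hk
    rw [hin g hg k hk, Finset.sum_product, Finset.mul_sum]
    apply Finset.sum_congr rfl
    intro d1 _
    rw [Finset.mul_sum]
    apply Finset.sum_congr rfl
    intro d2 _
    ring
  rw [hR]
  have hsw : ∑ g ∈ Icc 1 N, ∑ k ∈ Icc 1 N, ∑ d ∈ S ×ˢ S, l d.1 * l d.2 * ((ArithmeticFunction.moebius k : ℝ) *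
        (if g * k ∣ d.1 then (if g * k ∣ d.2 then F (d.1 * d.2 / g) else 0) else 0)) =
      ∑ d ∈ S ×ˢ S, ∑ g ∈ Icc 1 N, ∑ k ∈ Icc 1 N, l d.1 * l d.2 * ((ArithmeticFunction.moebius k : ℝ) *
        (if g * k ∣ d.1 then (if g * k ∣ d.2 then F (d.1 * d.2 / g) else 0) else 0)) := by
    have h1 : ∀ g ∈ Icc 1 N, ∑ k ∈ Icc 1 N, ∑ d ∈ S ×ˢ S, l d.1 * l d.2 * ((ArithmeticFunction.moebius k : ℝ) *
        (if g * k ∣ d.1 then (if g * k ∣ d.2 then F (d.1 * d.2 / g) else 0) else 0)) =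
        ∑ d ∈ S ×ˢ S, ∑ k ∈ Icc 1 N, l d.1 * l d.2 * ((ArithmeticFunction.moebius k : ℝ) *
        (if g * k ∣ d.1 then (if g * k ∣ d.2 then F (d.1 * d.2 / g) else 0) else 0)) := by
      intro g _
      exact Finset.sum_comm
    rw [Finset.sum_congr rfl h1]
    exact Finset.sum_comm
  rw [hsw]
  apply Finset.sum_congr rfl
  intro d hd
  rw [Finset.mem_product] at hd
  rw [Mob_pt N d.1 d.2 (hS _ hd.1) (hS _ hd.2) F, Finset.mul_sum]
  apply Finset.sum_congr rfl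
  intro g _
  rw [Finset.mul_sum]

end H69EGD
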