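import Pool.Agent.H69.EGD.Blk
import Pool.Agent.H69.EGD.Mob

/-!
# BRK: all `D`

Let `N = ⌊T^r⌋`, so `S ⊆ [1, N]`. For `E ∈ EE` let `S_E = {d ∈ S : d coprime to E}`: `lcm(d1, d2)` is coprime to `E` iff both are. By
`mob` for `S_E` (with `F D = NDE ... D E - T ∫φ/(D E q)`) the inner sum is
`∑_g ∑_k μ(k) ∑_u ∑_v α_E(u) α_E(v) F(g k² u v)`, `α_E(u) = l(g k u)` if `g k u ∈ S_E` and `0` otherwise. Split `u`, `v` and `E` dyadically
(`[2^i, 2^(i+1))`; `i < n` with `2^n > N` resp. `2^n > N²`, `n ≤ 3 + 3 log T`): by `blk` (conditions: `E`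
coprime to `a b q`; no prime factor of `E` divides `a - b`; `α_E(u) ≠ 0` implies that `g k u ∈ S` is coprime to `Q q` and to
`E`, so to `a E q`, and `≤ T^r`) the sum is at most
`n^3 ∑_{g,k ≤ N} T^(1-κ)/(g k) ≤ n^3 (1 + log T)^2 T^(1-κ) ≤ T^(1-κ/2)` for large `T`.
-/

open Finset H69LB EG

namespace H69EGD

theorem brk_ico (n : ℕ) (f : ℕ → ℝ) :
    ∑ i ∈ range n, ∑ u ∈ Ico (2 ^ i) (2 * 2 ^ i), f u = ∑ u ∈ Ico 1 (2 ^ n), f u := by
  induction n with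
  | zero => simp
  | succ n ih =>
    rw [Finset.sum_range_succ, ih, ← pow_succ']
    exact Finset.sum_Ico_consecutive f Nat.one_le_two_pow (Nat.pow_le_pow_right (by norm_num) (Nat.le_succ n))

theorem brk_split (N n : ℕ) (hN : N < 2 ^ n) (f : ℕ → ℝ) (hf : ∀ u, N < u → f u = 0) :
    ∑ u ∈ Icc 1 N, f u = ∑ i ∈ range n, ∑ u ∈ Ico (2 ^ i) (2 * 2 ^ i), f u := by
  rw [brk_ico]
  apply Finset.sum_subset
  · intro u hu
    rw [Finset.mem_Icc] at hu
    rw [Finset.mem_Ico]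
    omega
  · intro u hu hu'
    rw [Finset.mem_Ico] at hu
    rw [Finset.mem_Icc] at hu'
    apply hf
    by_contra h
    exact hu' ⟨hu.1, by omega⟩

theorem brk_split2 (N n : ℕ) (hN : N < 2 ^ n) (f : ℕ → ℕ → ℝ) (hf : ∀ u v, N < u ∨ N < v → f u v = 0) :
    ∑ u ∈ Icc 1 N, ∑ v ∈ Icc 1 N, f u v = ∑ i ∈ range n, ∑ j ∈ range n,
      ∑ u ∈ Ico (2 ^ i) (2 * 2 ^ i), ∑ v ∈ Ico (2 ^ j) (2 * 2 ^ j), f u v := by
  have h1 : ∀ u, ∑ v ∈ Icc 1 N, f u v = ∑ j ∈ range n, ∑ v ∈ Ico (2 ^ j) (2 * 2 ^ j), f u v := by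
    intro u
    exact brk_split N n hN (f u) (fun v hv => hf u v (Or.inr hv))
  simp_rw [h1]
  rw [brk_split N n hN (fun u => ∑ j ∈ range n, ∑ v ∈ Ico (2 ^ j) (2 * 2 ^ j), f u v)]
  · apply Finset.sum_congr rfl
    intro i _
    rw [Finset.sum_comm]
  · intro u hu
    apply Finset.sum_eq_zero
    intro j _
    apply Finset.sum_eq_zero
    intro v _
    exact hf u v (Or.inl hu)

theorem brk_EE (n : ℕ) (EE : Finset ℕ) (hE : ∀ E ∈ EE, 1 ≤ E ∧ E < 2 ^ n) (h : ℕ → ℝ) :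
    ∑ E ∈ EE, h E = ∑ e ∈ range n, ∑ E ∈ Ico (2 ^ e) (2 * 2 ^ e) ∩ EE, h E := by
  have h1 := brk_ico n (fun E => if E ∈ EE then h E else 0)
  simp only [Finset.sum_ite_mem] at h1
  rw [h1]
  apply Finset.sum_congr _ (fun _ _ => rfl)
  ext E
  simp only [Finset.mem_inter, Finset.mem_Ico]
  constructor
  · intro hh
    exact ⟨hE E hh, hh⟩
  · intro hh
    exact hh.2

theorem brk_harm (N : ℕ) {T : ℝ} (hT : 1 ≤ T) (hN : (N : ℝ) ≤ T) :
    ∑ g ∈ Icc 1 N, (1 : ℝ) / (g : ℝ) ≤ 1 + Real.log T := by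
  rcases Nat.eq_zero_or_pos N with h0 | h0
  · subst h0
    have := Real.log_nonneg hT
    simp
    linarith
  have h1 := harmonic_le_one_add_log N
  rw [harmonic_eq_sum_Icc] at h1
  push_cast at h1
  have h2 : Real.log N ≤ Real.log T := Real.log_le_log (by exact_mod_cast h0) hN
  simp only [one_div]
  linarith

theorem brk_cop (d1 d2 E : ℕ) : Nat.Coprime (Nat.lcm d1 d2) E ↔ Nat.Coprime d1 E ∧ Nat.Coprime d2 E := by
  constructor
  · intro h
    exact ⟨Nat.Coprime.coprime_dvd_left (Nat.dvd_lcm_left d1 d2) h,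
      Nat.Coprime.coprime_dvd_left (Nat.dvd_lcm_right d1 d2) h⟩
  · rintro ⟨h1, h2⟩
    exact Nat.Coprime.coprime_dvd_left (Nat.lcm_dvd_mul d1 d2) (Nat.Coprime.mul_left h1 h2)

theorem brk_log {κ : ℝ} (hκ : 0 < κ) {T : ℝ} (hT1 : 1 ≤ T)
    (hC : ((1 + 1 / (κ / 20)) ^ 5) ^ (4 / κ) ≤ T) :
    (1 + Real.log T) ^ 5 * T ^ (1 - κ) ≤ T ^ (1 - κ / 2) := by
  have hT0 : 0 < T := by linarith
  set δ := κ / 20 with hδ
  have hδ0 : 0 < δ := by positivity
  have h1 : Real.log T ≤ T ^ δ / δ := Real.log_le_rpow_div hT0.le hδ0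
  have h2 : (1 : ℝ) ≤ T ^ δ := Real.one_le_rpow hT1 hδ0.le
  have h3 : 1 + Real.log T ≤ (1 + 1 / δ) * T ^ δ := by
    have : (1 + 1 / δ) * T ^ δ = T ^ δ + T ^ δ / δ := by ring
    rw [this]
    linarith
  have h0 : 0 ≤ 1 + Real.log T := by
    have := Real.log_nonneg hT1
    linarith
  have h4 : (1 + Real.log T) ^ 5 ≤ (1 + 1 / δ) ^ 5 * T ^ (κ / 4) := by
    calc (1 + Real.log T) ^ 5 ≤ ((1 + 1 / δ) * T ^ δ) ^ 5 := by gcongr
      _ = (1 + 1 / δ) ^ 5 * (T ^ δ) ^ 5 := by ring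
      _ = (1 + 1 / δ) ^ 5 * T ^ (κ / 4) := by
        rw [← Real.rpow_natCast (T ^ δ) 5, ← Real.rpow_mul hT0.le]
        congr 2
        push_cast
        rw [hδ]
        ring
  have hD : (0 : ℝ) ≤ (1 + 1 / δ) ^ 5 := by positivity
  have h5 : (1 + 1 / δ) ^ 5 ≤ T ^ (κ / 4) := by
    calc (1 + 1 / δ) ^ 5 = (((1 + 1 / δ) ^ 5) ^ (4 / κ)) ^ (κ / 4) := by
          rw [← Real.rpow_mul hD]
          have : 4 / κ * (κ / 4) = 1 := by field_simp
          rw [this, Real.rpow_one]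
      _ ≤ T ^ (κ / 4) := Real.rpow_le_rpow (by positivity) hC (by positivity)
  have h6 : (1 + Real.log T) ^ 5 ≤ T ^ (κ / 2) := by
    calc (1 + Real.log T) ^ 5 ≤ (1 + 1 / δ) ^ 5 * T ^ (κ / 4) := h4
      _ ≤ T ^ (κ / 4) * T ^ (κ / 4) := by gcongr
      _ = T ^ (κ / 2) := by
        rw [← Real.rpow_add hT0]
        congr 1
        ring
  calc (1 + Real.log T) ^ 5 * T ^ (1 - κ) ≤ T ^ (κ / 2) * T ^ (1 - κ) := by gcongr
    _ = T ^ (1 - κ / 2) := by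
      rw [← Real.rpow_add hT0]
      congr 1
      ring

theorem brk_n {r : ℝ} (hr0 : 0 < r) (hr : r < 3 / 11) {T : ℝ} (hT1 : 1 ≤ T) :
    ((Nat.log 2 ⌊T ^ (2 * r)⌋₊ + 1 : ℕ) : ℝ) ≤ 1 + Real.log T := by
  have hT0 : 0 < T := by linarith
  have hlog : 0 ≤ Real.log T := Real.log_nonneg hT1
  have h1 : (1 : ℝ) ≤ T ^ (2 * r) := Real.one_le_rpow hT1 (by positivity)
  have hm : 1 ≤ ⌊T ^ (2 * r)⌋₊ := by
    rw [Nat.one_le_floor_iff]
    exact h1
  set m := ⌊T ^ (2 * r)⌋₊ with hmdef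
  have h2 : 2 ^ (Nat.log 2 m) ≤ m := Nat.pow_log_le_self 2 (by omega)
  have h3 : ((2 : ℝ)) ^ (Nat.log 2 m) ≤ T ^ (2 * r) := by
    calc ((2 : ℝ)) ^ (Nat.log 2 m) = ((2 ^ (Nat.log 2 m) : ℕ) : ℝ) := by push_cast; ring
      _ ≤ (m : ℝ) := by exact_mod_cast h2
      _ ≤ T ^ (2 * r) := Nat.floor_le (by positivity)
  have h4 : (Nat.log 2 m : ℝ) * Real.log 2 ≤ 2 * r * Real.log T := by
    have h5 := Real.log_le_log (by positivity) h3
    rw [Real.log_pow, Real.log_rpow hT0] at h5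
    exact h5
  have h6 : (0.6931471803 : ℝ) < Real.log 2 := Real.log_two_gt_d9
  have h7 : (Nat.log 2 m : ℝ) * 0.6931471803 ≤ (Nat.log 2 m : ℝ) * Real.log 2 := by gcongr
  have h8 : 2 * r * Real.log T ≤ 6 / 11 * Real.log T := by
    apply mul_le_mul_of_nonneg_right _ hlog
    linarith
  have h9 : (0 : ℝ) ≤ (Nat.log 2 m : ℝ) := by positivity
  push_cast
  nlinarith

theorem brk {η : ℝ} {φ : ℝ → ℝ} (hφ : Wt η φ) {r : ℝ} (hr0 : 0 < r) (hr : r < 3 / 11) :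
    ∀ Q a : ℕ, 1 ≤ a → a ∣ Q → ∃ T0 : ℝ, 1 ≤ T0 ∧ ∀ T : ℝ, T0 ≤ T → ∀ b q ρ : ℕ, 1 ≤ b → 1 ≤ q →
      (q : ℝ) ≤ T ^ kap r → 
      ∀ EE : Finset ℕ, (∀ E ∈ EE, 1 ≤ E ∧ Nat.Coprime E (a * b * q) ∧
        (∀ p : ℕ, p.Prime → p ∣ E → ¬ (p : ℤ) ∣ (a : ℤ) - b) ∧ (E : ℝ) ≤ T ^ (2 * r)) →
      ∀ S : Finset ℕ, (∀ d ∈ S, 1 ≤ d ∧ Nat.Coprime d (Q * q) ∧ (d : ℝ) ≤ T ^ r) →
      ∀ l : ℕ → ℝ, (∀ d, |l d| ≤ 1) →
      ∑ E ∈ EE, |∑ d ∈ (S ×ˢ S).filter (fun d => Nat.Coprime (Nat.lcm d.1 d.2) E), l d.1 * l d.2 *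
        (NDE φ T a b q ρ (Nat.lcm d.1 d.2) E - T * (∫ x, φ x) / ((Nat.lcm d.1 d.2 : ℝ) * (E : ℝ) * q))| ≤
          T ^ (1 - kap r / 2) := by
  intro Q a ha haQ
  obtain ⟨T0, hT0, hblk⟩ := blk hφ hr0 hr a ha
  have hκ : 0 < kap r := by
    unfold kap
    linarith
  refine ⟨max T0 (((1 + 1 / (kap r / 20)) ^ 5) ^ (4 / kap r)), le_max_of_le_left hT0, ?_⟩
  intro T hT b q ρ hb hq hqT EE hEE S hS l hl
  have hT0' : T0 ≤ T := le_trans (le_max_left _ _) hT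
  have hT1 : 1 ≤ T := le_trans hT0 hT0'
  have hTpos : 0 < T := by linarith
  have hC : ((1 + 1 / (kap r / 20)) ^ 5) ^ (4 / kap r) ≤ T := le_trans (le_max_right _ _) hT
  have hlog : 0 ≤ Real.log T := Real.log_nonneg hT1
  obtain ⟨N, hNdef⟩ : ∃ N, N = ⌊T ^ r⌋₊ := ⟨_, rfl⟩
  obtain ⟨n, hndef⟩ : ∃ n, n = Nat.log 2 ⌊T ^ (2 * r)⌋₊ + 1 := ⟨_, rfl⟩
  have hn1 : ⌊T ^ (2 * r)⌋₊ < 2 ^ n := by
    rw [hndef]
    exact Nat.lt_pow_succ_log_self (by norm_num) _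
  have hN1 : N ≤ ⌊T ^ (2 * r)⌋₊ := by
    rw [hNdef]
    exact Nat.floor_le_floor (Real.rpow_le_rpow_of_exponent_le hT1 (by linarith))
  have hnN : N < 2 ^ n := lt_of_le_of_lt hN1 hn1
  have hnlog : (n : ℝ) ≤ 1 + Real.log T := by
    rw [hndef]
    exact brk_n hr0 hr hT1
  have hNT : (N : ℝ) ≤ T := by
    calc (N : ℝ) ≤ T ^ r := by
          rw [hNdef]
          exact Nat.floor_le (by positivity)
      _ ≤ T ^ (1 : ℝ) := Real.rpow_le_rpow_of_exponent_le hT1 (by linarith)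
      _ = T := Real.rpow_one T
  have hSN : ∀ d ∈ S, 1 ≤ d ∧ d ≤ N := by
    intro d hd
    obtain ⟨h1, _, h3⟩ := hS d hd
    refine ⟨h1, ?_⟩
    rw [hNdef]
    exact Nat.le_floor h3
  obtain ⟨F, hF⟩ : ∃ F : ℕ → ℕ → ℝ, F = fun E D => NDE φ T a b q ρ D E - T * (∫ x, φ x) / ((D : ℝ) * (E : ℝ) * q) :=
    ⟨_, rfl⟩
  obtain ⟨α, hα⟩ : ∃ α : ℕ → ℕ → ℕ → ℕ → ℝ, α = fun g k E u =>
    if g * k * u ∈ S.filter (fun d => Nat.Coprime d E) then l (g * k * u) else 0 := ⟨_, rfl⟩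
  obtain ⟨Y, hY⟩ : ∃ Y : ℕ → ℕ → ℕ → ℕ → ℕ → ℝ, Y = fun E g k i j =>
    ∑ u ∈ Ico (2 ^ i) (2 * 2 ^ i), ∑ v ∈ Ico (2 ^ j) (2 * 2 ^ j), α g k E u * α g k E v * F E (g * k ^ 2 * u * v) :=
    ⟨_, rfl⟩
  have hαle : ∀ g k E u, |α g k E u| ≤ 1 := by
    intro g k E u
    rw [hα]
    dsimp only
    split_ifs
    · exact hl _
    · simp
  have hα0 : ∀ g k E u, α g k E u ≠ 0 → g * k * u ∈ S ∧ Nat.Coprime (g * k * u) E := by
    intro g k E u h
    rw [hα] at h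
    dsimp only at h
    by_cases hm : g * k * u ∈ S.filter (fun d => Nat.Coprime d E)
    · rw [Finset.mem_filter] at hm
      exact hm
    · rw [if_neg hm] at h
      exact absurd rfl h
  have hαN : ∀ g k E u, 1 ≤ g → 1 ≤ k → N < u → α g k E u = 0 := by
    intro g k E u hg hk hu
    by_contra h
    obtain ⟨h1, _⟩ := hα0 g k E u h
    have h2 := (hSN _ h1).2
    have h3 : u ≤ g * k * u := by
      have : 1 ≤ g * k := Nat.one_le_iff_ne_zero.mpr (Nat.mul_ne_zero (by omega) (by omega))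
      exact Nat.le_mul_of_pos_left u (by omega)
    omega
  have hid : ∀ E ∈ EE, ∑ d ∈ (S ×ˢ S).filter (fun d => Nat.Coprime (Nat.lcm d.1 d.2) E), l d.1 * l d.2 *
        (NDE φ T a b q ρ (Nat.lcm d.1 d.2) E - T * (∫ x, φ x) / ((Nat.lcm d.1 d.2 : ℝ) * (E : ℝ) * q)) =
      ∑ g ∈ Icc 1 N, ∑ k ∈ Icc 1 N, (ArithmeticFunction.moebius k : ℝ) *
        ∑ i ∈ range n, ∑ j ∈ range n, Y E g k i j := by
    intro E hE
    have h1 : (S ×ˢ S).filter (fun d => Nat.Coprime (Nat.lcm d.1 d.2) E) =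
        S.filter (fun d => Nat.Coprime d E) ×ˢ S.filter (fun d => Nat.Coprime d E) := by
      ext d
      simp only [Finset.mem_filter, Finset.mem_product, brk_cop]
      tauto
    rw [h1]
    have h2 := mob N (S.filter (fun d => Nat.Coprime d E))
      (fun d hd => hSN d (Finset.mem_filter.mp hd).1) l (F E)
    have h3 : ∀ d : ℕ × ℕ, l d.1 * l d.2 *
        (NDE φ T a b q ρ (Nat.lcm d.1 d.2) E - T * (∫ x, φ x) / ((Nat.lcm d.1 d.2 : ℝ) * (E : ℝ) * q)) =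
        l d.1 * l d.2 * F E (Nat.lcm d.1 d.2) := by
      intro d
      rw [hF]
    rw [Finset.sum_congr rfl (fun d _ => h3 d), h2]
    apply Finset.sum_congr rfl
    intro g hg
    apply Finset.sum_congr rfl
    intro k hk
    rw [Finset.mem_Icc] at hg hk
    congr 1
    have h4 := brk_split2 N n hnN (fun u v => α g k E u * α g k E v * F E (g * k ^ 2 * u * v)) (by
      intro u v huv
      rcases huv with h | h
      · rw [hαN g k E u hg.1 hk.1 h]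
        ring
      · rw [hαN g k E v hg.1 hk.1 h]
        ring)
    rw [hY]
    dsimp only at h4 ⊢
    rw [← h4, hα]
  have hY1 : ∀ g ∈ Icc 1 N, ∀ k ∈ Icc 1 N, ∀ i j : ℕ,
      ∑ E ∈ EE, |Y E g k i j| ≤ n * (T ^ (1 - kap r) / (g * k)) := by
    intro g hg k hk i j
    rw [Finset.mem_Icc] at hg hk
    rw [brk_EE n EE (by
      intro E hE
      obtain ⟨h1, _, _, h4⟩ := hEE E hE
      refine ⟨h1, ?_⟩
      exact lt_of_le_of_lt (Nat.le_floor h4) hn1) (fun E => |Y E g k i j|)]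
    calc ∑ e ∈ range n, ∑ E ∈ Ico (2 ^ e) (2 * 2 ^ e) ∩ EE, |Y E g k i j|
        ≤ ∑ e ∈ range n, T ^ (1 - kap r) / (g * k) := by
          apply Finset.sum_le_sum
          intro e _
          have h5 := hblk T hT0' b q ρ g k (2 ^ i) (2 ^ j) (2 ^ e) hb hq hqT hg.1 hk.1 Nat.one_le_two_pow
            Nat.one_le_two_pow Nat.one_le_two_pow (Ico (2 ^ e) (2 * 2 ^ e) ∩ EE) Finset.inter_subset_left
            (by
              intro E hE
              obtain ⟨_, h2, h3, h4⟩ := hEE E (Finset.mem_inter.mp hE).2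
              exact ⟨h2, h3, h4⟩)
            (α g k) (α g k) (fun E u => hαle g k E u) (fun E u => hαle g k E u)
            (by
              intro E hE u hu
              obtain ⟨h6, h7⟩ := hα0 g k E u hu
              obtain ⟨_, h8, h9⟩ := hS _ h6
              refine ⟨?_, h9⟩
              have h10 : Nat.Coprime (g * k * u) Q := Nat.Coprime.coprime_mul_right_right h8
              have h11 : Nat.Coprime (g * k * u) q := Nat.Coprime.coprime_mul_left_right h8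
              have h12 : Nat.Coprime (g * k * u) a := Nat.Coprime.coprime_dvd_right haQ h10
              exact Nat.Coprime.mul_right (Nat.Coprime.mul_right h12 h7) h11)
            (by
              intro E hE u hu
              obtain ⟨h6, h7⟩ := hα0 g k E u hu
              obtain ⟨_, h8, h9⟩ := hS _ h6
              refine ⟨?_, h9⟩
              have h10 : Nat.Coprime (g * k * u) Q := Nat.Coprime.coprime_mul_right_right h8
              have h11 : Nat.Coprime (g * k * u) q := Nat.Coprime.coprime_mul_left_right h8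
              have h12 : Nat.Coprime (g * k * u) a := Nat.Coprime.coprime_dvd_right haQ h10
              exact Nat.Coprime.mul_right (Nat.Coprime.mul_right h12 h7) h11)
          rw [hY, hF]
          exact h5
      _ = n * (T ^ (1 - kap r) / (g * k)) := by
          rw [Finset.sum_const, Finset.card_range, nsmul_eq_mul]
  have hT2 : 0 ≤ T ^ (1 - kap r) := by positivity
  have hstep1 : ∀ E ∈ EE, |∑ d ∈ (S ×ˢ S).filter (fun d => Nat.Coprime (Nat.lcm d.1 d.2) E), l d.1 * l d.2 *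
        (NDE φ T a b q ρ (Nat.lcm d.1 d.2) E - T * (∫ x, φ x) / ((Nat.lcm d.1 d.2 : ℝ) * (E : ℝ) * q))| ≤
      ∑ g ∈ Icc 1 N, ∑ k ∈ Icc 1 N, ∑ i ∈ range n, ∑ j ∈ range n, |Y E g k i j| := by
    intro E hE
    rw [hid E hE]
    refine le_trans (Finset.abs_sum_le_sum_abs _ _) ?_
    apply Finset.sum_le_sum
    intro g _
    refine le_trans (Finset.abs_sum_le_sum_abs _ _) ?_
    apply Finset.sum_le_sum
    intro k _
    rw [abs_mul]
    have h1 : |(ArithmeticFunction.moebius k : ℝ)| ≤ 1 := by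
      have := ArithmeticFunction.abs_moebius_le_one (n := k)
      exact_mod_cast this
    have h2 : |∑ i ∈ range n, ∑ j ∈ range n, Y E g k i j| ≤ ∑ i ∈ range n, ∑ j ∈ range n, |Y E g k i j| := by
      refine le_trans (Finset.abs_sum_le_sum_abs _ _) ?_
      apply Finset.sum_le_sum
      intro i _
      exact Finset.abs_sum_le_sum_abs _ _
    calc |(ArithmeticFunction.moebius k : ℝ)| * |∑ i ∈ range n, ∑ j ∈ range n, Y E g k i j|
        ≤ 1 * ∑ i ∈ range n, ∑ j ∈ range n, |Y E g k i j| :=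
          mul_le_mul h1 h2 (abs_nonneg _) (by norm_num)
      _ = _ := one_mul _
  have hswap : ∑ E ∈ EE, ∑ g ∈ Icc 1 N, ∑ k ∈ Icc 1 N, ∑ i ∈ range n, ∑ j ∈ range n, |Y E g k i j| =
      ∑ g ∈ Icc 1 N, ∑ k ∈ Icc 1 N, ∑ i ∈ range n, ∑ j ∈ range n, ∑ E ∈ EE, |Y E g k i j| := by
    rw [Finset.sum_comm]
    apply Finset.sum_congr rfl
    intro g _
    rw [Finset.sum_comm]
    apply Finset.sum_congr rfl
    intro k _
    rw [Finset.sum_comm]
    apply Finset.sum_congr rfl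
    intro i _
    rw [Finset.sum_comm]
  have hharm := brk_harm N hT1 hNT
  have hharm0 : 0 ≤ ∑ g ∈ Icc 1 N, (1 : ℝ) / (g : ℝ) := Finset.sum_nonneg (fun g _ => by positivity)
  calc _ ≤ ∑ E ∈ EE, ∑ g ∈ Icc 1 N, ∑ k ∈ Icc 1 N, ∑ i ∈ range n, ∑ j ∈ range n, |Y E g k i j| :=
        Finset.sum_le_sum hstep1
    _ = ∑ g ∈ Icc 1 N, ∑ k ∈ Icc 1 N, ∑ i ∈ range n, ∑ j ∈ range n, ∑ E ∈ EE, |Y E g k i j| := hswap
    _ ≤ ∑ g ∈ Icc 1 N, ∑ k ∈ Icc 1 N, ∑ i ∈ range n, ∑ j ∈ range n, (n : ℝ) * (T ^ (1 - kap r) / (g * k)) := by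
        apply Finset.sum_le_sum
        intro g hg
        apply Finset.sum_le_sum
        intro k hk
        apply Finset.sum_le_sum
        intro i _
        apply Finset.sum_le_sum
        intro j _
        exact hY1 g hg k hk i j
    _ = (n : ℝ) ^ 3 * ((∑ g ∈ Icc 1 N, (1 : ℝ) / (g : ℝ)) * (∑ k ∈ Icc 1 N, (1 : ℝ) / (k : ℝ))) * T ^ (1 - kap r) := by
        simp only [Finset.sum_const, Finset.card_range, nsmul_eq_mul]
        rw [Finset.sum_mul_sum, Finset.mul_sum, Finset.sum_mul]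
        apply Finset.sum_congr rfl
        intro g _
        rw [Finset.mul_sum, Finset.sum_mul]
        apply Finset.sum_congr rfl
        intro k _
        rw [div_mul_div_comm]
        ring
    _ ≤ (1 + Real.log T) ^ 3 * ((1 + Real.log T) * (1 + Real.log T)) * T ^ (1 - kap r) := by
        gcongr
    _ = (1 + Real.log T) ^ 5 * T ^ (1 - kap r) := by ring
    _ ≤ T ^ (1 - kap r / 2) := brk_log hκ hT1 hC

end H69EGD
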