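import Pool.Agent.H69.EGD.Defs
import Pool.Agent.H94.WeylC

/-!
# CN0: solutions of `1/v1 + 1/v2 = 1/v3 + 1/v4`

Let `A = v1 + v2`, `B = v1 v2`. `N(v) = 0` means `A v3 v4 = B (v3 + v4)` (all `v_i ≥ 1`), so
`(A v3 - B)(A v4 - B) = B²` in the integers, and `A v3 - B > 0` (since `A v3 v4 = B v3 + B v4 > B v4`). For given `(v1, v2)`,
`A v3 - B` is a divisor of `B²`, and `v3`, then `v4` are determined by it: at most `τ(B²)` possibilities, `B² ≤ (2V)^4`.
Divisor bound: `Pool.Agent.H94.Weyl.card_divisors_le` (any exponent); `(2V)^(4 ε/4) ≤ 2^ε V^ε`.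
-/

open Finset H69LB EG

namespace H69EGD

theorem Cn0_key {a b c d : ℕ} (ha : 1 ≤ a) (hb : 1 ≤ b) (hc : 1 ≤ c) (_hd : 1 ≤ d)
    (h : N4 (a, b, c, d) = 0) :
    a * b < (a + b) * c ∧ ((a + b) * c - a * b) * d = a * b * c ∧
      ((a + b) * c - a * b) ∣ (a * b) ^ 2 := by
  have h1 : (a + b) * c * d = a * b * d + a * b * c := by
    have h2 : ((a : ℤ) + b) * c * d = a * b * d + a * b * c := by
      unfold N4 at h
      simp only at h
      linear_combination h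
    exact_mod_cast h2
  have hlt : a * b < (a + b) * c := by
    have h3 : a * b * d < (a + b) * c * d := by
      rw [h1]
      have : 0 < a * b * c := by positivity
      omega
    exact lt_of_mul_lt_mul_right h3 (Nat.zero_le d)
  obtain ⟨e, he⟩ := Nat.exists_eq_add_of_lt hlt
  have he' : (a + b) * c - a * b = e + 1 := by omega
  rw [he']
  have h4 : (e + 1) * d = a * b * c := by
    have h5 : (a * b + e + 1) * d = a * b * d + a * b * c := by rw [← he]; exact h1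
    have h6 : (a * b + e + 1) * d = a * b * d + (e + 1) * d := by ring
    omega
  refine ⟨hlt, h4, ?_⟩
  have hdd : a * b ≤ (a + b) * d := by
    have h7 : a * b * c ≤ (a + b) * d * c := by
      have h8 : (a + b) * d * c = (a + b) * c * d := by ring
      rw [h8, h1]
      omega
    exact le_of_mul_le_mul_right h7 (by omega)
  obtain ⟨g, hg⟩ := Nat.exists_eq_add_of_le hdd
  refine ⟨g, ?_⟩
  have h9 : ((a : ℤ) * b) ^ 2 = (e + 1) * g := by
    have e1 : ((a : ℤ) + b) * c = a * b + e + 1 := by exact_mod_cast he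
    have e2 : ((a : ℤ) + b) * d = a * b + g := by exact_mod_cast hg
    have e3 : ((e : ℤ) + 1) * d = a * b * c := by exact_mod_cast h4
    have e4 : ((e : ℤ) + 1) * (a * b + g) = ((a : ℤ) + b) * (a * b * c) := by
      rw [← e2, ← e3]; ring
    have e5 : ((a : ℤ) + b) * (a * b * c) = a * b * (a * b + e + 1) := by rw [← e1]; ring
    linear_combination -e4 - e5
  exact_mod_cast h9

theorem cn0 (ε : ℝ) (hε : 0 < ε) : ∃ C : ℝ, 0 < C ∧ ∀ V : ℕ, 1 ≤ V →
    (((box V).filter (fun v => N4 v = 0)).card : ℝ) ≤ C * (V : ℝ) ^ ε * (V : ℝ) ^ 2 := by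
  classical
  obtain ⟨C, hC1, hC⟩ := Pool.Agent.H94.Weyl.card_divisors_le (ε / 4) (by positivity)
  refine ⟨C * (16 : ℝ) ^ (ε / 4), by positivity, ?_⟩
  intro V hV
  have hV0 : (0 : ℝ) ≤ V := Nat.cast_nonneg V
  obtain ⟨F, hF⟩ : ∃ F, F = (box V).filter (fun v => N4 v = 0) := ⟨_, rfl⟩
  rw [← hF]
  have hmem : ∀ v ∈ F, (V ≤ v.1 ∧ v.1 < 2 * V) ∧ (V ≤ v.2.1 ∧ v.2.1 < 2 * V) ∧
      (V ≤ v.2.2.1 ∧ v.2.2.1 < 2 * V) ∧ (V ≤ v.2.2.2 ∧ v.2.2.2 < 2 * V) ∧ N4 v = 0 := by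
    intro v hv
    rw [hF, Finset.mem_filter] at hv
    obtain ⟨hv1, hv2⟩ := hv
    unfold box at hv1
    rw [Finset.mem_product, Finset.mem_product, Finset.mem_product, Finset.mem_Ico,
      Finset.mem_Ico, Finset.mem_Ico, Finset.mem_Ico] at hv1
    exact ⟨hv1.1, hv1.2.1, hv1.2.2.1, hv1.2.2.2, hv2⟩
  have hmaps : ∀ v ∈ F, (v.1, v.2.1) ∈ Ico V (2 * V) ×ˢ Ico V (2 * V) := by
    intro v hv
    obtain ⟨h1, h2, -⟩ := hmem v hv
    rw [Finset.mem_product, Finset.mem_Ico, Finset.mem_Ico]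
    exact ⟨h1, h2⟩
  have hcard := Finset.card_eq_sum_card_fiberwise (f := fun v : ℕ × ℕ × ℕ × ℕ => (v.1, v.2.1))
    (s := F) (t := Ico V (2 * V) ×ˢ Ico V (2 * V)) (fun v hv => hmaps v hv)
  have hfib : ∀ p ∈ Ico V (2 * V) ×ˢ Ico V (2 * V),
      ((F.filter (fun v => (v.1, v.2.1) = p)).card : ℝ) ≤
        C * (16 : ℝ) ^ (ε / 4) * (V : ℝ) ^ ε := by
    rintro ⟨a, b⟩ hp
    rw [Finset.mem_product, Finset.mem_Ico, Finset.mem_Ico] at hp
    obtain ⟨⟨ha1, ha2⟩, hb1, hb2⟩ := hp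
    simp only at ha1 ha2 hb1 hb2
    have hab : 0 < a * b := Nat.mul_pos (by omega) (by omega)
    have hle : (F.filter (fun v => (v.1, v.2.1) = (a, b))).card ≤ ((a * b) ^ 2).divisors.card := by
      refine Finset.card_le_card_of_injOn (fun v => (a + b) * v.2.2.1 - a * b) ?_ ?_
      · rintro ⟨a', b', c, d⟩ hv
        rw [Finset.mem_coe, Finset.mem_filter] at hv
        obtain ⟨hv1, hv2⟩ := hv
        obtain ⟨-, -, hc, hd, hN⟩ := hmem _ hv1
        simp only [Prod.mk.injEq] at hv2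
        obtain ⟨rfl, rfl⟩ := hv2
        simp only at hc hd
        have := (Cn0_key (by omega) (by omega) (by omega) (by omega) hN).2.2
        rw [Finset.mem_coe, Nat.mem_divisors]
        exact ⟨this, (pow_pos hab 2).ne'⟩
      · rintro ⟨a1, b1, c1, d1⟩ hv ⟨a2, b2, c2, d2⟩ hw hvw
        rw [Finset.mem_coe, Finset.mem_filter] at hv hw
        obtain ⟨hv1, hv2⟩ := hv
        obtain ⟨hw1, hw2⟩ := hw
        obtain ⟨-, -, hc1, hd1, hN1⟩ := hmem _ hv1
        obtain ⟨-, -, hc2, hd2, hN2⟩ := hmem _ hw1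
        simp only [Prod.mk.injEq] at hv2 hw2
        obtain ⟨rfl, rfl⟩ := hv2
        obtain ⟨rfl, rfl⟩ := hw2
        simp only at hc1 hd1 hc2 hd2 hvw
        obtain ⟨k1, k2, -⟩ := Cn0_key (by omega) (by omega) (by omega) (by omega) hN1
        obtain ⟨l1, l2, -⟩ := Cn0_key (by omega) (by omega) (by omega) (by omega) hN2
        have e1 : (a2 + b2) * c1 = (a2 + b2) * c2 := by omega
        have e2 : c1 = c2 := Nat.eq_of_mul_eq_mul_left (by omega) e1
        subst e2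
        have e3 : d1 = d2 := by
          have e4 : ((a2 + b2) * c1 - a2 * b2) * d1 = ((a2 + b2) * c1 - a2 * b2) * d2 := by
            rw [k2, l2]
          exact Nat.eq_of_mul_eq_mul_left (by omega) e4
        rw [e3]
    have hdiv := hC ((a * b) ^ 2) (pow_pos hab 2)
    have hab2 : (((a * b) ^ 2 : ℕ) : ℝ) ≤ 16 * (V : ℝ) ^ 4 := by
      have h1 : a * b ≤ (2 * V) * (2 * V) := Nat.mul_le_mul (by omega) (by omega)
      have h2 : (a * b) ^ 2 ≤ ((2 * V) * (2 * V)) ^ 2 := Nat.pow_le_pow_left h1 2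
      have h3 : ((2 * V) * (2 * V)) ^ 2 = 16 * V ^ 4 := by ring
      rw [h3] at h2
      exact_mod_cast h2
    have hpow : (((a * b) ^ 2 : ℕ) : ℝ) ^ (ε / 4) ≤ (16 : ℝ) ^ (ε / 4) * (V : ℝ) ^ ε := by
      refine (Real.rpow_le_rpow (Nat.cast_nonneg _) hab2 (by positivity)).trans (le_of_eq ?_)
      rw [Real.mul_rpow (by norm_num) (by positivity)]
      congr 1
      rw [← Real.rpow_natCast, ← Real.rpow_mul hV0]
      congr 1
      push_cast
      ring
    calc ((F.filter (fun v => (v.1, v.2.1) = (a, b))).card : ℝ)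
        ≤ (((a * b) ^ 2).divisors.card : ℝ) := by exact_mod_cast hle
      _ ≤ C * (((a * b) ^ 2 : ℕ) : ℝ) ^ (ε / 4) := hdiv
      _ ≤ C * ((16 : ℝ) ^ (ε / 4) * (V : ℝ) ^ ε) :=
          mul_le_mul_of_nonneg_left hpow (by linarith)
      _ = C * (16 : ℝ) ^ (ε / 4) * (V : ℝ) ^ ε := by ring
  rw [hcard]
  push_cast
  refine (Finset.sum_le_card_nsmul _ _ _ hfib).trans (le_of_eq ?_)
  rw [Finset.card_product, Nat.card_Ico]
  have : 2 * V - V = V := by omega
  rw [this, nsmul_eq_mul]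
  push_cast
  ring

end H69EGD
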