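import Pool.Agent.H69.EGD.Cn0

/-!
# CN1: the fourth moment count, averaged over the modulus

Interchange the sums: `∑_v #{E ∈ [E0, 2E0) : E ∣ N(v)}`. For `N(v) ≠ 0` the inner count is at most `τ(|N(v)|)`, with
`|N(v)| ≤ 2 (2V)^3 = 16 V³`; divisor bound `Pool.Agent.H94.Weyl.card_divisors_le` with exponent `ε/3`. For `N(v) = 0` it is `E0`;
use `cn0`.
-/

open Finset H69LB EG

namespace H69EGD

theorem cn1_size {V : ℕ} {v : ℕ × ℕ × ℕ × ℕ} (hv : v ∈ box V) : (N4 v).natAbs ≤ 16 * V ^ 3 := by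
  unfold box at hv
  simp only [mem_product, mem_Ico] at hv
  obtain ⟨⟨a1, a2⟩, ⟨b1, b2⟩, ⟨c1, c2⟩, ⟨d1, d2⟩⟩ := hv
  have key : ∀ x y z : ℕ, x < 2 * V → y < 2 * V → z < 2 * V → x * y * z ≤ 8 * V ^ 3 := by
    intro x y z hx hy hz
    calc x * y * z ≤ (2 * V) * (2 * V) * (2 * V) := Nat.mul_le_mul (Nat.mul_le_mul hx.le hy.le) hz.le
      _ = 8 * V ^ 3 := by ring
  have h1 := key _ _ _ b2 c2 d2
  have h2 := key _ _ _ a2 c2 d2
  have h3 := key _ _ _ a2 b2 d2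
  have h4 := key _ _ _ a2 b2 c2
  unfold N4
  zify at h1 h2 h3 h4 ⊢
  have p1 : (0 : ℤ) ≤ (v.2.1 : ℤ) * v.2.2.1 * v.2.2.2 := by positivity
  have p2 : (0 : ℤ) ≤ (v.1 : ℤ) * v.2.2.1 * v.2.2.2 := by positivity
  have p3 : (0 : ℤ) ≤ (v.1 : ℤ) * v.2.1 * v.2.2.2 := by positivity
  have p4 : (0 : ℤ) ≤ (v.1 : ℤ) * v.2.1 * v.2.2.1 := by positivity
  rw [abs_le]
  constructor <;> linarith

theorem cn1_swap (V E0 : ℕ) :
    ∑ E ∈ Ico E0 (2 * E0), N4c V E = ∑ v ∈ box V, ((Ico E0 (2 * E0)).filter (fun E : ℕ => (E : ℤ) ∣ N4 v)).card := by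
  unfold N4c
  simp only [Finset.card_filter]
  exact Finset.sum_comm

theorem cn1_inner {E0 : ℕ} (v : ℕ × ℕ × ℕ × ℕ) (h0 : N4 v ≠ 0) :
    ((Ico E0 (2 * E0)).filter (fun E : ℕ => (E : ℤ) ∣ N4 v)).card ≤ ((N4 v).natAbs.divisors).card := by
  apply Finset.card_le_card
  intro E hE
  rw [Finset.mem_filter, Finset.mem_Ico] at hE
  rw [Nat.mem_divisors]
  refine ⟨?_, by simpa using h0⟩
  exact Int.natCast_dvd.1 hE.2

theorem cn1 (ε : ℝ) (hε : 0 < ε) : ∃ C : ℝ, 0 < C ∧ ∀ E0 V : ℕ, 1 ≤ E0 → 1 ≤ V →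
    ∑ E ∈ Ico E0 (2 * E0), (N4c V E : ℝ) ≤ C * (V : ℝ) ^ ε * ((V : ℝ) ^ 4 + E0 * (V : ℝ) ^ 2) := by
  obtain ⟨C1, hC1, h1⟩ := cn0 ε hε
  obtain ⟨C2, hC2, h2⟩ := Pool.Agent.H94.Weyl.card_divisors_le (ε / 3) (by positivity)
  have hC2' : 0 < C2 := by linarith
  refine ⟨C1 + C2 * (16 : ℝ) ^ (ε / 3), by positivity, fun E0 V hE0 hV => ?_⟩
  have hV0 : (0 : ℝ) < V := by exact_mod_cast hV
  have hcard : (box V).card = V ^ 4 := by
    unfold box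
    rw [Finset.card_product, Finset.card_product, Finset.card_product, Nat.card_Ico,
      show 2 * V - V = V by omega]
    ring
  have hD : ∀ v ∈ box V, (((Ico E0 (2 * E0)).filter (fun E : ℕ => (E : ℤ) ∣ N4 v)).card : ℝ) ≤
      (if N4 v = 0 then (E0 : ℝ) else 0) + C2 * (16 : ℝ) ^ (ε / 3) * (V : ℝ) ^ ε := by
    intro v hv
    by_cases h0 : N4 v = 0
    · rw [if_pos h0]
      have h3 : ((Ico E0 (2 * E0)).filter (fun E : ℕ => (E : ℤ) ∣ N4 v)).card ≤ E0 := by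
        refine (Finset.card_filter_le _ _).trans ?_
        rw [Nat.card_Ico]
        omega
      have h4 : (((Ico E0 (2 * E0)).filter (fun E : ℕ => (E : ℤ) ∣ N4 v)).card : ℝ) ≤ E0 := by exact_mod_cast h3
      have h5 : 0 ≤ C2 * (16 : ℝ) ^ (ε / 3) * (V : ℝ) ^ ε := by positivity
      linarith
    · rw [if_neg h0, zero_add]
      have h3 : (((Ico E0 (2 * E0)).filter (fun E : ℕ => (E : ℤ) ∣ N4 v)).card : ℝ) ≤
          ((N4 v).natAbs.divisors).card := by exact_mod_cast cn1_inner v h0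
      have h4 := h2 (N4 v).natAbs (Nat.one_le_iff_ne_zero.2 (by simpa using h0))
      have h5 : (((N4 v).natAbs : ℕ) : ℝ) ≤ 16 * (V : ℝ) ^ 3 := by exact_mod_cast cn1_size hv
      have h6 : (((N4 v).natAbs : ℕ) : ℝ) ^ (ε / 3) ≤ (16 : ℝ) ^ (ε / 3) * (V : ℝ) ^ ε := by
        refine (Real.rpow_le_rpow (by positivity) h5 (by positivity)).trans (le_of_eq ?_)
        rw [Real.mul_rpow (by norm_num) (by positivity), ← Real.rpow_natCast, ← Real.rpow_mul hV0.le]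
        congr 2
        push_cast
        ring
      calc _ ≤ _ := h3
        _ ≤ _ := h4
        _ ≤ C2 * ((16 : ℝ) ^ (ε / 3) * (V : ℝ) ^ ε) := mul_le_mul_of_nonneg_left h6 hC2'.le
        _ = _ := by ring
  have hS : ∑ E ∈ Ico E0 (2 * E0), (N4c V E : ℝ) =
      ∑ v ∈ box V, (((Ico E0 (2 * E0)).filter (fun E : ℕ => (E : ℤ) ∣ N4 v)).card : ℝ) := by
    exact_mod_cast cn1_swap V E0
  rw [hS]
  refine (Finset.sum_le_sum hD).trans ?_
  rw [Finset.sum_add_distrib, ← Finset.sum_filter, Finset.sum_const, Finset.sum_const, hcard, nsmul_eq_mul,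
    nsmul_eq_mul]
  have h7 := h1 V hV
  have hE : (0 : ℝ) ≤ E0 := Nat.cast_nonneg _
  have h8 : (((box V).filter (fun v => N4 v = 0)).card : ℝ) * E0 ≤ C1 * (V : ℝ) ^ ε * (V : ℝ) ^ 2 * E0 :=
    mul_le_mul_of_nonneg_right h7 hE
  have hK : 0 < C2 * (16 : ℝ) ^ (ε / 3) := by positivity
  set K := C2 * (16 : ℝ) ^ (ε / 3) with hKdef
  have hVe : 0 < (V : ℝ) ^ ε := by positivity
  push_cast
  have h9 : 0 ≤ K * (V : ℝ) ^ ε * (E0 * (V : ℝ) ^ 2) := by positivity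
  have h10 : 0 ≤ C1 * (V : ℝ) ^ ε * (V : ℝ) ^ 4 := by positivity
  nlinarith

end H69EGD
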