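import Pool.Agent.H6.EG.Defs

/-!
# MP_0e3417, dispersion part: shared definitions and simple facts

Overview: section 4 of /team-store/H6_0e3417.md. Target: `EG.disp`.
-/

open Finset H69LB EG
open scoped FourierTransform

namespace EG

/-- `∑_t φ(t/T)` over `t ≡ ρ mod q` with `D ∣ a t + 1` and `E ∣ b t + 1` -/
noncomputable def NDE (φ : ℝ → ℝ) (T : ℝ) (a b q ρ D E : ℕ) : ℝ :=
  ∑ t ∈ (range (⌊2 * T⌋₊ + 1)).filter (fun t => t ≡ ρ [MOD q] ∧ D ∣ a * t + 1 ∧ E ∣ b * t + 1), φ ((t : ℝ) / T)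

end EG

namespace H69EGD

/-- the Fourier transform of the weight -/
noncomputable def ph (φ : ℝ → ℝ) (y : ℝ) : ℂ := 𝓕 (fun x : ℝ => (φ x : ℂ)) y

/-- `e(x/m)` for a residue class `x` modulo `m` -/
noncomputable def chi (m : ℕ) (x : ZMod m) : ℂ := ee ((x.val : ℝ) / m)

/-- `N(v) = v2 v3 v4 + v1 v3 v4 - v1 v2 v4 - v1 v2 v3`, so that `1/v1 + 1/v2 = 1/v3 + 1/v4` means `N(v) = 0` -/
def N4 (v : ℕ × ℕ × ℕ × ℕ) : ℤ :=
  (v.2.1 : ℤ) * v.2.2.1 * v.2.2.2 + (v.1 : ℤ) * v.2.2.1 * v.2.2.2 - (v.1 : ℤ) * v.2.1 * v.2.2.2 -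
    (v.1 : ℤ) * v.2.1 * v.2.2.1

/-- quadruples with entries in `[V, 2V)` -/
def box (V : ℕ) : Finset (ℕ × ℕ × ℕ × ℕ) :=
  Ico V (2 * V) ×ˢ Ico V (2 * V) ×ˢ Ico V (2 * V) ×ˢ Ico V (2 * V)

/-- the number of quadruples `v` in the box with `m ∣ N(v)` -/
def N4c (V m : ℕ) : ℕ := ((box V).filter (fun v => (m : ℤ) ∣ N4 v)).card

/-- the pairs `(h, u)` with `h ∈ [H, 2H)`, `u ∈ [U, 2U)`, `u` coprime to `m` -/
def Pr (H U m : ℕ) : Finset (ℕ × ℕ) := Ico H (2 * H) ×ˢ (Ico U (2 * U)).filter (fun u => Nat.Coprime u m)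

/-- pairs of pairs with `h f/u = h' f/u'` modulo `m` -/
def Pr2 (H U m f : ℕ) : Finset ((ℕ × ℕ) × (ℕ × ℕ)) :=
  (Pr H U m ×ˢ Pr H U m).filter (fun p =>
    (p.1.1 : ZMod m) * (f : ZMod m) * (p.1.2 : ZMod m)⁻¹ = (p.2.1 : ZMod m) * (f : ZMod m) * (p.2.2 : ZMod m)⁻¹)

theorem ee_zero : ee 0 = 1 := by simp [ee]

theorem ee_add (s t : ℝ) : ee (s + t) = ee s * ee t := by
  unfold ee
  rw [← Complex.exp_add]
  congr 1
  push_cast
  ring

theorem ee_neg_mul (t : ℝ) : ee (-t) * ee t = 1 := by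
  rw [← ee_add]; simp [ee]

theorem norm_ee (t : ℝ) : ‖ee t‖ = 1 := by
  unfold ee
  rw [Complex.norm_exp]
  simp

theorem ee_int (n : ℤ) : ee n = 1 := by
  unfold ee
  rw [Complex.exp_eq_one_iff]
  exact ⟨n, by push_cast; ring⟩

theorem ee_add_int (t : ℝ) (n : ℤ) : ee (t + n) = ee t := by
  rw [ee_add, ee_int, mul_one]

theorem conj_ee (t : ℝ) : (starRingEnd ℂ) (ee t) = ee (-t) := by
  unfold ee
  rw [← Complex.exp_conj]
  congr 1
  have h2 : (starRingEnd ℂ) 2 = 2 := Complex.conj_ofNat 2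
  simp [Complex.conj_ofReal, h2]

theorem ee_congr {s t : ℝ} {n : ℤ} (h : s = t + n) : ee s = ee t := by
  rw [h, ee_add_int]

theorem norm_chi (m : ℕ) (x : ZMod m) : ‖chi m x‖ = 1 := norm_ee _

theorem chi_intCast {m : ℕ} (hm : 1 ≤ m) (n : ℤ) : chi m (n : ZMod m) = ee ((n : ℝ) / m) := by
  haveI : NeZero m := ⟨by omega⟩
  unfold chi
  have h1 : (((n : ZMod m).val : ℕ) : ℤ) = n % m := by
    rw [ZMod.val_intCast]
  have h2 : (((n : ZMod m).val : ℕ) : ℤ) = n - m * (n / m) := by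
    rw [h1, Int.emod_def]
  have h3 : ((((n : ZMod m).val : ℕ)) : ℝ) = (n : ℝ) - m * ((n / m : ℤ) : ℝ) := by
    have := congrArg (fun z : ℤ => (z : ℝ)) h2
    push_cast at this ⊢
    exact_mod_cast this
  have hm' : (m : ℝ) ≠ 0 := by positivity
  rw [h3]
  refine (ee_congr (n := n / m) ?_).symm
  field_simp
  ring

theorem chi_natCast {m : ℕ} (hm : 1 ≤ m) (n : ℕ) : chi m (n : ZMod m) = ee ((n : ℝ) / m) := by
  have := chi_intCast hm (n : ℤ)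
  simpa using this

theorem exists_int {m : ℕ} (hm : 1 ≤ m) (x : ZMod m) : ∃ n : ℤ, (n : ZMod m) = x := by
  haveI : NeZero m := ⟨by omega⟩
  exact ⟨x.val, by simp⟩

theorem chi_add {m : ℕ} (hm : 1 ≤ m) (x y : ZMod m) : chi m (x + y) = chi m x * chi m y := by
  obtain ⟨n, rfl⟩ := exists_int hm x
  obtain ⟨k, rfl⟩ := exists_int hm y
  rw [← Int.cast_add, chi_intCast hm, chi_intCast hm, chi_intCast hm, ← ee_add]
  congr 1
  push_cast
  ring

theorem chi_zero {m : ℕ} : chi m 0 = 1 := by simp [chi, ee]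

theorem conj_chi {m : ℕ} (hm : 1 ≤ m) (x : ZMod m) : (starRingEnd ℂ) (chi m x) = chi m (-x) := by
  obtain ⟨n, rfl⟩ := exists_int hm x
  rw [← Int.cast_neg, chi_intCast hm, chi_intCast hm, conj_ee]
  congr 1
  push_cast
  ring

theorem chi_eq {m : ℕ} [NeZero m] (x : ZMod m) : chi m x = ZMod.stdAddChar x := by
  obtain ⟨n, rfl⟩ := exists_int (Nat.pos_of_ne_zero (NeZero.ne m)) x
  rw [chi_intCast (Nat.pos_of_ne_zero (NeZero.ne m)), ZMod.stdAddChar_coe]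
  unfold ee
  congr 1
  push_cast
  ring

/-- orthogonality -/
theorem sum_chi {m : ℕ} [NeZero m] (x : ZMod m) :
    ∑ c : ZMod m, chi m (c * x) = if x = 0 then (m : ℂ) else 0 := by
  have h := AddChar.sum_mulShift (R := ZMod m) (R' := ℂ) x (ψ := ZMod.stdAddChar) (ZMod.isPrimitive_stdAddChar m)
  simp only [chi_eq]
  rw [h]
  split_ifs <;> simp [ZMod.card]

end H69EGD
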