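import Pool.Agent.H69.EGD.Brk
import Pool.Agent.H94.WeylC

/-!
# FIN: the dispersion estimate

Interchange the sums over `d` and `e`, take absolute values outside the sum over `d`, `|l' l'| ≤ 1`, and collect the pairs `e` with
the same `E = lcm(e1, e2)`: there are at most `τ(E)² ≤ C T^(κ/8)` of them (`e1, e2 ∣ E ≤ T^(2r) ≤ T`; divisor bound
`Pool.Agent.H94.Weyl.card_divisors_le`, exponent `κ/16`). `E` is coprime to `Q q` (both `e_i` are), so to `a b q`; a prime `p ∣ E` with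
`p ∣ a - b` would divide `Q`. So `brk` with `EE` the image of `S ×ˢ S` under `lcm` gives the bound
`C T^(κ/8) T^(1-κ/2) ≤ T^(1-κ/4)`. `δ = κ/4`, `κ = kap r`.
-/

open Finset H69LB EG

namespace H69EGD

theorem fin_cnt (S : Finset ℕ) (E : ℕ) (hE : E ≠ 0) :
    ((S ×ˢ S).filter (fun e => Nat.lcm e.1 e.2 = E)).card ≤ E.divisors.card ^ 2 := by
  have h : (S ×ˢ S).filter (fun e => Nat.lcm e.1 e.2 = E) ⊆ E.divisors ×ˢ E.divisors := by
    intro e he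
    rw [Finset.mem_filter] at he
    rw [Finset.mem_product, Nat.mem_divisors, Nat.mem_divisors]
    refine ⟨⟨?_, hE⟩, ⟨?_, hE⟩⟩
    · rw [← he.2]; exact Nat.dvd_lcm_left _ _
    · rw [← he.2]; exact Nat.dvd_lcm_right _ _
  have h2 := Finset.card_le_card h
  rw [Finset.card_product] at h2
  rw [pow_two]
  exact h2

theorem fin_disp {η : ℝ} {φ : ℝ → ℝ} (hφ : Wt η φ) {r : ℝ} (hr0 : 0 < r) (hr : r < 3 / 11) :
    ∃ δ : ℝ, 0 < δ ∧ ∀ Q a b : ℕ, 1 ≤ a → 1 ≤ b → a ≠ b → a ∣ Q → b ∣ Q →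
      (∀ p : ℕ, p.Prime → (p : ℤ) ∣ (a : ℤ) - b → p ∣ Q) → ∃ T0 : ℝ, ∀ T, T0 ≤ T →
      ∀ q ρ : ℕ, 1 ≤ q → (q : ℝ) ≤ T ^ δ → Nat.Coprime q Q →
      ∀ S : Finset ℕ, (∀ d ∈ S, Squarefree d ∧ Nat.Coprime d (Q * q) ∧ (d : ℝ) ≤ T ^ r) →
      ∀ l l' : ℕ → ℝ, (∀ d, |l d| ≤ 1) → (∀ d, |l' d| ≤ 1) →
        |∑ d ∈ S ×ˢ S, ∑ e ∈ (S ×ˢ S).filter (fun e => Nat.Coprime (Nat.lcm d.1 d.2) (Nat.lcm e.1 e.2)),
          l d.1 * l d.2 * (l' e.1 * l' e.2) *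
            (NDE φ T a b q ρ (Nat.lcm d.1 d.2) (Nat.lcm e.1 e.2) -
              T * (∫ x, φ x) / ((Nat.lcm d.1 d.2 : ℝ) * (Nat.lcm e.1 e.2 : ℝ) * q))| ≤ T ^ (1 - δ) := by
  classical
  set κ : ℝ := kap r with hκdef
  have hκ : 0 < κ := by
    rw [hκdef, kap]
    have : 0 < 3 - 11 * r := by linarith
    positivity
  refine ⟨κ / 4, by positivity, ?_⟩
  intro Q a b ha hb hab haQ hbQ hpQ
  obtain ⟨T0, hT01, hbrk⟩ := brk hφ hr0 hr Q a ha haQ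
  obtain ⟨C, hC1, hdiv⟩ := Pool.Agent.H94.Weyl.card_divisors_le (κ / 16) (by positivity)
  refine ⟨max T0 ((C ^ 2) ^ (8 / κ)), ?_⟩
  intro T hT q ρ hq hqT hqQ S hS l l' hl hl'
  have hT0 : T0 ≤ T := (le_max_left _ _).trans hT
  have hTC : (C ^ 2) ^ (8 / κ) ≤ T := (le_max_right _ _).trans hT
  have hT1 : 1 ≤ T := hT01.trans hT0
  have hTp : 0 < T := by linarith
  have hS1 : ∀ d ∈ S, 1 ≤ d ∧ Nat.Coprime d (Q * q) ∧ (d : ℝ) ≤ T ^ r := by
    intro d hd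
    obtain ⟨h1, h2, h3⟩ := hS d hd
    exact ⟨Nat.pos_of_ne_zero h1.ne_zero, h2, h3⟩
  set EE : Finset ℕ := (S ×ˢ S).image (fun e => Nat.lcm e.1 e.2) with hEE
  have hEEp : ∀ E ∈ EE, 1 ≤ E ∧ Nat.Coprime E (a * b * q) ∧
        (∀ p : ℕ, p.Prime → p ∣ E → ¬ (p : ℤ) ∣ (a : ℤ) - b) ∧ (E : ℝ) ≤ T ^ (2 * r) := by
    intro E hE
    rw [hEE, Finset.mem_image] at hE
    obtain ⟨e, he, rfl⟩ := hE
    rw [Finset.mem_product] at he
    obtain ⟨h11, h12, h13⟩ := hS1 _ he.1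
    obtain ⟨h21, h22, h23⟩ := hS1 _ he.2
    have hprod : Nat.Coprime (e.1 * e.2) (Q * q) := Nat.Coprime.mul_left h12 h22
    have hdvd : Nat.lcm e.1 e.2 ∣ e.1 * e.2 := Nat.lcm_dvd_mul _ _
    have hco : Nat.Coprime (Nat.lcm e.1 e.2) (Q * q) := hprod.coprime_dvd_left hdvd
    have hcoQ : Nat.Coprime (Nat.lcm e.1 e.2) Q := Nat.Coprime.coprime_mul_right_right hco
    have hcoq : Nat.Coprime (Nat.lcm e.1 e.2) q := Nat.Coprime.coprime_mul_left_right hco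
    refine ⟨Nat.lcm_pos h11 h21, ?_, ?_, ?_⟩
    · exact Nat.Coprime.mul_right (Nat.Coprime.mul_right (hcoQ.coprime_dvd_right haQ) (hcoQ.coprime_dvd_right hbQ)) hcoq
    · intro p hp hpE hpab
      exact Nat.not_coprime_of_dvd_of_dvd hp.one_lt hpE (hpQ p hp hpab) hcoQ
    · have h3 : Nat.lcm e.1 e.2 ≤ e.1 * e.2 := Nat.le_of_dvd (Nat.mul_pos h11 h21) hdvd
      have h4 : ((Nat.lcm e.1 e.2 : ℕ) : ℝ) ≤ (e.1 : ℝ) * e.2 := by exact_mod_cast h3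
      have h5 : (e.1 : ℝ) * e.2 ≤ T ^ r * T ^ r := mul_le_mul h13 h23 (Nat.cast_nonneg _) (by positivity)
      have h6 : T ^ r * T ^ r = T ^ (2 * r) := by
        rw [← Real.rpow_add hTp]
        congr 1
        ring
      linarith
  have hqT2 : (q : ℝ) ≤ T ^ kap r := by
    refine hqT.trans ?_
    apply Real.rpow_le_rpow_of_exponent_le hT1
    rw [← hκdef]
    linarith
  have hB := hbrk T hT0 b q ρ hb hq hqT2 EE hEEp S hS1 l hl
  set G : ℕ → ℝ := fun E => ∑ d ∈ (S ×ˢ S).filter (fun d => Nat.Coprime (Nat.lcm d.1 d.2) E), l d.1 * l d.2 *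
        (NDE φ T a b q ρ (Nat.lcm d.1 d.2) E - T * (∫ x, φ x) / ((Nat.lcm d.1 d.2 : ℝ) * (E : ℝ) * q)) with hG
  have hB' : ∑ E ∈ EE, |G E| ≤ T ^ (1 - κ / 2) := hB
  have hswap : ∑ d ∈ S ×ˢ S, ∑ e ∈ (S ×ˢ S).filter (fun e => Nat.Coprime (Nat.lcm d.1 d.2) (Nat.lcm e.1 e.2)),
          l d.1 * l d.2 * (l' e.1 * l' e.2) *
            (NDE φ T a b q ρ (Nat.lcm d.1 d.2) (Nat.lcm e.1 e.2) -
              T * (∫ x, φ x) / ((Nat.lcm d.1 d.2 : ℝ) * (Nat.lcm e.1 e.2 : ℝ) * q))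
      = ∑ e ∈ S ×ˢ S, (l' e.1 * l' e.2) * G (Nat.lcm e.1 e.2) := by
    rw [Finset.sum_comm' (t' := S ×ˢ S)
      (s' := fun e => (S ×ˢ S).filter (fun d => Nat.Coprime (Nat.lcm d.1 d.2) (Nat.lcm e.1 e.2)))]
    · apply Finset.sum_congr rfl
      intro e _
      rw [hG, Finset.mul_sum]
      apply Finset.sum_congr rfl
      intro d _
      ring
    · intro d e
      simp only [Finset.mem_filter]
      tauto
  rw [hswap]
  have h1 : |∑ e ∈ S ×ˢ S, (l' e.1 * l' e.2) * G (Nat.lcm e.1 e.2)| ≤ ∑ e ∈ S ×ˢ S, |G (Nat.lcm e.1 e.2)| := by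
    refine (Finset.abs_sum_le_sum_abs _ _).trans ?_
    apply Finset.sum_le_sum
    intro e _
    rw [abs_mul, abs_mul]
    have h2 : |l' e.1| * |l' e.2| ≤ 1 := by
      have := mul_le_mul (hl' e.1) (hl' e.2) (abs_nonneg _) zero_le_one
      linarith
    have h3 := mul_le_mul_of_nonneg_right h2 (abs_nonneg (G (Nat.lcm e.1 e.2)))
    linarith
  refine h1.trans ?_
  have h2 : ∑ e ∈ S ×ˢ S, |G (Nat.lcm e.1 e.2)|
      = ∑ E ∈ EE, ∑ e ∈ (S ×ˢ S).filter (fun e => Nat.lcm e.1 e.2 = E), |G (Nat.lcm e.1 e.2)| :=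
    (Finset.sum_fiberwise_of_maps_to (fun e he => Finset.mem_image_of_mem _ he) _).symm
  rw [h2]
  have hTT : ∀ E ∈ EE, (((S ×ˢ S).filter (fun e => Nat.lcm e.1 e.2 = E)).card : ℝ) ≤ C ^ 2 * T ^ (κ / 8) := by
    intro E hE
    obtain ⟨hE1, _, _, hET⟩ := hEEp E hE
    have h3 := fin_cnt S E (by omega)
    have h4 : (((S ×ˢ S).filter (fun e => Nat.lcm e.1 e.2 = E)).card : ℝ) ≤ (E.divisors.card : ℝ) ^ 2 := by
      exact_mod_cast h3
    have h5 : (E : ℝ) ≤ T := by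
      refine hET.trans ?_
      calc T ^ (2 * r) ≤ T ^ (1 : ℝ) := by
            apply Real.rpow_le_rpow_of_exponent_le hT1
            linarith
        _ = T := Real.rpow_one T
    have h6 : (E.divisors.card : ℝ) ≤ C * T ^ (κ / 16) := by
      refine (hdiv E hE1).trans ?_
      apply mul_le_mul_of_nonneg_left _ (by linarith)
      exact Real.rpow_le_rpow (Nat.cast_nonneg _) h5 (by positivity)
    calc (((S ×ˢ S).filter (fun e => Nat.lcm e.1 e.2 = E)).card : ℝ) ≤ (E.divisors.card : ℝ) ^ 2 := h4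
      _ ≤ (C * T ^ (κ / 16)) ^ 2 := pow_le_pow_left₀ (Nat.cast_nonneg _) h6 2
      _ = C ^ 2 * (T ^ (κ / 16) * T ^ (κ / 16)) := by ring
      _ = C ^ 2 * T ^ (κ / 8) := by
          rw [← Real.rpow_add hTp]
          congr 2
          ring
  have h7 : ∑ E ∈ EE, ∑ e ∈ (S ×ˢ S).filter (fun e => Nat.lcm e.1 e.2 = E), |G (Nat.lcm e.1 e.2)|
      ≤ ∑ E ∈ EE, (C ^ 2 * T ^ (κ / 8)) * |G E| := by
    apply Finset.sum_le_sum
    intro E hE
    have h8 : ∑ e ∈ (S ×ˢ S).filter (fun e => Nat.lcm e.1 e.2 = E), |G (Nat.lcm e.1 e.2)|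
        = (((S ×ˢ S).filter (fun e => Nat.lcm e.1 e.2 = E)).card : ℝ) * |G E| := by
      rw [← nsmul_eq_mul, ← Finset.sum_const]
      apply Finset.sum_congr rfl
      intro e he
      rw [(Finset.mem_filter.mp he).2]
    rw [h8]
    exact mul_le_mul_of_nonneg_right (hTT E hE) (abs_nonneg _)
  refine h7.trans ?_
  rw [← Finset.mul_sum]
  have hC2 : C ^ 2 ≤ T ^ (κ / 8) := by
    have h9 : ((C ^ 2) ^ (8 / κ)) ^ (κ / 8) ≤ T ^ (κ / 8) :=
      Real.rpow_le_rpow (by positivity) hTC (by positivity)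
    have h10 : ((C ^ 2) ^ (8 / κ)) ^ (κ / 8) = C ^ 2 := by
      rw [← Real.rpow_mul (by positivity)]
      have : 8 / κ * (κ / 8) = 1 := by
        field_simp
      rw [this, Real.rpow_one]
    linarith
  calc (C ^ 2 * T ^ (κ / 8)) * ∑ E ∈ EE, |G E| ≤ (T ^ (κ / 8) * T ^ (κ / 8)) * T ^ (1 - κ / 2) := by
        apply mul_le_mul _ hB' (Finset.sum_nonneg (fun _ _ => abs_nonneg _)) (by positivity)
        exact mul_le_mul_of_nonneg_right hC2 (by positivity)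
    _ = T ^ (1 - κ / 4) := by
        rw [← Real.rpow_add hTp, ← Real.rpow_add hTp]
        congr 1
        ring

end H69EGD
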