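import Pool.Agent.H69.EGD.Mom

/-!
# HOL: Hoelder for a fixed modulus

Let `g(c) = ∑_{v ∈ [V,2V)} β'_v chi(c v⁻¹)` and, for a pair `(h, u)` with `u` coprime to `m`,
`c(h,u) = h f (G u)⁻¹ ∈ ZMod m`. Then `(G u v)⁻¹ = (G u)⁻¹ v⁻¹` for `v` coprime to `m` and the sum is
`∑_{(h,u) ∈ Pr H U m} γ_h β_u g(c(h,u))`, of absolute value at most `∑_c ν(c) |g(c)|`, `ν(c) = #{(h,u) ∈ Pr : c(h,u) = c}`.
Cauchy-Schwarz twice: `(∑ ν |g|)^2 ≤ (∑ ν)(∑ ν |g|²)` and `(∑ ν |g|²)² ≤ (∑ ν²)(∑ |g|⁴)`. Here `∑ ν = |Pr| ≤ H U`,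
`∑ ν² = |Pr2|` (multiplication by the unit `G`), and `∑ |g|⁴ ≤ m N4c V m` by `mom`.
-/

open Finset H69LB EG

namespace H69EGD

theorem Hol_cs {ι κ : Type} [Fintype κ] [DecidableEq κ] (s : Finset ι) (c : ι → κ) (x : κ → ℝ) :
    (∑ p ∈ s, x (c p)) ^ 4 ≤ (s.card : ℝ) ^ 2 *
      (((s ×ˢ s).filter (fun q => c q.1 = c q.2)).card : ℝ) * ∑ k, (x k) ^ 4 := by
  have h1 : (∑ p ∈ s, x (c p)) ^ 2 ≤ (s.card : ℝ) * ∑ p ∈ s, x (c p) ^ 2 :=
    sq_sum_le_card_mul_sum_sq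
  have h2 : ∑ p ∈ s, x (c p) ^ 2 = ∑ k, ((s.filter (fun p => c p = k)).card : ℝ) * x k ^ 2 := by
    rw [← Finset.sum_fiberwise s c (fun p => x (c p) ^ 2)]
    refine Finset.sum_congr rfl (fun k _ => ?_)
    rw [Finset.sum_congr rfl (g := fun _ => x k ^ 2) (fun p hp => by
      rw [(Finset.mem_filter.1 hp).2]), Finset.sum_const, nsmul_eq_mul]
  have h3 : (∑ k, ((s.filter (fun p => c p = k)).card : ℝ) * x k ^ 2) ^ 2 ≤
      (∑ k, ((s.filter (fun p => c p = k)).card : ℝ) ^ 2) * (∑ k, (x k ^ 2) ^ 2) :=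
    Finset.sum_mul_sq_le_sq_mul_sq univ _ _
  have h4 : (∑ k, ((s.filter (fun p => c p = k)).card : ℝ) ^ 2) =
      (((s ×ˢ s).filter (fun q => c q.1 = c q.2)).card : ℝ) := by
    have e1 := Finset.card_eq_sum_card_fiberwise (f := fun q : ι × ι => c q.1)
      (s := (s ×ˢ s).filter (fun q => c q.1 = c q.2)) (t := univ) (fun _ _ => Finset.mem_coe.2 (Finset.mem_univ _))
    rw [e1, Nat.cast_sum]
    refine Finset.sum_congr rfl (fun k _ => ?_)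
    have e2 : ((s ×ˢ s).filter (fun q => c q.1 = c q.2)).filter (fun q => c q.1 = k) =
        (s.filter (fun p => c p = k)) ×ˢ (s.filter (fun p => c p = k)) := by
      ext ⟨p, p'⟩
      simp only [Finset.mem_filter, Finset.mem_product]
      constructor
      · rintro ⟨⟨⟨hp, hp'⟩, he⟩, hk⟩
        exact ⟨⟨hp, hk⟩, ⟨hp', he ▸ hk⟩⟩
      · rintro ⟨⟨hp, hk⟩, ⟨hp', hk'⟩⟩
        exact ⟨⟨⟨hp, hp'⟩, hk.trans hk'.symm⟩, hk⟩
    rw [e2, Finset.card_product, Nat.cast_mul, pow_two]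
  have h5 : ∑ k, (x k ^ 2) ^ 2 = ∑ k, (x k) ^ 4 := by
    refine Finset.sum_congr rfl (fun k _ => ?_)
    ring
  rw [h4, h5, ← h2] at h3
  have h6 : 0 ≤ (∑ p ∈ s, x (c p)) ^ 2 := sq_nonneg _
  calc (∑ p ∈ s, x (c p)) ^ 4 = ((∑ p ∈ s, x (c p)) ^ 2) ^ 2 := by ring
    _ ≤ ((s.card : ℝ) * ∑ p ∈ s, x (c p) ^ 2) ^ 2 := pow_le_pow_left₀ h6 h1 2
    _ = (s.card : ℝ) ^ 2 * (∑ p ∈ s, x (c p) ^ 2) ^ 2 := by ring
    _ ≤ (s.card : ℝ) ^ 2 * ((((s ×ˢ s).filter (fun q => c q.1 = c q.2)).card : ℝ) *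
        ∑ k, (x k) ^ 4) := mul_le_mul_of_nonneg_left h3 (sq_nonneg _)
    _ = _ := by ring

theorem Hol_inv {m : ℕ} {a b : ZMod m} (ha : IsUnit a) (hb : IsUnit b) :
    (a * b)⁻¹ = a⁻¹ * b⁻¹ := by
  obtain ⟨u, rfl⟩ := ha
  obtain ⟨v, rfl⟩ := hb
  rw [← Units.val_mul, ZMod.inv_coe_unit, ZMod.inv_coe_unit, ZMod.inv_coe_unit, mul_inv,
    Units.val_mul]

theorem Hol_unit {m u : ℕ} (h : Nat.Coprime u m) : IsUnit ((u : ZMod m)) :=
  (ZMod.isUnit_iff_coprime u m).2 h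

theorem hol {m : ℕ} [NeZero m] (H U V f G : ℕ) (hG : Nat.Coprime G m) (γ β β' : ℕ → ℂ)
    (h1 : ∀ h, ‖γ h‖ ≤ 1) (h2 : ∀ u, ‖β u‖ ≤ 1) (h3 : ∀ v, ‖β' v‖ ≤ 1)
    (h4 : ∀ u, β u ≠ 0 → Nat.Coprime u m) (h5 : ∀ v, β' v ≠ 0 → Nat.Coprime v m) :
    ‖∑ h ∈ Ico H (2 * H), ∑ u ∈ Ico U (2 * U), ∑ v ∈ Ico V (2 * V),
      γ h * β u * β' v * chi m ((h : ZMod m) * (f : ZMod m) * ((G * u * v : ℕ) : ZMod m)⁻¹)‖ ^ 4 ≤
        ((H : ℝ) * U) ^ 2 * ((Pr2 H U m f).card : ℝ) * ((m : ℝ) * (N4c V m : ℝ)) := by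
  set g : ZMod m → ℂ := fun c => ∑ v ∈ Ico V (2 * V), β' v * chi m (c * (v : ZMod m)⁻¹) with hg
  set c : ℕ × ℕ → ZMod m := fun p =>
    (p.1 : ZMod m) * (f : ZMod m) * (p.2 : ZMod m)⁻¹ * (G : ZMod m)⁻¹ with hc
  have hGu : IsUnit (G : ZMod m) := Hol_unit hG
  -- the inner sum
  have hin : ∀ h u : ℕ, ∑ v ∈ Ico V (2 * V),
      γ h * β u * β' v * chi m ((h : ZMod m) * (f : ZMod m) * ((G * u * v : ℕ) : ZMod m)⁻¹) =
      γ h * β u * g (c (h, u)) := by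
    intro h u
    by_cases hu : β u = 0
    · rw [hu, mul_zero, zero_mul]
      refine Finset.sum_eq_zero (fun v _ => ?_)
      rw [zero_mul, zero_mul]
    · have huu : IsUnit (u : ZMod m) := Hol_unit (h4 u hu)
      rw [hg, Finset.mul_sum]
      refine Finset.sum_congr rfl (fun v _ => ?_)
      by_cases hv : β' v = 0
      · rw [hv]; ring
      · have hvu : IsUnit (v : ZMod m) := Hol_unit (h5 v hv)
        have e : (h : ZMod m) * (f : ZMod m) * ((G * u * v : ℕ) : ZMod m)⁻¹ =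
            c (h, u) * (v : ZMod m)⁻¹ := by
          rw [hc, Nat.cast_mul, Nat.cast_mul, Hol_inv (hGu.mul huu) hvu, Hol_inv hGu huu]
          ring
        rw [e]
        ring
  have hsum : ∑ h ∈ Ico H (2 * H), ∑ u ∈ Ico U (2 * U), ∑ v ∈ Ico V (2 * V),
      γ h * β u * β' v * chi m ((h : ZMod m) * (f : ZMod m) * ((G * u * v : ℕ) : ZMod m)⁻¹) =
      ∑ p ∈ Pr H U m, γ p.1 * β p.2 * g (c p) := by
    unfold Pr
    rw [Finset.sum_product]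
    refine Finset.sum_congr rfl (fun h _ => ?_)
    rw [Finset.sum_filter]
    refine Finset.sum_congr rfl (fun u _ => ?_)
    rw [hin h u]
    by_cases hu : Nat.Coprime u m
    · rw [if_pos hu]
    · rw [if_neg hu]
      have : β u = 0 := by
        by_contra hne
        exact hu (h4 u hne)
      rw [this]; ring
  rw [hsum]
  have hnorm : ‖∑ p ∈ Pr H U m, γ p.1 * β p.2 * g (c p)‖ ≤ ∑ p ∈ Pr H U m, ‖g (c p)‖ := by
    refine (norm_sum_le _ _).trans (Finset.sum_le_sum (fun p _ => ?_))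
    rw [norm_mul, norm_mul]
    have e1 : ‖γ p.1‖ * ‖β p.2‖ ≤ 1 * 1 :=
      mul_le_mul (h1 _) (h2 _) (norm_nonneg _) zero_le_one
    have e2 := mul_le_mul_of_nonneg_right e1 (norm_nonneg (g (c p)))
    linarith
  have hpow := pow_le_pow_left₀ (norm_nonneg _) hnorm 4
  refine hpow.trans ((Hol_cs (Pr H U m) c (fun k => ‖g k‖)).trans ?_)
  have hmom : ∑ k : ZMod m, ‖g k‖ ^ 4 ≤ (m : ℝ) * (N4c V m : ℝ) := mom V β' h3 h5
  have hcard : ((Pr H U m).card : ℝ) ≤ (H : ℝ) * U := by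
    have e : (Pr H U m).card ≤ H * U := by
      unfold Pr
      rw [Finset.card_product]
      refine Nat.mul_le_mul ?_ ((Finset.card_filter_le _ _).trans ?_)
      · rw [Nat.card_Ico]; omega
      · rw [Nat.card_Ico]; omega
    exact_mod_cast e
  have hPr2 : ((Pr H U m ×ˢ Pr H U m).filter (fun q => c q.1 = c q.2)) = Pr2 H U m f := by
    unfold Pr2
    refine Finset.filter_congr (fun q _ => ?_)
    have hGi : IsUnit ((G : ZMod m)⁻¹) := by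
      obtain ⟨w, hw⟩ := hGu
      rw [← hw, ZMod.inv_coe_unit]
      exact Units.isUnit _
    rw [hc]
    exact hGi.mul_left_inj
  rw [hPr2]
  have hPn : (0 : ℝ) ≤ ((Pr H U m).card : ℝ) := Nat.cast_nonneg _
  have e3 : ((Pr H U m).card : ℝ) ^ 2 ≤ ((H : ℝ) * U) ^ 2 := pow_le_pow_left₀ hPn hcard 2
  refine mul_le_mul (mul_le_mul_of_nonneg_right e3 (Nat.cast_nonneg _)) hmom
    (Finset.sum_nonneg (fun k _ => by positivity)) (by positivity)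

end H69EGD
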