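import Pool.Agent.H69.EGD.Defs

open Finset H69LB EG MeasureTheory
open scoped FourierTransform ContDiff

namespace H69EGD

/-- `f_{a,G}(s) = e^(a s) G(e^s)` -/
private noncomputable def sepF (a : ℝ) (G : SchwartzMap ℝ ℂ) (s : ℝ) : ℂ :=
  ((Real.exp (a * s) : ℝ) : ℂ) * G (Real.exp s)

private lemma sepF_contDiff (a : ℝ) (G : SchwartzMap ℝ ℂ) : ContDiff ℝ ∞ (sepF a G) := by
  unfold sepF
  refine ContDiff.mul ?_ ?_
  · exact Complex.ofRealCLM.contDiff.comp (Real.contDiff_exp.comp (contDiff_const.mul contDiff_id))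
  · exact (G.smooth ⊤).comp Real.contDiff_exp

private lemma sepF_deriv (a : ℝ) (G : SchwartzMap ℝ ℂ) :
    deriv (sepF a G) = fun s => (a : ℂ) * sepF a G s + sepF (a + 1) (SchwartzMap.derivCLM ℝ ℂ G) s := by
  funext s
  have h1 : HasDerivAt (fun s : ℝ => ((Real.exp (a * s) : ℝ) : ℂ)) (((Real.exp (a * s) * a : ℝ)) : ℂ) s := by
    have : HasDerivAt (fun s : ℝ => Real.exp (a * s)) (Real.exp (a * s) * a) s := by
      have h := ((hasDerivAt_id s).const_mul a).exp
      simpa using h
    exact this.ofReal_comp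
  have h2 : HasDerivAt (fun s : ℝ => G (Real.exp s)) ((Real.exp s : ℝ) • deriv G (Real.exp s)) s := by
    have h3 : HasDerivAt (⇑G) (deriv G (Real.exp s)) (Real.exp s) := G.differentiableAt.hasDerivAt
    exact h3.scomp s (Real.hasDerivAt_exp s)
  have h := (h1.mul h2).deriv
  change deriv ((fun s : ℝ => ((Real.exp (a * s) : ℝ) : ℂ)) * fun s : ℝ => G (Real.exp s)) s = _
  rw [h]
  simp only [sepF, SchwartzMap.derivCLM_apply]
  have he2 : Real.exp ((a + 1) * s) = Real.exp (a * s) * Real.exp s := by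
    rw [← Real.exp_add]; ring_nf
  rw [he2]
  push_cast
  rw [Complex.real_smul]
  push_cast
  ring

private lemma sep_exp_abs {a : ℝ} (ha : 0 < a) : Integrable (fun s : ℝ => Real.exp (-(a * |s|))) := by
  have h1 : IntegrableOn (fun s : ℝ => Real.exp (-(a * |s|))) (Set.Ioi 0) := by
    refine (integrableOn_exp_mul_Ioi (a := -a) (by linarith) 0).congr_fun ?_ measurableSet_Ioi
    intro s hs
    have : |s| = s := abs_of_pos hs
    simp only [this]
    ring_nf
  have h2 : IntegrableOn (fun s : ℝ => Real.exp (-(a * |s|))) (Set.Iic 0) := by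
    refine (integrableOn_exp_mul_Iic (a := a) ha 0).congr_fun ?_ measurableSet_Iic
    intro s hs
    have : |s| = -s := abs_of_nonpos hs
    simp only [this]
    ring_nf
  have h3 := h2.union h1
  rw [Set.Iic_union_Ioi] at h3
  exact integrableOn_univ.1 h3

private lemma sepF_integrable {a : ℝ} (ha : 0 < a) (G : SchwartzMap ℝ ℂ) : Integrable (sepF a G) := by
  obtain ⟨k, hk⟩ := exists_nat_ge (2 * a)
  obtain ⟨C, hC⟩ := G.decay 0 0
  obtain ⟨D, hD⟩ := G.decay k 0
  have hm : AEStronglyMeasurable (sepF a G) volume := (sepF_contDiff a G).continuous.aestronglyMeasurable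
  refine ((sep_exp_abs ha).const_mul (C + D)).mono' hm (Filter.Eventually.of_forall fun s => ?_)
  have hC0 : 0 < C := hC.1
  have hD0 : 0 < D := hD.1
  have hCs := hC.2 (Real.exp s)
  have hDs := hD.2 (Real.exp s)
  simp only [norm_iteratedFDeriv_zero, pow_zero, one_mul] at hCs hDs
  rw [Real.norm_eq_abs, abs_of_pos (Real.exp_pos s)] at hDs
  unfold sepF
  rw [norm_mul, Complex.norm_real, Real.norm_of_nonneg (Real.exp_pos _).le]
  rcases le_total s 0 with hs | hs
  · rw [abs_of_nonpos hs]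
    have e1 : -(a * -s) = a * s := by ring
    rw [e1]
    have := Real.exp_pos (a * s)
    nlinarith
  · rw [abs_of_nonneg hs]
    have e2 : Real.exp (a * s) ≤ Real.exp (-(a * s)) * Real.exp s ^ k := by
      rw [← Real.exp_nat_mul, ← Real.exp_add]
      apply Real.exp_le_exp.2
      nlinarith
    have h0 := norm_nonneg (G (Real.exp s))
    have h1 := Real.exp_pos (-(a * s))
    calc Real.exp (a * s) * ‖G (Real.exp s)‖ ≤ (Real.exp (-(a * s)) * Real.exp s ^ k) * ‖G (Real.exp s)‖ :=
          mul_le_mul_of_nonneg_right e2 h0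
      _ = Real.exp (-(a * s)) * (Real.exp s ^ k * ‖G (Real.exp s)‖) := by ring
      _ ≤ Real.exp (-(a * s)) * D := mul_le_mul_of_nonneg_left hDs h1.le
      _ ≤ (C + D) * Real.exp (-(a * s)) := by nlinarith

theorem sep {η : ℝ} {φ : ℝ → ℝ} (hφ : Wt η φ) :
    ∃ w : ℝ → ℂ, Integrable w ∧ ∀ y : ℝ, 0 < y →
      ((Real.sqrt y : ℝ) : ℂ) * ph φ y = ∫ ξ, w ξ * ee (ξ * Real.log y) := by
  set Φ : ℝ → ℂ := fun x => (φ x : ℂ) with hΦ
  have h1 : ContDiff ℝ ∞ Φ := Complex.ofRealCLM.contDiff.comp hφ.smooth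
  have h2 : HasCompactSupport Φ := by
    refine HasCompactSupport.intro (K := Set.Icc (1 - η) (1 + η)) isCompact_Icc ?_
    intro t ht
    simp only [hΦ]
    rw [hφ.zero t, Complex.ofReal_zero]
    by_contra h
    rw [not_le, abs_lt] at h
    exact ht ⟨by linarith [h.1], by linarith [h.2]⟩
  set G : SchwartzMap ℝ ℂ := 𝓕 (h2.toSchwartzMap h1) with hG
  have hGph : ∀ y : ℝ, G y = ph φ y := by
    intro y
    rw [hG, SchwartzMap.fourier_coe]
    rfl
  set f : ℝ → ℂ := sepF (1 / 2) G with hf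
  have hfc : ContDiff ℝ ∞ f := sepF_contDiff _ _
  have hfi : Integrable f := sepF_integrable (by norm_num) G
  have hd1 : deriv f = fun s => ((1 / 2 : ℝ) : ℂ) * sepF (1 / 2) G s + sepF (1 / 2 + 1) (SchwartzMap.derivCLM ℝ ℂ G) s :=
    sepF_deriv _ _
  have hd1i : Integrable (deriv f) := by
    rw [hd1]
    exact ((sepF_integrable (by norm_num) G).const_mul _).add (sepF_integrable (by norm_num) _)
  have hd2 : deriv (deriv f) = fun s => ((1 / 2 : ℝ) : ℂ) * deriv (sepF (1 / 2) G) s +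
      deriv (sepF (1 / 2 + 1) (SchwartzMap.derivCLM ℝ ℂ G)) s := by
    conv_lhs => rw [hd1]
    funext s
    have hA : DifferentiableAt ℝ (sepF (1 / 2) G) s := (sepF_contDiff _ _).differentiable (by simp) s
    have hB : DifferentiableAt ℝ (sepF (1 / 2 + 1) (SchwartzMap.derivCLM ℝ ℂ G)) s :=
      (sepF_contDiff _ _).differentiable (by simp) s
    rw [deriv_fun_add (hA.const_mul _) hB, deriv_const_mul _ hA]
  have hd2i : Integrable (deriv (deriv f)) := by
    rw [hd2, sepF_deriv, sepF_deriv]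
    refine Integrable.add (Integrable.const_mul (Integrable.add (Integrable.const_mul ?_ _) ?_) _)
      (Integrable.add (Integrable.const_mul ?_ _) ?_)
    all_goals exact sepF_integrable (by norm_num) _
  have hint : ∀ n : ℕ, (n : ℕ∞) ≤ 2 → Integrable (iteratedDeriv n f) := by
    intro n hn
    have hn' : n ≤ 2 := by exact_mod_cast hn
    interval_cases n
    · rw [iteratedDeriv_zero]; exact hfi
    · rw [iteratedDeriv_one]; exact hd1i
    · rw [iteratedDeriv_succ, iteratedDeriv_one]; exact hd2i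
  have hfour := Real.fourier_iteratedDeriv (f := f) (N := 2) (n := 2) (hfc.of_le (by exact_mod_cast le_top)) hint le_rfl
  set B : ℝ := ∫ t, ‖iteratedDeriv 2 f t‖ with hB
  set A : ℝ := ∫ t, ‖f t‖ with hA
  have hb2 : ∀ x, ‖𝓕 (iteratedDeriv 2 f) x‖ ≤ B := fun x =>
    VectorFourier.norm_fourierIntegral_le_integral_norm _ _ _ _ _
  have hb0 : ∀ x, ‖𝓕 f x‖ ≤ A := fun x =>
    VectorFourier.norm_fourierIntegral_le_integral_norm _ _ _ _ _
  have hcont : Continuous (𝓕 f) :=
    VectorFourier.fourierIntegral_continuous Real.continuous_fourierChar (by exact continuous_inner) hfi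
  have hwi : Integrable (𝓕 f) := by
    refine ((integrable_inv_one_add_sq).const_mul (A + B)).mono' hcont.aestronglyMeasurable
      (Filter.Eventually.of_forall fun x => ?_)
    have hx2 := hb2 x
    rw [hfour] at hx2
    have e : ‖((2 * Real.pi * Complex.I * x) ^ 2 : ℂ) • 𝓕 f x‖ = (2 * Real.pi * |x|) ^ 2 * ‖𝓕 f x‖ := by
      rw [norm_smul, norm_pow]
      congr 2
      simp [abs_of_pos Real.pi_pos]
    rw [e] at hx2
    have hx0 := hb0 x
    have hn := norm_nonneg (𝓕 f x)
    rw [← div_eq_mul_inv, le_div_iff₀ (by positivity)]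
    have hpi : 1 ≤ (2 * Real.pi) ^ 2 := by nlinarith [Real.pi_gt_three]
    have : x ^ 2 ≤ (2 * Real.pi * |x|) ^ 2 := by
      rw [mul_pow, sq_abs]
      nlinarith [sq_nonneg x]
    nlinarith
  refine ⟨𝓕 f, hwi, ?_⟩
  intro y hy
  have hinv : 𝓕⁻ (𝓕 f) (Real.log y) = f (Real.log y) :=
    hfi.fourierInv_fourier_eq hwi hfc.continuous.continuousAt
  have hval : f (Real.log y) = ((Real.sqrt y : ℝ) : ℂ) * ph φ y := by
    simp only [hf, sepF]
    rw [Real.exp_log hy, hGph]
    congr 2
    rw [Real.sqrt_eq_rpow, Real.rpow_def_of_pos hy]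
    ring_nf
  rw [← hval, ← hinv, Real.fourierInv_eq']
  refine integral_congr_ae (Filter.Eventually.of_forall fun ξ => ?_)
  simp only [ee, smul_eq_mul]
  rw [mul_comm]
  congr 2
  simp
  ring

end H69EGD
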