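import Pool.Agent.H69.EGD.Zxi
import Pool.Agent.H69.EGD.Sep

/-!
# MNB: the main terms of a block

With `M = G u v E q` (`G = g k²` in the application), `y = h T/M > 0` and `sep`:
`(T/M) φ^(h T/M) = (T/M)^(1/2) h^(-1/2) y^(1/2) φ^(y) = (T/M)^(1/2) h^(-1/2) ∫ w(ξ) e(ξ log y) dξ`, and
`log y = log h + log(T/(G E q)) - log u - log v`, `(T/M)^(1/2) = (T/(G E q))^(1/2) u^(-1/2) v^(-1/2)`. So the inner sum is
`∫ w(ξ) Z_E(ξ) dξ` with
`Z_E(ξ) = (T/(G E q))^(1/2) e(ξ log(T/(G E q))) ∑_h ∑_u ∑_v [h^(-1/2) e(ξ log h)] [α_u u^(-1/2) e(-ξ log u)]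
  [β_v v^(-1/2) e(-ξ log v)] chi(...)`. (Interchange of finite sums with the integral; `w` times a bounded continuous function is
integrable.)
Hence `∑_E |...| ≤ ∫ |w(ξ)| ∑_E |Z_E(ξ)| dξ ≤ (∫ |w|) sup_ξ ∑_E |Z_E(ξ)|`, `(T/(G E q))^(1/2) ≤ (T/(G E0 q))^(1/2)`, and for
each `ξ` the fourth power of `∑_E |∑_h ∑_u ∑_v ...|` is bounded by `zxi`. `C = C_zxi ((∫ |w|)^4 + 1)`.
-/

open Finset H69LB EG MeasureTheory

namespace H69EGD

theorem mnb_ee_cont (c : ℝ) : Continuous fun ξ : ℝ => ee (ξ * c) := by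
  unfold ee
  fun_prop

theorem mnb_int {w : ℝ → ℂ} (hw : Integrable w) (c : ℝ) : Integrable fun ξ : ℝ => w ξ * ee (ξ * c) :=
  hw.mul_bdd (mnb_ee_cont c).aestronglyMeasurable (Filter.Eventually.of_forall fun _ => (norm_ee _).le)

theorem mnb_term {T : ℝ} (hT : 1 ≤ T) {G E q u v h : ℕ} (hG : 1 ≤ G) (hE : 1 ≤ E) (hq : 1 ≤ q)
    (hu : 1 ≤ u) (hv : 1 ≤ v) (hh : 1 ≤ h) {φ : ℝ → ℝ} {w : ℝ → ℂ}
    (hw : ∀ y : ℝ, 0 < y → ((Real.sqrt y : ℝ) : ℂ) * ph φ y = ∫ ξ, w ξ * ee (ξ * Real.log y)) :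
    ((T / (((G * u * v : ℕ) : ℝ) * E * q) : ℝ) : ℂ) * ph φ (h * T / (((G * u * v : ℕ) : ℝ) * E * q)) =
      ((Real.sqrt (T / ((G : ℝ) * E * q)) * ((1 / Real.sqrt h) * (1 / Real.sqrt u) * (1 / Real.sqrt v)) : ℝ) : ℂ) *
        ∫ ξ, w ξ * ee (ξ * Real.log (h * T / (((G * u * v : ℕ) : ℝ) * E * q))) := by
  have hT0 : (0 : ℝ) < T := by linarith
  have hG0 : (0 : ℝ) < G := by exact_mod_cast hG
  have hE0 : (0 : ℝ) < E := by exact_mod_cast hE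
  have hq0 : (0 : ℝ) < q := by exact_mod_cast hq
  have hu0 : (0 : ℝ) < u := by exact_mod_cast hu
  have hv0 : (0 : ℝ) < v := by exact_mod_cast hv
  have hh0 : (0 : ℝ) < h := by exact_mod_cast hh
  have hK : 0 < T / ((G : ℝ) * E * q) := by positivity
  have hy : 0 < (h : ℝ) * T / (((G * u * v : ℕ) : ℝ) * E * q) := by
    push_cast
    positivity
  rw [← hw _ hy, ← mul_assoc, ← Complex.ofReal_mul]
  congr 2
  have e1 : (h : ℝ) * T / (((G * u * v : ℕ) : ℝ) * E * q) = h * (T / ((G : ℝ) * E * q)) / (u * v) := by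
    push_cast
    field_simp
  have e2 : T / (((G * u * v : ℕ) : ℝ) * E * q) = (T / ((G : ℝ) * E * q)) / (u * v) := by
    push_cast
    field_simp
  rw [e1, e2]
  generalize hKd : T / ((G : ℝ) * E * q) = K at *
  rw [Real.sqrt_div (by positivity), Real.sqrt_mul hh0.le, Real.sqrt_mul hu0.le]
  have su := Real.mul_self_sqrt hu0.le
  have sv := Real.mul_self_sqrt hv0.le
  have sK := Real.mul_self_sqrt hK.le
  have su0 := Real.sqrt_pos.mpr hu0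
  have sv0 := Real.sqrt_pos.mpr hv0
  have sh0 := Real.sqrt_pos.mpr hh0
  rw [div_eq_iff (by positivity)]
  have e3 : Real.sqrt K * (1 / Real.sqrt h * (1 / Real.sqrt u) * (1 / Real.sqrt v)) *
      (Real.sqrt h * Real.sqrt K / (Real.sqrt u * Real.sqrt v)) * (u * v) =
      (Real.sqrt K * Real.sqrt K) * ((u : ℝ) * v) / ((Real.sqrt u * Real.sqrt u) * (Real.sqrt v * Real.sqrt v)) := by
    field_simp
  rw [e3, su, sv, sK]
  field_simp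

theorem mnb_log {T : ℝ} (hT : 1 ≤ T) {G E q u v h : ℕ} (hG : 1 ≤ G) (hE : 1 ≤ E) (hq : 1 ≤ q)
    (hu : 1 ≤ u) (hv : 1 ≤ v) (hh : 1 ≤ h) (ξ : ℝ) :
    ee (ξ * Real.log (h * T / (((G * u * v : ℕ) : ℝ) * E * q))) =
      ee (ξ * Real.log (T / ((G : ℝ) * E * q))) * (ee (ξ * Real.log h) * ee (-(ξ * Real.log u)) *
        ee (-(ξ * Real.log v))) := by
  have hT0 : (0 : ℝ) < T := by linarith
  have hG0 : (0 : ℝ) < G := by exact_mod_cast hG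
  have hE0 : (0 : ℝ) < E := by exact_mod_cast hE
  have hq0 : (0 : ℝ) < q := by exact_mod_cast hq
  have hu0 : (0 : ℝ) < u := by exact_mod_cast hu
  have hv0 : (0 : ℝ) < v := by exact_mod_cast hv
  have hh0 : (0 : ℝ) < h := by exact_mod_cast hh
  have hK : 0 < T / ((G : ℝ) * E * q) := by positivity
  have e1 : (h : ℝ) * T / (((G * u * v : ℕ) : ℝ) * E * q) = h * (T / ((G : ℝ) * E * q)) / (u * v) := by
    push_cast
    field_simp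
  rw [e1, Real.log_div (by positivity) (by positivity), Real.log_mul hh0.ne' hK.ne',
    Real.log_mul hu0.ne' hv0.ne', ← ee_add, ← ee_add, ← ee_add]
  congr 1
  ring

theorem mnb {η : ℝ} {φ : ℝ → ℝ} (hφ : Wt η φ) (ε : ℝ) (hε : 0 < ε) : ∃ C : ℝ, 0 < C ∧
    ∀ T : ℝ, 1 ≤ T → ∀ a q E0 U V G : ℕ, 1 ≤ a → 1 ≤ q → 1 ≤ E0 → 1 ≤ U →
    1 ≤ V → 1 ≤ G → ∀ X Z : ℝ, 1 ≤ X → X ≤ Z → (U : ℝ) ≤ Z → (V : ℝ) ≤ Z →
    ∀ EE : Finset ℕ, EE ⊆ Ico E0 (2 * E0) → ∀ f : ℕ → ℕ, (∀ E ∈ EE, Nat.Coprime (f E) E) →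
    (∀ E ∈ EE, Nat.Coprime G (a * E * q)) → ∀ α β : ℕ → ℕ → ℝ,
    (∀ E u, |α E u| ≤ 1) → (∀ E v, |β E v| ≤ 1) →
    (∀ E ∈ EE, ∀ u, α E u ≠ 0 → Nat.Coprime u (a * E * q)) → (∀ E ∈ EE, ∀ v, β E v ≠ 0 → Nat.Coprime v (a * E * q)) →
    (∑ E ∈ EE, ‖∑ u ∈ Ico U (2 * U), ∑ v ∈ Ico V (2 * V), ((α E u * β E v : ℝ) : ℂ) *
      ∑ h ∈ Icc 1 ⌊X⌋₊, ((T / (((G * u * v : ℕ) : ℝ) * E * q) : ℝ) : ℂ) *
        ph φ (h * T / (((G * u * v : ℕ) : ℝ) * E * q)) *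
        chi (a * E * q) ((h : ZMod (a * E * q)) * (f E : ZMod (a * E * q)) *
          ((G * u * v : ℕ) : ZMod (a * E * q))⁻¹)‖) ^ 4 ≤
      C * Z ^ ε * (T / ((G : ℝ) * E0 * q)) ^ 2 * ((a : ℝ) * q) * (E0 : ℝ) ^ 4 * (X * U) * (1 + X * U / E0) *
        ((V : ℝ) ^ 2 + E0) := by
  obtain ⟨w, hwi, hw⟩ := sep hφ
  obtain ⟨C0, hC0, hz⟩ := zxi ε hε
  set W : ℝ := ∫ ξ, ‖w ξ‖ with hWd
  have hW0 : 0 ≤ W := integral_nonneg fun ξ => norm_nonneg _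
  refine ⟨C0 * (W ^ 4 + 1), by positivity, ?_⟩
  intro T hT a q E0 U V G ha hq hE0 hU hV hG X Z hX hXZ hUZ hVZ EE hEE f hf hGc α β hα hβ hαc hβc
  have hT0 : (0 : ℝ) < T := by linarith
  have hG0 : (0 : ℝ) < G := by exact_mod_cast hG
  have hE00 : (0 : ℝ) < E0 := by exact_mod_cast hE0
  have hq0 : (0 : ℝ) < q := by exact_mod_cast hq
  have ha0 : (0 : ℝ) < a := by exact_mod_cast ha
  have hU0 : (0 : ℝ) < U := by exact_mod_cast hU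
  have hV0 : (0 : ℝ) < V := by exact_mod_cast hV
  have hX0 : (0 : ℝ) < X := by linarith
  have hZ0 : (0 : ℝ) < Z := by linarith
  have hE1 : ∀ E ∈ EE, E0 ≤ E := fun E hE => (Finset.mem_Ico.mp (hEE hE)).1
  set B : ℝ := C0 * Z ^ ε * ((a : ℝ) * q) * (E0 : ℝ) ^ 4 * (X * U) * (1 + X * U / E0) * ((V : ℝ) ^ 2 + E0) with hBd
  have hB0 : 0 ≤ B := by positivity
  set K0 : ℝ := T / ((G : ℝ) * E0 * q) with hK0d
  have hK00 : 0 < K0 := by positivity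
  -- the coefficients
  let γ : ℝ → ℕ → ℕ → ℂ := fun ξ _ h => ((1 / Real.sqrt h : ℝ) : ℂ) * ee (ξ * Real.log h)
  let b1 : ℝ → ℕ → ℕ → ℂ := fun ξ E u => ((α E u * (1 / Real.sqrt u) : ℝ) : ℂ) * ee (-(ξ * Real.log u))
  let b2 : ℝ → ℕ → ℕ → ℂ := fun ξ E v => ((β E v * (1 / Real.sqrt v) : ℝ) : ℂ) * ee (-(ξ * Real.log v))
  let ch : ℕ → ℕ → ℕ → ℕ → ℂ := fun E h u v => chi (a * E * q) ((h : ZMod (a * E * q)) *
    (f E : ZMod (a * E * q)) * ((G * u * v : ℕ) : ZMod (a * E * q))⁻¹)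
  let S : ℝ → ℕ → ℂ := fun ξ E => ∑ h ∈ Icc 1 ⌊X⌋₊, ∑ u ∈ Ico U (2 * U), ∑ v ∈ Ico V (2 * V),
    γ ξ E h * b1 ξ E u * b2 ξ E v * ch E h u v
  have hS : ∀ ξ : ℝ, (∑ E ∈ EE, ‖S ξ E‖) ^ 4 ≤ B := by
    intro ξ
    refine hz a q E0 U V G ha hq hE0 hU hV X Z hX hXZ hUZ hVZ EE hEE f hf hGc (γ ξ) (b1 ξ) (b2 ξ) ?_ ?_ ?_ ?_ ?_
    · intro E h hh
      change ‖((1 / Real.sqrt h : ℝ) : ℂ) * ee (ξ * Real.log h)‖ ≤ _
      rw [norm_mul, norm_ee, mul_one, Complex.norm_real, Real.norm_of_nonneg (by positivity)]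
    · intro E u hu
      change ‖((α E u * (1 / Real.sqrt u) : ℝ) : ℂ) * ee (-(ξ * Real.log u))‖ ≤ _
      rw [norm_mul, norm_ee, mul_one, Complex.norm_real, norm_mul, Real.norm_eq_abs,
        Real.norm_of_nonneg (by positivity : (0 : ℝ) ≤ 1 / Real.sqrt u)]
      exact mul_le_of_le_one_left (by positivity) (hα E u)
    · intro E v hv
      change ‖((β E v * (1 / Real.sqrt v) : ℝ) : ℂ) * ee (-(ξ * Real.log v))‖ ≤ _
      rw [norm_mul, norm_ee, mul_one, Complex.norm_real, norm_mul, Real.norm_eq_abs,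
        Real.norm_of_nonneg (by positivity : (0 : ℝ) ≤ 1 / Real.sqrt v)]
      exact mul_le_of_le_one_left (by positivity) (hβ E v)
    · intro E hE u hu
      refine hαc E hE u fun h0 => hu ?_
      change ((α E u * (1 / Real.sqrt u) : ℝ) : ℂ) * ee (-(ξ * Real.log u)) = 0
      rw [h0]
      simp
    · intro E hE v hv
      refine hβc E hE v fun h0 => hv ?_
      change ((β E v * (1 / Real.sqrt v) : ℝ) : ℂ) * ee (-(ξ * Real.log v)) = 0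
      rw [h0]
      simp
  -- the integrand
  let g : ℕ → ℝ → ℂ := fun E ξ => ∑ u ∈ Ico U (2 * U), ∑ v ∈ Ico V (2 * V), ∑ h ∈ Icc 1 ⌊X⌋₊,
    (((α E u * β E v : ℝ) : ℂ) * ((Real.sqrt (T / ((G : ℝ) * E * q)) * ((1 / Real.sqrt h) *
      (1 / Real.sqrt u) * (1 / Real.sqrt v)) : ℝ) : ℂ) * ch E h u v) *
      (w ξ * ee (ξ * Real.log (h * T / (((G * u * v : ℕ) : ℝ) * E * q))))
  have hgi : ∀ E, Integrable (g E) := by
    intro E
    refine integrable_finsetSum _ fun u _ => integrable_finsetSum _ fun v _ =>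
      integrable_finsetSum _ fun h _ => ?_
    exact (mnb_int hwi _).const_mul _
  have hinner : ∀ E ∈ EE, (∑ u ∈ Ico U (2 * U), ∑ v ∈ Ico V (2 * V), ((α E u * β E v : ℝ) : ℂ) *
      ∑ h ∈ Icc 1 ⌊X⌋₊, ((T / (((G * u * v : ℕ) : ℝ) * E * q) : ℝ) : ℂ) *
        ph φ (h * T / (((G * u * v : ℕ) : ℝ) * E * q)) *
        chi (a * E * q) ((h : ZMod (a * E * q)) * (f E : ZMod (a * E * q)) *
          ((G * u * v : ℕ) : ZMod (a * E * q))⁻¹)) = ∫ ξ, g E ξ := by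
    intro E hE
    have hEp : 1 ≤ E := hE0.trans (hE1 E hE)
    have i3 : ∀ u v h : ℕ, Integrable fun ξ : ℝ => (((α E u * β E v : ℝ) : ℂ) *
        ((Real.sqrt (T / ((G : ℝ) * E * q)) * ((1 / Real.sqrt (h : ℝ)) *
        (1 / Real.sqrt (u : ℝ)) * (1 / Real.sqrt (v : ℝ))) : ℝ) : ℂ) * ch E h u v) *
        (w ξ * ee (ξ * Real.log ((h : ℝ) * T / (((G * u * v : ℕ) : ℝ) * E * q)))) := fun u v h =>
      (mnb_int hwi _).const_mul _
    rw [integral_finsetSum _ fun u _ => integrable_finsetSum _ fun v _ =>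
      integrable_finsetSum _ fun h _ => i3 u v h]
    refine Finset.sum_congr rfl fun u hu => ?_
    rw [integral_finsetSum _ fun v _ => integrable_finsetSum _ fun h _ => i3 u v h]
    refine Finset.sum_congr rfl fun v hv => ?_
    rw [integral_finsetSum _ fun h _ => i3 u v h, Finset.mul_sum]
    refine Finset.sum_congr rfl fun h hh => ?_
    have hu1 : 1 ≤ u := hU.trans (Finset.mem_Ico.mp hu).1
    have hv1 : 1 ≤ v := hV.trans (Finset.mem_Ico.mp hv).1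
    have hh1 : 1 ≤ h := (Finset.mem_Icc.mp hh).1
    rw [mnb_term hT hG hEp hq hu1 hv1 hh1 hw, integral_const_mul]
    ring
  have hpt : ∀ ξ : ℝ, ∀ E ∈ EE, ‖g E ξ‖ ≤ ‖w ξ‖ * (Real.sqrt K0 * ‖S ξ E‖) := by
    intro ξ E hE
    have hEp : 1 ≤ E := hE0.trans (hE1 E hE)
    have hEp0 : (0 : ℝ) < E := by exact_mod_cast hEp
    have e1 : g E ξ = (w ξ * (((Real.sqrt (T / ((G : ℝ) * E * q)) : ℝ) : ℂ) *
        ee (ξ * Real.log (T / ((G : ℝ) * E * q))))) * S ξ E := by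
      change (∑ u ∈ Ico U (2 * U), ∑ v ∈ Ico V (2 * V), ∑ h ∈ Icc 1 ⌊X⌋₊, _) = _ *
        ∑ h ∈ Icc 1 ⌊X⌋₊, ∑ u ∈ Ico U (2 * U), ∑ v ∈ Ico V (2 * V), _
      have e2 : (∑ h ∈ Icc 1 ⌊X⌋₊, ∑ u ∈ Ico U (2 * U), ∑ v ∈ Ico V (2 * V),
          γ ξ E h * b1 ξ E u * b2 ξ E v * ch E h u v) =
          ∑ u ∈ Ico U (2 * U), ∑ v ∈ Ico V (2 * V), ∑ h ∈ Icc 1 ⌊X⌋₊,
          γ ξ E h * b1 ξ E u * b2 ξ E v * ch E h u v := by
        rw [Finset.sum_comm]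
        refine Finset.sum_congr rfl fun u _ => ?_
        rw [Finset.sum_comm]
      rw [e2, Finset.mul_sum]
      refine Finset.sum_congr rfl fun u hu => ?_
      rw [Finset.mul_sum]
      refine Finset.sum_congr rfl fun v hv => ?_
      rw [Finset.mul_sum]
      refine Finset.sum_congr rfl fun h hh => ?_
      have hu1 : 1 ≤ u := hU.trans (Finset.mem_Ico.mp hu).1
      have hv1 : 1 ≤ v := hV.trans (Finset.mem_Ico.mp hv).1
      have hh1 : 1 ≤ h := (Finset.mem_Icc.mp hh).1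
      rw [mnb_log hT hG hEp hq hu1 hv1 hh1 ξ]
      change _ = _ * ((((1 / Real.sqrt h : ℝ) : ℂ) * ee (ξ * Real.log h)) *
        (((α E u * (1 / Real.sqrt u) : ℝ) : ℂ) * ee (-(ξ * Real.log u))) *
        (((β E v * (1 / Real.sqrt v) : ℝ) : ℂ) * ee (-(ξ * Real.log v))) * ch E h u v)
      push_cast
      ring
    rw [e1, norm_mul, norm_mul, norm_mul, norm_ee, mul_one, Complex.norm_real,
      Real.norm_of_nonneg (Real.sqrt_nonneg _), mul_assoc]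
    refine mul_le_mul_of_nonneg_left ?_ (norm_nonneg _)
    refine mul_le_mul_of_nonneg_right ?_ (norm_nonneg _)
    refine Real.sqrt_le_sqrt ?_
    have hEE0 : (E0 : ℝ) ≤ E := by exact_mod_cast hE1 E hE
    rw [hK0d]
    gcongr
  -- the bound for the sum over E at a fixed ξ
  set R : ℝ := (K0 ^ 2 * B) ^ ((1 : ℝ) / 4) with hRd
  have hR0 : 0 ≤ R := by positivity
  have hR4 : R ^ 4 = K0 ^ 2 * B := by
    rw [hRd, ← Real.rpow_natCast, ← Real.rpow_mul (by positivity)]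
    norm_num
  have hsum : ∀ ξ : ℝ, ∑ E ∈ EE, ‖g E ξ‖ ≤ ‖w ξ‖ * R := by
    intro ξ
    have h1 : ∑ E ∈ EE, ‖g E ξ‖ ≤ ‖w ξ‖ * (Real.sqrt K0 * ∑ E ∈ EE, ‖S ξ E‖) := by
      rw [Finset.mul_sum, Finset.mul_sum]
      exact Finset.sum_le_sum fun E hE => hpt ξ E hE
    refine h1.trans (mul_le_mul_of_nonneg_left ?_ (norm_nonneg _))
    have hs0 : 0 ≤ ∑ E ∈ EE, ‖S ξ E‖ := Finset.sum_nonneg fun E _ => norm_nonneg _
    refine le_of_pow_le_pow_left₀ (n := 4) (by norm_num) hR0 ?_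
    rw [hR4, mul_pow]
    have h2 : Real.sqrt K0 ^ 4 = K0 ^ 2 := by
      have : Real.sqrt K0 ^ 4 = (Real.sqrt K0 ^ 2) ^ 2 := by ring
      rw [this, Real.sq_sqrt hK00.le]
    rw [h2]
    exact mul_le_mul_of_nonneg_left (hS ξ) (by positivity)
  have htot : (∑ E ∈ EE, ‖∫ ξ, g E ξ‖) ≤ W * R := by
    have h1 : (∑ E ∈ EE, ‖∫ ξ, g E ξ‖) ≤ ∑ E ∈ EE, ∫ ξ, ‖g E ξ‖ :=
      Finset.sum_le_sum fun E _ => norm_integral_le_integral_norm _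
    refine h1.trans ?_
    rw [← integral_finsetSum _ fun E _ => (hgi E).norm]
    have h2 : (∫ ξ, ∑ E ∈ EE, ‖g E ξ‖) ≤ ∫ ξ, ‖w ξ‖ * R :=
      integral_mono (integrable_finsetSum _ fun E _ => (hgi E).norm) (hwi.norm.mul_const R) hsum
    refine h2.trans (le_of_eq ?_)
    rw [integral_mul_const]
  have hfin : (∑ E ∈ EE, ‖∑ u ∈ Ico U (2 * U), ∑ v ∈ Ico V (2 * V), ((α E u * β E v : ℝ) : ℂ) *
      ∑ h ∈ Icc 1 ⌊X⌋₊, ((T / (((G * u * v : ℕ) : ℝ) * E * q) : ℝ) : ℂ) *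
        ph φ (h * T / (((G * u * v : ℕ) : ℝ) * E * q)) *
        chi (a * E * q) ((h : ZMod (a * E * q)) * (f E : ZMod (a * E * q)) *
          ((G * u * v : ℕ) : ZMod (a * E * q))⁻¹)‖) = ∑ E ∈ EE, ‖∫ ξ, g E ξ‖ := by
    refine Finset.sum_congr rfl fun E hE => ?_
    rw [hinner E hE]
  rw [hfin]
  have h0 : 0 ≤ ∑ E ∈ EE, ‖∫ ξ, g E ξ‖ := Finset.sum_nonneg fun E _ => norm_nonneg _
  calc (∑ E ∈ EE, ‖∫ ξ, g E ξ‖) ^ 4 ≤ (W * R) ^ 4 := pow_le_pow_left₀ h0 htot 4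
    _ = W ^ 4 * (K0 ^ 2 * B) := by rw [mul_pow, hR4]
    _ ≤ (W ^ 4 + 1) * (K0 ^ 2 * B) := by
        refine mul_le_mul_of_nonneg_right (by linarith) (by positivity)
    _ = _ := by rw [hBd]; ring

end H69EGD
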