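import Pool.Agent.H69.EGD.Defs

/-!
# MOM: the fourth moment of an inverse exponential sum

`|g|^4 = g g conj(g) conj(g)` with `g(c) = ∑_v β_v chi(c v⁻¹)`: the left side is (the real number)
`∑_{v ∈ box V} β_{v1} β_{v2} conj(β_{v3}) conj(β_{v4}) ∑_c chi(c (v1⁻¹ + v2⁻¹ - v3⁻¹ - v4⁻¹))`
(`chi_add`, `conj_chi`). By `sum_chi` the inner sum is `m` or `0`, and it is `m` only if
`v1⁻¹ + v2⁻¹ = v3⁻¹ + v4⁻¹` in `ZMod m`; when the `β`'s do not vanish all `v_i` are units, and multiplication by `v1 v2 v3 v4`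
shows `N(v) = 0` in `ZMod m`, `m ∣ N(v)`. Take norms.
-/

open Finset H69LB EG

namespace H69EGD

theorem mom_prod {ι κ : Type*} (s : Finset ι) (t : Finset κ) (a : ι → ℂ) (G : κ → ℂ) :
    (∑ i ∈ s, a i) * (∑ x ∈ t, G x) = ∑ p ∈ s ×ˢ t, a p.1 * G p.2 := by
  rw [Finset.sum_mul_sum, Finset.sum_product]

theorem mom_four (V : ℕ) (a b d e : ℕ → ℂ) :
    (∑ v ∈ Ico V (2 * V), a v) * ((∑ v ∈ Ico V (2 * V), b v) *
      ((∑ v ∈ Ico V (2 * V), d v) * (∑ v ∈ Ico V (2 * V), e v))) =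
    ∑ v ∈ box V, a v.1 * (b v.2.1 * (d v.2.2.1 * e v.2.2.2)) := by
  rw [mom_prod, mom_prod, mom_prod]
  rfl

theorem mom_dvd {m : ℕ} [NeZero m] (v : ℕ × ℕ × ℕ × ℕ) (h1 : Nat.Coprime v.1 m)
    (h2 : Nat.Coprime v.2.1 m) (h3 : Nat.Coprime v.2.2.1 m) (h4 : Nat.Coprime v.2.2.2 m)
    (h : ((v.1 : ZMod m)⁻¹ + (v.2.1 : ZMod m)⁻¹ - (v.2.2.1 : ZMod m)⁻¹ - (v.2.2.2 : ZMod m)⁻¹) = 0) :
    (m : ℤ) ∣ N4 v := by
  rw [← ZMod.intCast_zmod_eq_zero_iff_dvd]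
  have e1 := ZMod.coe_mul_inv_eq_one v.1 h1
  have e2 := ZMod.coe_mul_inv_eq_one v.2.1 h2
  have e3 := ZMod.coe_mul_inv_eq_one v.2.2.1 h3
  have e4 := ZMod.coe_mul_inv_eq_one v.2.2.2 h4
  unfold N4
  push_cast
  generalize (v.1 : ZMod m) = a at *
  generalize (v.2.1 : ZMod m) = b at *
  generalize (v.2.2.1 : ZMod m) = c at *
  generalize (v.2.2.2 : ZMod m) = d at *
  linear_combination (a * b * c * d) * h - (b * c * d) * e1 - (a * c * d) * e2 + (a * b * d) * e3 +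
    (a * b * c) * e4

theorem mom_term {m : ℕ} [NeZero m] (β : ℕ → ℂ) (h1 : ∀ v, ‖β v‖ ≤ 1)
    (h2 : ∀ v, β v ≠ 0 → Nat.Coprime v m) (v : ℕ × ℕ × ℕ × ℕ) :
    ‖∑ c : ZMod m, (β v.1 * chi m (c * (v.1 : ZMod m)⁻¹)) * ((β v.2.1 * chi m (c * (v.2.1 : ZMod m)⁻¹)) *
      ((starRingEnd ℂ) (β v.2.2.1 * chi m (c * (v.2.2.1 : ZMod m)⁻¹)) *
        (starRingEnd ℂ) (β v.2.2.2 * chi m (c * (v.2.2.2 : ZMod m)⁻¹))))‖ ≤
      if (m : ℤ) ∣ N4 v then (m : ℝ) else 0 := by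
  have hm : 1 ≤ m := Nat.pos_of_ne_zero (NeZero.ne m)
  have hrw : ∀ c : ZMod m, (β v.1 * chi m (c * (v.1 : ZMod m)⁻¹)) * ((β v.2.1 * chi m (c * (v.2.1 : ZMod m)⁻¹)) *
      ((starRingEnd ℂ) (β v.2.2.1 * chi m (c * (v.2.2.1 : ZMod m)⁻¹)) *
        (starRingEnd ℂ) (β v.2.2.2 * chi m (c * (v.2.2.2 : ZMod m)⁻¹)))) =
      (β v.1 * (β v.2.1 * ((starRingEnd ℂ) (β v.2.2.1) * (starRingEnd ℂ) (β v.2.2.2)))) *
        chi m (c * ((v.1 : ZMod m)⁻¹ + (v.2.1 : ZMod m)⁻¹ - (v.2.2.1 : ZMod m)⁻¹ - (v.2.2.2 : ZMod m)⁻¹)) := by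
    intro c
    have e : c * ((v.1 : ZMod m)⁻¹ + (v.2.1 : ZMod m)⁻¹ - (v.2.2.1 : ZMod m)⁻¹ - (v.2.2.2 : ZMod m)⁻¹) =
      c * (v.1 : ZMod m)⁻¹ + (c * (v.2.1 : ZMod m)⁻¹ + (-(c * (v.2.2.1 : ZMod m)⁻¹) +
        (-(c * (v.2.2.2 : ZMod m)⁻¹)))) := by ring
    rw [e, chi_add hm, chi_add hm, chi_add hm, map_mul, map_mul, conj_chi hm, conj_chi hm]
    ring
  rw [Finset.sum_congr rfl fun c _ => hrw c, ← Finset.mul_sum, sum_chi, norm_mul]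
  have hβ : ‖β v.1 * (β v.2.1 * ((starRingEnd ℂ) (β v.2.2.1) * (starRingEnd ℂ) (β v.2.2.2)))‖ ≤ 1 := by
    rw [norm_mul, norm_mul, norm_mul, RCLike.norm_conj, RCLike.norm_conj]
    have a1 := h1 v.1
    have a2 := h1 v.2.1
    have a3 := h1 v.2.2.1
    have a4 := h1 v.2.2.2
    exact mul_le_one₀ a1 (by positivity) (mul_le_one₀ a2 (by positivity) (mul_le_one₀ a3 (norm_nonneg _) a4))
  by_cases hz : β v.1 * (β v.2.1 * ((starRingEnd ℂ) (β v.2.2.1) * (starRingEnd ℂ) (β v.2.2.2))) = 0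
  · rw [hz, norm_zero, zero_mul]
    split_ifs <;> positivity
  · simp only [mul_ne_zero_iff, map_ne_zero] at hz
    obtain ⟨z1, z2, z3, z4⟩ := hz
    by_cases hx : ((v.1 : ZMod m)⁻¹ + (v.2.1 : ZMod m)⁻¹ - (v.2.2.1 : ZMod m)⁻¹ - (v.2.2.2 : ZMod m)⁻¹) = 0
    · rw [if_pos hx, if_pos (mom_dvd v (h2 _ z1) (h2 _ z2) (h2 _ z3) (h2 _ z4) hx)]
      rw [Complex.norm_natCast]
      exact mul_le_of_le_one_left (by positivity) hβ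
    · rw [if_neg hx, norm_zero, mul_zero]
      split_ifs <;> positivity

theorem mom {m : ℕ} [NeZero m] (V : ℕ) (β : ℕ → ℂ) (h1 : ∀ v, ‖β v‖ ≤ 1) (h2 : ∀ v, β v ≠ 0 → Nat.Coprime v m) :
    ∑ c : ZMod m, ‖∑ v ∈ Ico V (2 * V), β v * chi m (c * (v : ZMod m)⁻¹)‖ ^ 4 ≤ (m : ℝ) * (N4c V m : ℝ) := by
  have key : ((∑ c : ZMod m, ‖∑ v ∈ Ico V (2 * V), β v * chi m (c * (v : ZMod m)⁻¹)‖ ^ 4 : ℝ) : ℂ) =
      ∑ v ∈ box V, ∑ c : ZMod m, (β v.1 * chi m (c * (v.1 : ZMod m)⁻¹)) *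
        ((β v.2.1 * chi m (c * (v.2.1 : ZMod m)⁻¹)) *
        ((starRingEnd ℂ) (β v.2.2.1 * chi m (c * (v.2.2.1 : ZMod m)⁻¹)) *
        (starRingEnd ℂ) (β v.2.2.2 * chi m (c * (v.2.2.2 : ZMod m)⁻¹)))) := by
    rw [Finset.sum_comm, Complex.ofReal_sum]
    refine Finset.sum_congr rfl fun c _ => ?_
    rw [← mom_four V (fun v => β v * chi m (c * (v : ZMod m)⁻¹)) (fun v => β v * chi m (c * (v : ZMod m)⁻¹))
      (fun v => (starRingEnd ℂ) (β v * chi m (c * (v : ZMod m)⁻¹)))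
      (fun v => (starRingEnd ℂ) (β v * chi m (c * (v : ZMod m)⁻¹)))]
    rw [← map_sum]
    generalize (∑ v ∈ Ico V (2 * V), β v * chi m (c * (v : ZMod m)⁻¹)) = g
    have e := Complex.mul_conj g
    rw [Complex.normSq_eq_norm_sq] at e
    have e2 : g * (g * ((starRingEnd ℂ) g * (starRingEnd ℂ) g)) = (g * (starRingEnd ℂ) g) ^ 2 := by ring
    rw [e2, e]
    push_cast
    ring
  have h0 : (0 : ℝ) ≤ ∑ c : ZMod m, ‖∑ v ∈ Ico V (2 * V), β v * chi m (c * (v : ZMod m)⁻¹)‖ ^ 4 :=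
    Finset.sum_nonneg fun c _ => by positivity
  rw [← abs_of_nonneg h0, ← Real.norm_eq_abs, ← Complex.norm_real, key]
  refine (norm_sum_le _ _).trans ?_
  refine (Finset.sum_le_sum fun v _ => mom_term β h1 h2 v).trans (le_of_eq ?_)
  rw [← Finset.sum_filter, Finset.sum_const, nsmul_eq_mul, N4c, mul_comm]

end H69EGD
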