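import Pool.Agent.H69.EGD.Defs
import Pool.Agent.H94.WeylC

/-!
# NUC: the number of coincidences `h f/u = h' f/u'` modulo `m`

Let `((h,u),(h',u')) ∈ Pr2 H U m f`. Multiplication by the unit `u u'` gives `f (h u' - h' u) = 0` in `ZMod m`, so (as `m' ∣ m`
and `f` is coprime to `m'`) `h u' ≡ h' u mod m'`. For each of the `H U` pairs `(h, u')` with product `n`, the product
`n' = h' u` lies in `[1, 4 H U]` and in the residue class of `n` modulo `m'`: at most `4 H U/m' + 1` values, and each value has at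
most `τ(n') ≤ C (4 H U)^ε` factorizations. Divisor bound: `Pool.Agent.H94.Weyl.card_divisors_le`.
-/

open Finset H69LB EG

namespace H69EGD

private lemma Nuc_class (N r n : ℕ) (hr : 1 ≤ r) :
    (((range N).filter (fun x => x ≡ n [MOD r])).card : ℝ) ≤ (N : ℝ) / r + 1 := by
  have h1 : ((range N).filter (fun x => x ≡ n [MOD r])).card ≤ (range (N / r + 1)).card := by
    refine Finset.card_le_card_of_injOn (fun x => x / r) ?_ ?_
    · intro x hx
      simp only [coe_filter, mem_range, Set.mem_setOf_eq] at hx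
      simp only [coe_range, Set.mem_Iio]
      exact Nat.lt_succ_of_le (Nat.div_le_div_right hx.1.le)
    · intro x hx y hy hxy
      simp only [coe_filter, mem_range, Set.mem_setOf_eq] at hx hy
      have h2 : x % r = y % r := hx.2.trans hy.2.symm
      have h3 : x / r = y / r := hxy
      rw [← Nat.div_add_mod x r, ← Nat.div_add_mod y r, h2, h3]
  rw [card_range] at h1
  have h4 : ((N / r : ℕ) : ℝ) ≤ (N : ℝ) / r := Nat.cast_div_le
  calc (((range N).filter (fun x => x ≡ n [MOD r])).card : ℝ) ≤ ((N / r + 1 : ℕ) : ℝ) := by exact_mod_cast h1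
    _ = ((N / r : ℕ) : ℝ) + 1 := by push_cast; ring
    _ ≤ _ := by linarith

private lemma Nuc_key {m m' H U f : ℕ} (hm : 1 ≤ m) (hmm : m' ∣ m) (hf : Nat.Coprime f m')
    {p : (ℕ × ℕ) × (ℕ × ℕ)} (hp : p ∈ Pr2 H U m f) : p.2.1 * p.1.2 ≡ p.1.1 * p.2.2 [MOD m'] := by
  obtain ⟨⟨h, u⟩, ⟨h', u'⟩⟩ := p
  simp only [Pr2, Pr, mem_filter, mem_product, mem_Ico] at hp
  obtain ⟨⟨⟨_, _, hu⟩, ⟨_, _, hu'⟩⟩, he⟩ := hp
  show h' * u ≡ h * u' [MOD m']
  have e1 : (u : ZMod m) * (u : ZMod m)⁻¹ = 1 := ZMod.coe_mul_inv_eq_one u hu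
  have e2 : (u' : ZMod m) * (u' : ZMod m)⁻¹ = 1 := ZMod.coe_mul_inv_eq_one u' hu'
  have e3 : (h : ZMod m) * f * u' = (h' : ZMod m) * f * u := by
    calc (h : ZMod m) * f * u' = ((h : ZMod m) * f * (u : ZMod m)⁻¹) * ((u : ZMod m) * u') := by
          linear_combination (-(h : ZMod m) * f * u') * e1
      _ = ((h' : ZMod m) * f * (u' : ZMod m)⁻¹) * ((u : ZMod m) * u') := by rw [he]
      _ = _ := by linear_combination ((h' : ZMod m) * f * u) * e2
  have e4 : ((f * (h * u') : ℕ) : ZMod m) = ((f * (h' * u) : ℕ) : ZMod m) := by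
    push_cast
    linear_combination e3
  have e5 : f * (h * u') ≡ f * (h' * u) [MOD m] := (ZMod.natCast_eq_natCast_iff _ _ _).1 e4
  have e6 : f * (h * u') ≡ f * (h' * u) [MOD m'] := e5.of_dvd hmm
  have e7 : h * u' ≡ h' * u [MOD m'] := Nat.ModEq.cancel_left_of_coprime (by rwa [Nat.gcd_comm] at *) e6
  exact e7.symm

theorem nuc (ε : ℝ) (hε : 0 < ε) : ∃ C : ℝ, 0 < C ∧ ∀ m m' H U f : ℕ, 1 ≤ m → m' ∣ m → 1 ≤ H → 1 ≤ U →
    Nat.Coprime f m' →
    ((Pr2 H U m f).card : ℝ) ≤ C * ((H : ℝ) * U) ^ ε * ((H : ℝ) * U) * (1 + (H : ℝ) * U / m') := by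
  obtain ⟨C0, hC0, hdiv⟩ := Pool.Agent.H94.Weyl.card_divisors_le ε hε
  refine ⟨4 * (4 : ℝ) ^ ε * C0, by positivity, ?_⟩
  intro m m' H U f hm hmm hH hU hf
  have hm' : 1 ≤ m' := Nat.pos_of_dvd_of_pos hmm hm
  set A : Finset (ℕ × ℕ) := Ico H (2 * H) ×ˢ Ico U (2 * U) with hA
  have hAc : A.card = H * U := by
    rw [hA, card_product, Nat.card_Ico, Nat.card_Ico]
    congr 1 <;> omega
  -- step 1
  have s1 : (Pr2 H U m f).card ≤
      ((A ×ˢ A).filter (fun p => p.2.1 * p.2.2 ≡ p.1.1 * p.1.2 [MOD m'])).card := by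
    refine Finset.card_le_card_of_injOn (fun p => ((p.1.1, p.2.2), (p.2.1, p.1.2))) ?_ ?_
    · intro p hp
      have hp0 : p ∈ Pr2 H U m f := hp
      have hk := Nuc_key hm hmm hf hp0
      simp only [Pr2, Pr, mem_filter, mem_product, mem_Ico] at hp0
      simp only [coe_filter, mem_product, Set.mem_setOf_eq, hA, mem_Ico]
      exact ⟨⟨⟨hp0.1.1.1, hp0.1.2.2.1⟩, ⟨hp0.1.2.1, hp0.1.1.2.1⟩⟩, hk⟩
    · intro p _ q _ hpq
      simp only [Prod.mk.injEq] at hpq
      obtain ⟨⟨a, b⟩, ⟨c, d⟩⟩ := hpq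
      exact Prod.ext (Prod.ext a d) (Prod.ext c b)
  -- step 2: fibres over the first pair
  have s2 : ((A ×ˢ A).filter (fun p => p.2.1 * p.2.2 ≡ p.1.1 * p.1.2 [MOD m'])).card =
      ∑ x ∈ A, (A.filter (fun y => y.1 * y.2 ≡ x.1 * x.2 [MOD m'])).card := by
    rw [card_filter, sum_product]
    refine sum_congr rfl (fun x _ => ?_)
    rw [card_filter]
  set N : ℕ := 4 * (H * U) with hN
  have hNr : (N : ℝ) = 4 * ((H : ℝ) * U) := by rw [hN]; push_cast; ring
  have hHU : (1 : ℝ) ≤ (H : ℝ) * U := by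
    have : (1 : ℕ) ≤ H * U := Nat.mul_pos hH hU
    exact_mod_cast this
  -- step 3: each fibre
  have s3 : ∀ x ∈ A, ((A.filter (fun y => y.1 * y.2 ≡ x.1 * x.2 [MOD m'])).card : ℝ) ≤
      ((N : ℝ) / m' + 1) * (C0 * (N : ℝ) ^ ε) := by
    intro x _
    set T := (range N).filter (fun n => n ≡ x.1 * x.2 [MOD m']) with hT
    have hmaps : Set.MapsTo (fun y : ℕ × ℕ => y.1 * y.2)
        (A.filter (fun y => y.1 * y.2 ≡ x.1 * x.2 [MOD m']) : Finset (ℕ × ℕ)) (T : Finset ℕ) := by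
      intro y hy
      simp only [coe_filter, Set.mem_setOf_eq, hA, mem_product, mem_Ico] at hy
      simp only [hT, coe_filter, mem_range, Set.mem_setOf_eq]
      refine ⟨?_, hy.2⟩
      obtain ⟨⟨⟨h1, h2⟩, h3, h4⟩, _⟩ := hy
      calc y.1 * y.2 < (2 * H) * (2 * U) := by
            exact Nat.mul_lt_mul_of_lt_of_lt h2 h4
        _ = N := by rw [hN]; ring
    have hc := Finset.card_eq_sum_card_fiberwise hmaps
    rw [hc]
    push_cast
    have hfib : ∀ n ∈ T, ((((A.filter (fun y => y.1 * y.2 ≡ x.1 * x.2 [MOD m'])).filter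
        (fun y => y.1 * y.2 = n)).card : ℕ) : ℝ) ≤ C0 * (N : ℝ) ^ ε := by
      intro n hn
      simp only [hT, mem_filter, mem_range] at hn
      by_cases hn0 : n = 0
      · have : ((A.filter (fun y => y.1 * y.2 ≡ x.1 * x.2 [MOD m'])).filter (fun y => y.1 * y.2 = n)) = ∅ := by
          refine Finset.filter_eq_empty_iff.2 ?_
          intro y hy
          simp only [mem_filter, hA, mem_product, mem_Ico] at hy
          have h1 : 0 < y.1 := by omega
          have h2 : 0 < y.2 := by omega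
          rw [hn0]
          exact (Nat.mul_pos h1 h2).ne'
        rw [this]
        simp only [card_empty, Nat.cast_zero]
        positivity
      · have h1 : ((A.filter (fun y => y.1 * y.2 ≡ x.1 * x.2 [MOD m'])).filter
            (fun y => y.1 * y.2 = n)).card ≤ n.divisors.card := by
          refine Finset.card_le_card_of_injOn (fun y => y.1) ?_ ?_
          · intro y hy
            simp only [coe_filter, mem_filter, Set.mem_setOf_eq] at hy
            simp only [mem_coe, Nat.mem_divisors]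
            exact ⟨⟨y.2, hy.2.symm⟩, hn0⟩
          · intro y hy z hz hyz
            simp only [coe_filter, mem_filter, Set.mem_setOf_eq, hA, mem_product, mem_Ico] at hy hz
            have hyz' : y.1 = z.1 := hyz
            have h3 : y.1 * y.2 = y.1 * z.2 := by
              rw [hy.2]; rw [hyz', hz.2]
            have h4 : 0 < y.1 := by omega
            exact Prod.ext hyz' (Nat.eq_of_mul_eq_mul_left h4 h3)
        calc ((((A.filter (fun y => y.1 * y.2 ≡ x.1 * x.2 [MOD m'])).filter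
            (fun y => y.1 * y.2 = n)).card : ℕ) : ℝ) ≤ (n.divisors.card : ℝ) := by exact_mod_cast h1
          _ ≤ C0 * (n : ℝ) ^ ε := hdiv n (Nat.pos_of_ne_zero hn0)
          _ ≤ C0 * (N : ℝ) ^ ε := by
              have h5 : (n : ℝ) ≤ N := by exact_mod_cast hn.1.le
              have h6 : (n : ℝ) ^ ε ≤ (N : ℝ) ^ ε := Real.rpow_le_rpow (by positivity) h5 hε.le
              exact mul_le_mul_of_nonneg_left h6 (by linarith)
    calc ∑ n ∈ T, ((((A.filter (fun y => y.1 * y.2 ≡ x.1 * x.2 [MOD m'])).filter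
        (fun y => y.1 * y.2 = n)).card : ℕ) : ℝ) ≤ ∑ _n ∈ T, C0 * (N : ℝ) ^ ε := sum_le_sum hfib
      _ = (T.card : ℝ) * (C0 * (N : ℝ) ^ ε) := by rw [sum_const, nsmul_eq_mul]
      _ ≤ ((N : ℝ) / m' + 1) * (C0 * (N : ℝ) ^ ε) := by
          refine mul_le_mul_of_nonneg_right (Nuc_class N m' (x.1 * x.2) hm') ?_
          positivity
  have hm'r : (1 : ℝ) ≤ m' := by exact_mod_cast hm'
  calc ((Pr2 H U m f).card : ℝ)
      ≤ ((((A ×ˢ A).filter (fun p => p.2.1 * p.2.2 ≡ p.1.1 * p.1.2 [MOD m'])).card : ℕ) : ℝ) := by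
        exact_mod_cast s1
    _ = ∑ x ∈ A, ((A.filter (fun y => y.1 * y.2 ≡ x.1 * x.2 [MOD m'])).card : ℝ) := by
        rw [s2]; push_cast; rfl
    _ ≤ ∑ _x ∈ A, ((N : ℝ) / m' + 1) * (C0 * (N : ℝ) ^ ε) := sum_le_sum s3
    _ = ((H : ℝ) * U) * (((N : ℝ) / m' + 1) * (C0 * (N : ℝ) ^ ε)) := by
        rw [sum_const, nsmul_eq_mul, hAc]; push_cast; ring
    _ = ((H : ℝ) * U) * (((4 * ((H : ℝ) * U)) / m' + 1) * (C0 * ((4 : ℝ) ^ ε * ((H : ℝ) * U) ^ ε))) := by
        rw [hNr, Real.mul_rpow (by norm_num) (by positivity)]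
    _ ≤ ((H : ℝ) * U) * ((4 * (1 + (H : ℝ) * U / m')) * (C0 * ((4 : ℝ) ^ ε * ((H : ℝ) * U) ^ ε))) := by
        refine mul_le_mul_of_nonneg_left ?_ (by positivity)
        refine mul_le_mul_of_nonneg_right ?_ (by positivity)
        have : (4 * ((H : ℝ) * U)) / m' = 4 * ((H : ℝ) * U / m') := by ring
        rw [this]
        linarith
    _ = _ := by ring

end H69EGD
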