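import Pool.Agent.H69.EGD.Defs

/-!
# POI: Poisson summation for a residue class, truncated

`F(x) = φ((t0 + x M)/T)` is smooth with compact support; its Fourier transform is
`F^(ξ) = ∫ φ((t0 + x M)/T) e(-ξ x) dx = (T/M) e(ξ t0/M) φ^(ξ T/M)` (substitute `z = (t0 + x M)/T`). Poisson:
`∑_{t ≡ t0 (M)} φ(t/T) = ∑_{x ∈ ℤ} F(x) = ∑_{h ∈ ℤ} (T/M) φ^(h T/M) e(h t0/M)`
(all `t ∈ ℤ` with `φ(t/T) ≠ 0` satisfy `0 < t < 2T`, as the support of `φ` is in `(1 - η, 1 + η)`, `η ≤ 1/2`; here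
`T ≥ 1`).
`h = 0` gives `(T/M) ∫ φ`; `h` and `-h` are complex conjugates (`φ` real). The tail: `|φ^(y)| ≤ C |y|^(-K-2)` (`y ≠ 0`), so
`∑_{h > X} (T/M) |φ^(h T/M)| ≤ C (T/M)^(-K-1) ∑_{h ≥ ⌊X⌋ + 1} h^(-K-2) ≤ C' (T/M)^(-K-1) max(X,1)^(-K-1)`. This gives
exponent `K + 1`: with the exponent `K` in the statement it is simplest to use decay `|y|^(-K-1)` for `K ≥ 1`:
`(T/M) ∑_{h > X} (h T/M)^(-K-1) ≤ (T/M)^(-K) X^(-K) ∑ ...` precisely: `∑_{h > X} h^(-K-1) ≤ 2 X^(-K)` for `X > 0`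
(for `X ≥ 1` the first term is at most `X^(-K-1) ≤ X^(-K)` and the others are at most `∫_X^∞ s^(-K-1) ds ≤ X^(-K)`; for `X < 1`
the sum is at most `2 ≤ 2 X^(-K)`).
The proof of `type1` in `Pool/Agent/H69/LB/Ty1.lean` (private lemmas `ty1_decay`, `ty1_class`, `ty1_all`: Poisson for a
residue class and the decay; copy what is useful) is very close to this.
-/

open Finset H69LB EG
open scoped ContDiff FourierTransform

namespace H69EGD

/-- decay of the Fourier transform of a dilated function -/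
private lemma poi_decay {φ : ℝ → ℂ} (h1 : ContDiff ℝ ∞ φ) (h2 : HasCompactSupport φ) (K : ℕ) {l : ℝ}
    (hl : 0 < l) {x : ℝ} (hx : 1 ≤ |x|) (hK : 1 ≤ K) :
    ‖𝓕 (fun t => φ (l * t)) x‖ ≤ 1 / |x| ^ K * (l ^ (K - 1) * ∫ t, ‖iteratedDeriv K φ t‖) := by
  set F : ℝ → ℂ := fun t => φ (l * t) with hF
  have hFc : ContDiff ℝ ∞ F := h1.comp (contDiff_const.mul contDiff_id)
  have hiter : ∀ n : ℕ, iteratedDeriv n F = fun t => (l : ℂ) ^ n * iteratedDeriv n φ (l * t) := by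
    intro n
    have h3 : ContDiff ℝ n φ := h1.of_le (by exact_mod_cast le_top)
    have h4 := iteratedDeriv_comp_const_smul h3 l
    rw [hF, h4]
    funext t
    simp
  have hint : ∀ n : ℕ, MeasureTheory.Integrable (iteratedDeriv n φ) := by
    intro n
    have hc : Continuous (iteratedDeriv n φ) := h1.continuous_iteratedDeriv n (by exact_mod_cast le_top)
    refine hc.integrable_of_hasCompactSupport ?_
    have := h2.iteratedFDeriv (𝕜 := ℝ) n
    rw [iteratedDeriv_eq_equiv_comp]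
    exact this.comp_left (by simp)
  have hintF : ∀ n : ℕ, MeasureTheory.Integrable (iteratedDeriv n F) := by
    intro n
    rw [hiter n]
    exact ((hint n).comp_mul_left' hl.ne').const_mul _
  have hfour := Real.fourier_iteratedDeriv (f := F) (N := ⊤) (n := K) hFc (fun n _ => hintF n) le_top
  have hb : ‖𝓕 (iteratedDeriv K F) x‖ ≤ ∫ t, ‖iteratedDeriv K F t‖ :=
    VectorFourier.norm_fourierIntegral_le_integral_norm _ _ _ _ _
  rw [hfour] at hb
  have hval : ∫ t, ‖iteratedDeriv K F t‖ = l ^ (K - 1) * ∫ t, ‖iteratedDeriv K φ t‖ := by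
    rw [hiter K]
    have : (fun t => ‖(l : ℂ) ^ K * iteratedDeriv K φ (l * t)‖)
        = fun t => l ^ K * ‖iteratedDeriv K φ (l * t)‖ := by
      funext t
      rw [norm_mul, norm_pow, Complex.norm_real, Real.norm_of_nonneg hl.le]
    simp only [this]
    rw [MeasureTheory.integral_const_mul,
      MeasureTheory.Measure.integral_comp_mul_left (fun t => ‖iteratedDeriv K φ t‖) l]
    rw [abs_of_pos (inv_pos.2 hl), smul_eq_mul, ← mul_assoc]
    congr 1
    obtain ⟨m, rfl⟩ : ∃ m, K = m + 1 := ⟨K - 1, by omega⟩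
    rw [Nat.add_sub_cancel, pow_succ]
    field_simp
  rw [hval] at hb
  have hn : ‖((2 : ℂ) * Real.pi * Complex.I * x) ^ K • 𝓕 F x‖ = (2 * Real.pi * |x|) ^ K * ‖𝓕 F x‖ := by
    rw [norm_smul, norm_pow]
    congr 2
    simp [abs_of_pos Real.pi_pos]
  have hb' : (2 * Real.pi * |x|) ^ K * ‖𝓕 F x‖ ≤ l ^ (K - 1) * ∫ t, ‖iteratedDeriv K φ t‖ := by
    rw [← hn]
    exact hb
  have hxp : 0 < |x| ^ K := by positivity
  rw [one_div, inv_mul_eq_div, le_div_iff₀ hxp]
  refine le_trans ?_ hb'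
  rw [mul_comm]
  refine mul_le_mul_of_nonneg_right ?_ (norm_nonneg _)
  refine pow_le_pow_left₀ (abs_nonneg _) ?_ _
  have : 1 ≤ 2 * Real.pi := by linarith [Real.pi_gt_three]
  nlinarith [abs_nonneg x]

/-- scaling of the Fourier transform -/
private lemma poi_scale (φ : ℝ → ℂ) {l : ℝ} (hl : 0 < l) (y : ℝ) :
    𝓕 (fun t => φ (l * t)) y = ((l⁻¹ : ℝ) : ℂ) * 𝓕 φ (y / l) := by
  rw [Real.fourier_real_eq_integral_exp_smul, Real.fourier_real_eq_integral_exp_smul]
  have h := MeasureTheory.Measure.integral_comp_mul_left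
    (fun v => Complex.exp (((-2 * Real.pi * v * (y / l) : ℝ) : ℂ) * Complex.I) • φ v) l
  rw [abs_of_pos (inv_pos.2 hl)] at h
  have e : ∀ v : ℝ, Complex.exp (((-2 * Real.pi * (l * v) * (y / l) : ℝ) : ℂ) * Complex.I) • φ (l * v)
      = Complex.exp (((-2 * Real.pi * v * y : ℝ) : ℂ) * Complex.I) • φ (l * v) := by
    intro v
    have : -2 * Real.pi * (l * v) * (y / l) = -2 * Real.pi * v * y := by field_simp
    rw [this]
  simp only [e] at h
  rw [h, Complex.real_smul]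

/-- the Fourier transform of a real function at a negative argument -/
private lemma poi_conj (φ : ℝ → ℝ) (y : ℝ) :
    (starRingEnd ℂ) (ph φ y) = ph φ (-y) := by
  unfold ph
  rw [Real.fourier_real_eq_integral_exp_smul, Real.fourier_real_eq_integral_exp_smul, ← integral_conj]
  congr 1
  funext v
  rw [smul_eq_mul, smul_eq_mul, map_mul, Complex.conj_ofReal, ← Complex.exp_conj, map_mul, Complex.conj_I,
    Complex.conj_ofReal]
  congr 2
  push_cast
  ring

private lemma poi_zero (φ : ℝ → ℝ) : ph φ 0 = ((∫ x, φ x : ℝ) : ℂ) := by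
  unfold ph
  rw [Real.fourier_real_eq_integral_exp_smul]
  simp only [mul_zero, Complex.ofReal_zero, zero_mul, Complex.exp_zero, one_smul]
  exact integral_ofReal

/-- the tail of the sum -/
private lemma poi_tail {X : ℝ} (hX : 0 < X) {K : ℕ} (hK : 1 ≤ K) {B : ℝ} (hB : 0 ≤ B) (a : ℕ → ℝ)
    (ha : ∀ n : ℕ, 1 ≤ n → |a n| ≤ B * (1 / (n : ℝ) ^ (K + 1))) :
    |∑' n : ℕ, a (n + (⌊X⌋₊ + 1))| ≤ 2 * B * (1 / X ^ K) := by
  set N := ⌊X⌋₊ with hN
  have hXN : X < N + 1 := Nat.lt_floor_add_one X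
  have hb1 : ∀ n : ℕ, |a (n + (N + 1))| ≤ B * (1 / X ^ (K - 1)) * (1 / ((n : ℝ) + (N + 1)) ^ 2) := by
    intro n
    have h1 := ha (n + (N + 1)) (by omega)
    push_cast at h1
    refine h1.trans ?_
    have hp : (0 : ℝ) < (n : ℝ) + (N + 1) := by positivity
    have hXm : X ≤ (n : ℝ) + (N + 1) := by
      have : (0 : ℝ) ≤ n := by positivity
      linarith
    rw [mul_assoc]
    refine mul_le_mul_of_nonneg_left ?_ hB
    have e : ((n : ℝ) + (N + 1)) ^ (K + 1) = ((n : ℝ) + (N + 1)) ^ (K - 1) * ((n : ℝ) + (N + 1)) ^ 2 := by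
      rw [← pow_add]
      congr 1
      omega
    rw [e, one_div_mul_one_div]
    refine one_div_le_one_div_of_le (by positivity) ?_
    refine mul_le_mul_of_nonneg_right ?_ (by positivity)
    exact pow_le_pow_left₀ hX.le hXm _
  have hpart : ∀ k : ℕ, ∑ n ∈ range k, (1 : ℝ) / ((n : ℝ) + (N + 1)) ^ 2
      ≤ 1 / ((N : ℝ) + 1 / 2) - 1 / ((k : ℝ) + N + 1 / 2) := by
    intro k
    induction k with
    | zero => simp
    | succ k ih =>
      rw [sum_range_succ]
      have hp : (0 : ℝ) < (k : ℝ) + N + 1 / 2 := by positivity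
      have hq : (0 : ℝ) < (k : ℝ) + 1 + N + 1 / 2 := by positivity
      have h2 : (1 : ℝ) / ((k : ℝ) + (N + 1)) ^ 2 ≤ 1 / ((k : ℝ) + N + 1 / 2) - 1 / ((k : ℝ) + 1 + N + 1 / 2) := by
        rw [div_sub_div _ _ hp.ne' hq.ne', div_le_div_iff₀ (by positivity) (by positivity)]
        nlinarith
      push_cast
      linarith
  have hsumm : Summable fun n : ℕ => (1 : ℝ) / ((n : ℝ) + (N + 1)) ^ 2 := by
    refine summable_of_sum_range_le (c := 1 / ((N : ℝ) + 1 / 2)) (fun n => by positivity) fun k => ?_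
    refine (hpart k).trans ?_
    have : (0 : ℝ) ≤ 1 / ((k : ℝ) + N + 1 / 2) := by positivity
    linarith
  have hts : ∑' n : ℕ, (1 : ℝ) / ((n : ℝ) + (N + 1)) ^ 2 ≤ 2 / X := by
    refine (Real.tsum_le_of_sum_range_le (c := 1 / ((N : ℝ) + 1 / 2)) (fun n => by positivity) fun k => ?_).trans ?_
    · refine (hpart k).trans ?_
      have : (0 : ℝ) ≤ 1 / ((k : ℝ) + N + 1 / 2) := by positivity
      linarith
    · rw [div_le_div_iff₀ (by positivity) hX]
      have : (0 : ℝ) ≤ N := by positivity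
      linarith
  have h3 : |∑' n : ℕ, a (n + (N + 1))| ≤ ∑' n : ℕ, B * (1 / X ^ (K - 1)) * (1 / ((n : ℝ) + (N + 1)) ^ 2) := by
    have := tsum_of_norm_bounded (f := fun n : ℕ => a (n + (N + 1))) (hsumm.mul_left (B * (1 / X ^ (K - 1)))).hasSum
      (fun n => by rw [Real.norm_eq_abs]; exact hb1 n)
    rwa [Real.norm_eq_abs] at this
  refine h3.trans ?_
  rw [tsum_mul_left]
  calc B * (1 / X ^ (K - 1)) * ∑' n : ℕ, (1 : ℝ) / ((n : ℝ) + (N + 1)) ^ 2
      ≤ B * (1 / X ^ (K - 1)) * (2 / X) := mul_le_mul_of_nonneg_left hts (by positivity)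
    _ = 2 * B * (1 / X ^ K) := by
        obtain ⟨m, rfl⟩ : ∃ m, K = m + 1 := ⟨K - 1, by omega⟩
        rw [Nat.add_sub_cancel, pow_succ]
        field_simp

/-- the sum over the residue class as a sum over all integers -/
private lemma poi_sum {η : ℝ} {φ : ℝ → ℝ} (hφ : Wt η φ) {T : ℝ} (hT : 1 ≤ T) {M : ℕ} (hM : 1 ≤ M) (t0 : ℕ) :
    ∑' j : ℤ, ((φ ((M : ℝ) / T * ((t0 : ℝ) / M + j)) : ℝ) : ℂ) =
      ((∑ t ∈ (range (⌊2 * T⌋₊ + 1)).filter (fun t => t ≡ t0 [MOD M]), φ ((t : ℝ) / T) : ℝ) : ℂ) := by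
  have hT0 : 0 < T := by linarith
  have hM0 : (0 : ℝ) < M := by exact_mod_cast hM
  have hMz : (M : ℤ) ≠ 0 := by exact_mod_cast (by omega : M ≠ 0)
  set S := (range (⌊2 * T⌋₊ + 1)).filter (fun t => t ≡ t0 [MOD M]) with hS
  have hdiv : ∀ t ∈ S, ((M : ℤ) * (((t : ℤ) - t0) / M)) = (t : ℤ) - t0 := by
    intro t ht
    have h1 : t ≡ t0 [MOD M] := (mem_filter.1 ht).2
    have h2 : (M : ℤ) ∣ (t : ℤ) - t0 := (Int.natCast_modEq_iff.2 h1).symm.dvd
    exact Int.mul_ediv_cancel' h2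
  rw [tsum_eq_sum (s := S.image (fun t : ℕ => ((t : ℤ) - t0) / M))]
  · rw [sum_image]
    · push_cast
      refine sum_congr rfl fun t ht => ?_
      have h1 := hdiv t ht
      have h2 : (M : ℝ) * ((((t : ℤ) - t0) / M : ℤ) : ℝ) = (t : ℝ) - t0 := by
        have := congrArg (fun z : ℤ => (z : ℝ)) h1
        push_cast at this ⊢
        exact_mod_cast this
      congr 2
      have h3 : (M : ℝ) / T * ((t0 : ℝ) / M + ((((t : ℤ) - t0) / M : ℤ) : ℝ)) =
          (t0 + (M : ℝ) * ((((t : ℤ) - t0) / M : ℤ) : ℝ)) / T := by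
        field_simp
      rw [h3, h2]
      ring
    · intro s hs t ht hst
      have h1 := hdiv s hs
      have h2 := hdiv t ht
      simp only at hst
      rw [hst, h2] at h1
      have : (s : ℤ) = t := by linarith
      exact_mod_cast this
  · intro j hj
    rw [Complex.ofReal_eq_zero]
    by_contra hne
    refine hj ?_
    have h1 : |(M : ℝ) / T * ((t0 : ℝ) / M + j) - 1| < η := by
      by_contra h
      exact hne (hφ.zero _ (not_lt.1 h))
    have h2 : (M : ℝ) / T * ((t0 : ℝ) / M + j) = (t0 + (M : ℝ) * j) / T := by field_simp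
    rw [h2, abs_lt] at h1
    have hη := hφ.η_le
    have h3 : 1 / 2 < ((t0 : ℝ) + M * j) / T := by linarith [h1.1]
    have h4 : ((t0 : ℝ) + M * j) / T < 3 / 2 := by linarith [h1.2]
    rw [lt_div_iff₀ hT0] at h3
    rw [div_lt_iff₀ hT0] at h4
    have h5 : 0 < (t0 : ℤ) + M * j := by
      have : (0 : ℝ) < (t0 : ℝ) + M * j := by linarith
      exact_mod_cast this
    obtain ⟨t, ht⟩ : ∃ t : ℕ, (t : ℤ) = (t0 : ℤ) + M * j := ⟨((t0 : ℤ) + M * j).toNat, Int.toNat_of_nonneg h5.le⟩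
    have ht' : (t : ℝ) = (t0 : ℝ) + M * j := by exact_mod_cast congrArg (fun z : ℤ => (z : ℝ)) ht
    rw [mem_image]
    refine ⟨t, ?_, ?_⟩
    · rw [hS, mem_filter, mem_range]
      constructor
      · rw [Nat.lt_succ_iff]
        refine Nat.le_floor ?_
        rw [ht']
        linarith
      · rw [← Int.natCast_modEq_iff, ht]
        exact (Int.modEq_iff_dvd.2 ⟨-j, by ring⟩)
    · rw [ht]
      have : (t0 : ℤ) + M * j - t0 = M * j := by ring
      rw [this]
      exact Int.mul_ediv_cancel_left _ hMz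

theorem poi {η : ℝ} {φ : ℝ → ℝ} (hφ : Wt η φ) (K : ℕ) (hK : 1 ≤ K) :
    ∃ C : ℝ, 0 < C ∧ ∀ T : ℝ, 1 ≤ T → ∀ M : ℕ, 1 ≤ M → ∀ t0 : ℕ, ∀ X : ℝ, 0 < X →
      |∑ t ∈ (range (⌊2 * T⌋₊ + 1)).filter (fun t => t ≡ t0 [MOD M]), φ ((t : ℝ) / T) - T * (∫ x, φ x) / M -
        2 * (∑ h ∈ Icc 1 ⌊X⌋₊, ((T / M : ℝ) : ℂ) * ph φ (h * T / M) * ee ((h : ℝ) * t0 / M)).re| ≤
          C * ((M : ℝ) / (T * X)) ^ K := by
  set Φ : ℝ → ℂ := fun x => (φ x : ℂ) with hΦ
  have h1 : ContDiff ℝ ∞ Φ := Complex.ofRealCLM.contDiff.comp hφ.smooth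
  have h2 : HasCompactSupport Φ := by
    refine HasCompactSupport.intro (K := Set.Icc (1 - η) (1 + η)) isCompact_Icc ?_
    intro t ht
    simp only [hΦ]
    rw [hφ.zero t, Complex.ofReal_zero]
    by_contra h
    rw [not_le, abs_lt] at h
    exact ht ⟨by linarith [h.1], by linarith [h.2]⟩
  set I : ℝ := ∫ t, ‖iteratedDeriv (K + 1) Φ t‖ with hI
  have hI0 : 0 ≤ I := MeasureTheory.integral_nonneg fun t => norm_nonneg _
  refine ⟨4 * I + 1, by positivity, ?_⟩
  intro T hT M hM t0 X hX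
  have hT0 : 0 < T := by linarith
  have hM0 : (0 : ℝ) < M := by exact_mod_cast hM
  set l : ℝ := (M : ℝ) / T with hl
  have hl0 : 0 < l := by positivity
  set x : ℝ := (t0 : ℝ) / M with hx
  have hFc : ContDiff ℝ ∞ (fun t => Φ (l * t)) := h1.comp (contDiff_const.mul contDiff_id)
  have hFs : HasCompactSupport (fun t => Φ (l * t)) := h2.comp_homeomorph (Homeomorph.mulLeft₀ l hl0.ne')
  have hP := SchwartzMap.tsum_eq_tsum_fourier (hFs.toSchwartzMap hFc) x
  have e1 : ∀ t, (hFs.toSchwartzMap hFc) t = Φ (l * t) := fun t => rfl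
  have e2 : ∀ t : ℝ, 𝓕 (hFs.toSchwartzMap hFc) t = 𝓕 (fun t => Φ (l * t)) t := by
    intro t
    rw [SchwartzMap.fourier_coe]
    rfl
  simp only [e1, e2] at hP
  set a : ℤ → ℂ := fun n => 𝓕 (fun t => Φ (l * t)) (n : ℝ) * fourier n (x : UnitAddCircle) with ha
  have hfn : ∀ n : ℤ, ‖(fourier n (x : UnitAddCircle) : ℂ)‖ = 1 := by
    intro n
    rw [fourier_apply]
    exact Circle.norm_coe _
  have hbd : ∀ n : ℤ, n ≠ 0 → ‖a n‖ ≤ 1 / |(n : ℝ)| ^ (K + 1) * (l ^ K * I) := by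
    intro n hn
    simp only [ha]
    rw [norm_mul, hfn, mul_one]
    have := poi_decay h1 h2 (K + 1) hl0 (x := (n : ℝ)) (by exact_mod_cast Int.one_le_abs hn) (by omega)
    rwa [Nat.add_sub_cancel] at this
  have hsum : Summable fun n : ℤ => 1 / |(n : ℝ)| ^ (K + 1) * (l ^ K * I) := by
    refine Summable.mul_right _ ?_
    exact ((Real.summable_one_div_int_pow (p := K + 1)).2 (by omega)).norm.congr (by intro n; simp)
  have hs0 : Summable a := by
    refine Summable.of_norm_bounded_eventually (g := fun n : ℤ => 1 / |(n : ℝ)| ^ (K + 1) * (l ^ K * I)) hsum ?_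
    rw [Filter.eventually_cofinite]
    refine (Set.finite_singleton (0 : ℤ)).subset ?_
    intro n hn
    by_contra h
    exact hn (hbd n h)
  have hval : ∀ n : ℤ, a n = ((T / M : ℝ) : ℂ) * ph φ (n * T / M) * ee ((n : ℝ) * t0 / M) := by
    intro n
    simp only [ha]
    rw [poi_scale Φ hl0]
    congr 1
    · have hl2 : l⁻¹ = T / M := by rw [hl, inv_div]
      have hl3 : (n : ℝ) / l = n * T / M := by rw [hl]; field_simp
      rw [hl2, hl3]
      rfl
    · rw [fourier_coe_apply]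
      unfold ee
      congr 1
      rw [hx]
      push_cast
      ring
  have hconj : ∀ n : ℕ, (a (-(n : ℤ))).re = (a n).re := by
    intro n
    have : a (-(n : ℤ)) = (starRingEnd ℂ) (a n) := by
      rw [hval, hval, map_mul, map_mul, Complex.conj_ofReal, poi_conj, conj_ee]
      congr 2
      · congr 1
        push_cast
        ring
      · push_cast
        ring
    rw [this, Complex.conj_re]
  have hsN := hs0.hasSum.nat_add_neg
  have hsR : HasSum (fun n : ℕ => 2 * (a n).re) ((∑' n : ℤ, a n).re + (a 0).re) := by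
    have h := Complex.hasSum_re hsN
    rw [Complex.add_re] at h
    have e : (fun n : ℕ => (a n + a (-(n : ℤ))).re) = fun n : ℕ => 2 * (a n).re := by
      funext n
      rw [Complex.add_re, hconj n]
      ring
    rwa [e] at h
  set b : ℕ → ℝ := fun n => (a n).re with hb
  have hbs : Summable b := by
    have := hsR.summable.mul_left (1 / 2)
    refine this.congr fun n => ?_
    simp only [hb]
    ring
  have hb2 : 2 * ∑' n : ℕ, b n = (∑' n : ℤ, a n).re + (a 0).re := by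
    rw [← tsum_mul_left]
    exact hsR.tsum_eq
  have hsplit := hbs.sum_add_tsum_nat_add (⌊X⌋₊ + 1)
  have hrange : ∑ n ∈ range (⌊X⌋₊ + 1), b n = b 0 + ∑ n ∈ Icc 1 ⌊X⌋₊, b n := by
    rw [sum_range_succ', add_comm]
    congr 1
    rw [range_eq_Ico, sum_Ico_add' (fun n => b n) 0 ⌊X⌋₊ 1]
    rfl
  have htail := poi_tail hX hK (B := l ^ K * I) (by positivity) b (by
    intro n hn
    have h := hbd (n : ℤ) (by exact_mod_cast (by omega : n ≠ 0))
    refine (Complex.abs_re_le_norm _).trans (h.trans (le_of_eq ?_))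
    have : |((n : ℤ) : ℝ)| = (n : ℝ) := by
      rw [Int.cast_natCast, Nat.abs_cast]
    rw [this]
    ring)
  have hb0 : b 0 = T * (∫ x, φ x) / M := by
    simp only [hb]
    rw [hval]
    have e3 : (((((0 : ℕ) : ℤ)) : ℝ) * T / M) = 0 := by simp
    have e4 : (((((0 : ℕ) : ℤ)) : ℝ) * t0 / M) = 0 := by simp
    rw [e3, e4, ee_zero, mul_one, poi_zero, ← Complex.ofReal_mul, Complex.ofReal_re]
    ring
  have ha0 : (a 0).re = b 0 := by simp [hb]
  have hS := poi_sum hφ hT hM t0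
  have hS' : (∑' n : ℤ, a n) =
      ((∑ t ∈ (range (⌊2 * T⌋₊ + 1)).filter (fun t => t ≡ t0 [MOD M]), φ ((t : ℝ) / T) : ℝ) : ℂ) := by
    rw [← hS, ← hP]
  have hSre := congrArg Complex.re hS'
  rw [Complex.ofReal_re] at hSre
  have hIcc : (∑ h ∈ Icc 1 ⌊X⌋₊, ((T / M : ℝ) : ℂ) * ph φ (h * T / M) * ee ((h : ℝ) * t0 / M)).re
      = ∑ n ∈ Icc 1 ⌊X⌋₊, b n := by
    rw [Complex.re_sum]
    refine sum_congr rfl fun n _ => ?_
    simp only [hb]
    rw [hval]
    simp
  rw [hIcc, ← hSre, ← hb0]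
  have hkey : (∑' n : ℤ, a n).re - b 0 - 2 * ∑ n ∈ Icc 1 ⌊X⌋₊, b n = 2 * ∑' n : ℕ, b (n + (⌊X⌋₊ + 1)) := by
    rw [ha0] at hb2
    rw [hrange] at hsplit
    linarith
  rw [hkey, abs_mul, abs_of_pos (by norm_num : (0 : ℝ) < 2)]
  have hfin : 2 * (2 * (l ^ K * I) * (1 / X ^ K)) = 4 * I * ((M : ℝ) / (T * X)) ^ K := by
    have : (M : ℝ) / (T * X) = l / X := by rw [hl]; field_simp
    rw [this, div_pow]
    ring
  calc 2 * |∑' n : ℕ, b (n + (⌊X⌋₊ + 1))| ≤ 2 * (2 * (l ^ K * I) * (1 / X ^ K)) := by linarith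
    _ = 4 * I * ((M : ℝ) / (T * X)) ^ K := hfin
    _ ≤ (4 * I + 1) * ((M : ℝ) / (T * X)) ^ K := by
        have : 0 ≤ ((M : ℝ) / (T * X)) ^ K := by positivity
        nlinarith

end H69EGD
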