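import Pool.Agent.H69.EGD.Hol
import Pool.Agent.H69.EGD.Nuc
import Pool.Agent.H69.EGD.Cn1

/-!
# TRI: the trilinear sum, averaged over the modulus

Let `x_E` be the norm. `(∑_{E ∈ EE} x_E)^4 ≤ E0^3 ∑ x_E^4` (at most `E0` terms, power mean `inner_le_nnorm_mul_nnorm`
or `inv_sum_le`, e.g. `Finset.inner_mul_le_norm_mul_norm` twice / `inner_le_Lp_mul_Lq`; simplest: Cauchy-Schwarz twice
`(∑ x)^2 ≤ n ∑ x²`, `(∑ x²)² ≤ n ∑ x⁴`). By `hol` with `m = a E q`, `nuc` (with `ε/2`, `m' = E`, `f E` coprime to `E`,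
`1 + H U/E ≤ 1 + H U/E0`, `(H U)^(ε/2) ≤ Z^ε`) and `N4c V (a E q) ≤ N4c V E` (a multiple of `E` divides less),
`x_E^4 ≤ (H U)^2 · C Z^ε (H U) (1 + H U/E0) · 2 a E0 q · N4c V E`, and `∑_E N4c V E ≤ C Z^ε (V^4 + E0 V^2)` by `cn1`
(so start with `ε/4` or so everywhere).
-/

open Finset H69LB EG

namespace H69EGD

theorem tri_pm (s : Finset ℕ) (x : ℕ → ℝ) (n : ℝ) (hn : (s.card : ℝ) ≤ n) :
    (∑ i ∈ s, x i) ^ 4 ≤ n ^ 3 * ∑ i ∈ s, x i ^ 4 := by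
  have hc : (0 : ℝ) ≤ s.card := Nat.cast_nonneg _
  have hn0 : 0 ≤ n := hc.trans hn
  have h1 : (∑ i ∈ s, x i) ^ 2 ≤ n * ∑ i ∈ s, x i ^ 2 :=
    sq_sum_le_card_mul_sum_sq.trans (mul_le_mul_of_nonneg_right hn (Finset.sum_nonneg (fun i _ => sq_nonneg _)))
  have h2 : (∑ i ∈ s, x i ^ 2) ^ 2 ≤ n * ∑ i ∈ s, (x i ^ 2) ^ 2 :=
    sq_sum_le_card_mul_sum_sq.trans (mul_le_mul_of_nonneg_right hn (Finset.sum_nonneg (fun i _ => sq_nonneg _)))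
  calc (∑ i ∈ s, x i) ^ 4 = ((∑ i ∈ s, x i) ^ 2) ^ 2 := by ring
    _ ≤ (n * ∑ i ∈ s, x i ^ 2) ^ 2 := pow_le_pow_left₀ (sq_nonneg _) h1 2
    _ = n ^ 2 * (∑ i ∈ s, x i ^ 2) ^ 2 := by ring
    _ ≤ n ^ 2 * (n * ∑ i ∈ s, (x i ^ 2) ^ 2) := mul_le_mul_of_nonneg_left h2 (sq_nonneg _)
    _ = n ^ 3 * ∑ i ∈ s, x i ^ 4 := by
        have : ∑ i ∈ s, (x i ^ 2) ^ 2 = ∑ i ∈ s, x i ^ 4 :=
          Finset.sum_congr rfl (fun i _ => by ring)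
        rw [this]; ring

theorem tri_N (V m E : ℕ) (h : E ∣ m) : (N4c V m : ℝ) ≤ (N4c V E : ℝ) := by
  unfold N4c
  have : ((box V).filter (fun v => (m : ℤ) ∣ N4 v)) ⊆ ((box V).filter (fun v => (E : ℤ) ∣ N4 v)) := by
    intro v hv
    rw [Finset.mem_filter] at hv ⊢
    exact ⟨hv.1, (Int.natCast_dvd_natCast.mpr h).trans hv.2⟩
  exact_mod_cast Finset.card_le_card this

theorem tri (ε : ℝ) (hε : 0 < ε) : ∃ C : ℝ, 0 < C ∧ ∀ a q E0 H U V G : ℕ, 1 ≤ a → 1 ≤ q → 1 ≤ E0 → 1 ≤ H → 1 ≤ U →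
    1 ≤ V → ∀ Z : ℝ, (H : ℝ) ≤ Z → (U : ℝ) ≤ Z → (V : ℝ) ≤ Z →
    ∀ EE : Finset ℕ, EE ⊆ Ico E0 (2 * E0) → ∀ f : ℕ → ℕ, (∀ E ∈ EE, Nat.Coprime (f E) E) →
    (∀ E ∈ EE, Nat.Coprime G (a * E * q)) → ∀ γ β β' : ℕ → ℕ → ℂ,
    (∀ E h, ‖γ E h‖ ≤ 1) → (∀ E u, ‖β E u‖ ≤ 1) → (∀ E v, ‖β' E v‖ ≤ 1) →
    (∀ E ∈ EE, ∀ u, β E u ≠ 0 → Nat.Coprime u (a * E * q)) → (∀ E ∈ EE, ∀ v, β' E v ≠ 0 → Nat.Coprime v (a * E * q)) →
    (∑ E ∈ EE, ‖∑ h ∈ Ico H (2 * H), ∑ u ∈ Ico U (2 * U), ∑ v ∈ Ico V (2 * V), γ E h * β E u * β' E v *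
      chi (a * E * q) ((h : ZMod (a * E * q)) * (f E : ZMod (a * E * q)) *
        ((G * u * v : ℕ) : ZMod (a * E * q))⁻¹)‖) ^ 4 ≤
      C * Z ^ ε * (E0 : ℝ) ^ 4 * ((H : ℝ) * U) ^ 3 * (1 + (H : ℝ) * U / E0) * ((a : ℝ) * q) *
        ((V : ℝ) ^ 4 + E0 * (V : ℝ) ^ 2) := by
  classical
  obtain ⟨C1, hC1, hnuc⟩ := nuc (ε / 4) (by positivity)
  obtain ⟨C2, hC2, hcn⟩ := cn1 (ε / 2) (by positivity)
  refine ⟨2 * C1 * C2, by positivity, ?_⟩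
  intro a q E0 H U V G ha hq hE0 hH hU hV Z hHZ hUZ hVZ EE hEE f hf hG γ β β' h1 h2 h3 h4 h5
  have haR : (1 : ℝ) ≤ a := by exact_mod_cast ha
  have hqR : (1 : ℝ) ≤ q := by exact_mod_cast hq
  have hE0R : (1 : ℝ) ≤ E0 := by exact_mod_cast hE0
  have hHR : (1 : ℝ) ≤ H := by exact_mod_cast hH
  have hUR : (1 : ℝ) ≤ U := by exact_mod_cast hU
  have hVR : (1 : ℝ) ≤ V := by exact_mod_cast hV
  have hZ1 : (1 : ℝ) ≤ Z := hVR.trans hVZ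
  have hZ0 : (0 : ℝ) < Z := by linarith
  have hHU : (0 : ℝ) < (H : ℝ) * U := by positivity
  set x : ℕ → ℝ := fun E => ‖∑ h ∈ Ico H (2 * H), ∑ u ∈ Ico U (2 * U), ∑ v ∈ Ico V (2 * V), γ E h * β E u * β' E v *
      chi (a * E * q) ((h : ZMod (a * E * q)) * (f E : ZMod (a * E * q)) *
        ((G * u * v : ℕ) : ZMod (a * E * q))⁻¹)‖ with hx
  have hcard : (EE.card : ℝ) ≤ E0 := by
    have h6 := Finset.card_le_card hEE
    rw [Nat.card_Ico] at h6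
    have h7 : EE.card ≤ E0 := by omega
    exact_mod_cast h7
  have hpm := tri_pm EE x E0 hcard
  set T : ℝ := ((H : ℝ) * U) ^ 2 * (C1 * Z ^ (ε / 2) * ((H : ℝ) * U) * (1 + (H : ℝ) * U / E0)) *
    (a * (2 * E0) * q) with hT
  have hT0 : 0 ≤ T := by positivity
  have hterm : ∀ E ∈ EE, x E ^ 4 ≤ T * (N4c V E : ℝ) := by
    intro E hE
    have hE' := Finset.mem_Ico.mp (hEE hE)
    have hE1 : 1 ≤ E := hE0.trans hE'.1
    have hER : (E0 : ℝ) ≤ E := by exact_mod_cast hE'.1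
    have hER2 : (E : ℝ) ≤ 2 * E0 := by exact_mod_cast hE'.2.le
    have hm1 : 1 ≤ a * E * q := Nat.mul_pos (Nat.mul_pos ha hE1) hq
    have _ne : NeZero (a * E * q) := ⟨by omega⟩
    have hEm : E ∣ a * E * q := Dvd.dvd.mul_right (Dvd.intro_left a rfl) q
    have hh := hol (m := a * E * q) H U V (f E) G (hG E hE) (γ E) (β E) (β' E) (h1 E) (h2 E) (h3 E)
      (h4 E hE) (h5 E hE)
    have hn := hnuc (a * E * q) E H U (f E) hm1 hEm hH hU (hf E hE)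
    have hn2 : ((Pr2 H U (a * E * q) (f E)).card : ℝ) ≤ C1 * Z ^ (ε / 2) * ((H : ℝ) * U) * (1 + (H : ℝ) * U / E0) := by
      refine hn.trans ?_
      have h8 : ((H : ℝ) * U) ^ (ε / 4) ≤ Z ^ (ε / 2) := by
        have h9 : (H : ℝ) * U ≤ Z ^ (2 : ℝ) := by
          have h10 : (H : ℝ) * U ≤ Z * Z := mul_le_mul hHZ hUZ (by positivity) hZ0.le
          have h11 : Z ^ (2 : ℝ) = Z * Z := by
            rw [Real.rpow_two]; ring
          rw [h11]; exact h10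
        calc ((H : ℝ) * U) ^ (ε / 4) ≤ (Z ^ (2 : ℝ)) ^ (ε / 4) :=
              Real.rpow_le_rpow hHU.le h9 (by positivity)
          _ = Z ^ (ε / 2) := by
              rw [← Real.rpow_mul hZ0.le]
              congr 1
              ring
      have h12 : (H : ℝ) * U / E ≤ (H : ℝ) * U / E0 :=
        div_le_div_of_nonneg_left hHU.le (by linarith) hER
      have h13 : 0 ≤ (H : ℝ) * U / E := by positivity
      apply mul_le_mul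
      · apply mul_le_mul_of_nonneg_right _ hHU.le
        exact mul_le_mul_of_nonneg_left h8 hC1.le
      · linarith
      · linarith
      · positivity
    have hm2 : ((a * E * q : ℕ) : ℝ) ≤ a * (2 * E0) * q := by
      push_cast
      apply mul_le_mul_of_nonneg_right _ (by linarith)
      exact mul_le_mul_of_nonneg_left hER2 (by linarith)
    calc x E ^ 4 ≤ ((H : ℝ) * U) ^ 2 * ((Pr2 H U (a * E * q) (f E)).card : ℝ) *
          (((a * E * q : ℕ) : ℝ) * (N4c V (a * E * q) : ℝ)) := hh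
      _ ≤ ((H : ℝ) * U) ^ 2 * (C1 * Z ^ (ε / 2) * ((H : ℝ) * U) * (1 + (H : ℝ) * U / E0)) *
          ((a * (2 * E0) * q) * (N4c V E : ℝ)) := by
          apply mul_le_mul
          · exact mul_le_mul_of_nonneg_left hn2 (by positivity)
          · exact mul_le_mul hm2 (tri_N V _ E hEm) (by positivity) (by positivity)
          · positivity
          · positivity
      _ = T * (N4c V E : ℝ) := by rw [hT]; ring
  have hsum : ∑ E ∈ EE, x E ^ 4 ≤ T * (C2 * Z ^ (ε / 2) * ((V : ℝ) ^ 4 + E0 * (V : ℝ) ^ 2)) := by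
    calc ∑ E ∈ EE, x E ^ 4 ≤ ∑ E ∈ EE, T * (N4c V E : ℝ) := Finset.sum_le_sum hterm
      _ = T * ∑ E ∈ EE, (N4c V E : ℝ) := by rw [Finset.mul_sum]
      _ ≤ T * ∑ E ∈ Ico E0 (2 * E0), (N4c V E : ℝ) := by
          apply mul_le_mul_of_nonneg_left _ hT0
          exact Finset.sum_le_sum_of_subset_of_nonneg hEE (fun _ _ _ => Nat.cast_nonneg _)
      _ ≤ T * (C2 * Z ^ (ε / 2) * ((V : ℝ) ^ 4 + E0 * (V : ℝ) ^ 2)) := by
          apply mul_le_mul_of_nonneg_left _ hT0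
          refine (hcn E0 V hE0 hV).trans ?_
          apply mul_le_mul_of_nonneg_right _ (by positivity)
          apply mul_le_mul_of_nonneg_left _ hC2.le
          exact Real.rpow_le_rpow (by linarith) hVZ (by positivity)
  have hZZ : Z ^ ε = Z ^ (ε / 2) * Z ^ (ε / 2) := by
    rw [← Real.rpow_add hZ0]
    congr 1
    ring
  calc (∑ E ∈ EE, x E) ^ 4 ≤ (E0 : ℝ) ^ 3 * ∑ E ∈ EE, x E ^ 4 := hpm
    _ ≤ (E0 : ℝ) ^ 3 * (T * (C2 * Z ^ (ε / 2) * ((V : ℝ) ^ 4 + E0 * (V : ℝ) ^ 2))) :=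
        mul_le_mul_of_nonneg_left hsum (by positivity)
    _ = 2 * C1 * C2 * Z ^ ε * (E0 : ℝ) ^ 4 * ((H : ℝ) * U) ^ 3 * (1 + (H : ℝ) * U / E0) * ((a : ℝ) * q) *
        ((V : ℝ) ^ 4 + E0 * (V : ℝ) ^ 2) := by
        rw [hZZ, hT]
        ring

end H69EGD
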