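import Pool.Agent.H69.EGD.Tri

/-!
# ZXI: the same with weights and all frequencies up to `X`

Split `h ∈ [1, X]` into `h ∈ [2^s, 2^(s+1))`, `0 ≤ s ≤ log2 X` (the coefficient is `0` for `h > X`). For a block with `H = 2^s ≤ X`
the coefficients `H^(1/2) γ`, `U^(1/2) β`, `V^(1/2) β'` have norm at most `1`, so by `tri` (with `ε/2`) the fourth power of the block is
at most `(H U V)^(-2) C Z^(ε/2) E0^4 (H U)^3 (1 + H U/E0) (a q) (V^4 + E0 V^2)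
 = C Z^(ε/2) (a q) E0^4 H U (1 + H U/E0) (V^2 + E0) ≤ C Z^(ε/2) (a q) E0^4 X U (1 + X U/E0) (V^2 + E0) =: B`. There are
`n ≤ 1 + log2 X ≤ 2 + 2 log Z` blocks; so the fourth power of the sum is at most `n^4 B` and `n^4 ≤ C Z^(ε/2)`.
-/

open Finset H69LB EG

namespace H69EGD

theorem zxi_ico (g : ℕ → ℂ) (n : ℕ) :
    ∑ h ∈ Ico 1 (2 ^ n), g h = ∑ s ∈ range n, ∑ h ∈ Ico (2 ^ s) (2 * 2 ^ s), g h := by
  induction n with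
  | zero => simp
  | succ n ih =>
    rw [sum_range_succ, ← ih, pow_succ, mul_comm (2 ^ n) 2]
    exact (sum_Ico_consecutive g (Nat.one_le_two_pow) (by omega)).symm

theorem zxi_split (N : ℕ) (g : ℕ → ℂ) :
    ∑ h ∈ Icc 1 N, g h = ∑ s ∈ range (Nat.log 2 N + 1), ∑ h ∈ Ico (2 ^ s) (2 * 2 ^ s),
      (if h ≤ N then g h else 0) := by
  rw [← zxi_ico (fun h => if h ≤ N then g h else 0), ← sum_filter]
  refine sum_congr ?_ (fun _ _ => rfl)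
  have hN : N < 2 ^ (Nat.log 2 N + 1) := Nat.lt_pow_succ_log_self (by norm_num) N
  ext h
  simp only [mem_Icc, mem_filter, mem_Ico]
  omega

theorem zxi_pow4 {ι : Type*} (S : Finset ι) (Y : ι → ℝ) (B : ℝ) (hB : 0 ≤ B)
    (h0 : ∀ s ∈ S, 0 ≤ Y s) (h : ∀ s ∈ S, Y s ^ 4 ≤ B) : (∑ s ∈ S, Y s) ^ 4 ≤ (S.card : ℝ) ^ 4 * B := by
  have h1 : ∀ s ∈ S, Y s ≤ √(√B) := by
    intro s hs
    refine Real.le_sqrt_of_sq_le (Real.le_sqrt_of_sq_le ?_)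
    have := h s hs
    calc (Y s ^ 2) ^ 2 = Y s ^ 4 := by ring
      _ ≤ B := this
  have h2 : ∑ s ∈ S, Y s ≤ S.card * √(√B) := by
    have := sum_le_card_nsmul S Y (√(√B)) h1
    simpa [nsmul_eq_mul] using this
  have h3 : (√(√B)) ^ 4 = B := by
    have e1 : (√(√B)) ^ 2 = √B := Real.sq_sqrt (Real.sqrt_nonneg _)
    have e2 : (√B) ^ 2 = B := Real.sq_sqrt hB
    calc (√(√B)) ^ 4 = ((√(√B)) ^ 2) ^ 2 := by ring
      _ = B := by rw [e1, e2]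
  calc (∑ s ∈ S, Y s) ^ 4 ≤ (S.card * √(√B)) ^ 4 := pow_le_pow_left₀ (sum_nonneg h0) h2 4
    _ = (S.card : ℝ) ^ 4 * (√(√B)) ^ 4 := by ring
    _ = _ := by rw [h3]

theorem zxi_log (δ : ℝ) (hδ : 0 < δ) : ∃ C : ℝ, 0 < C ∧ ∀ (N : ℕ) (Z : ℝ), 1 ≤ N → (N : ℝ) ≤ Z →
    ((Nat.log 2 N + 1 : ℕ) : ℝ) ^ 4 ≤ C * Z ^ δ := by
  have hl2 : 0 < Real.log 2 := Real.log_pos (by norm_num)
  refine ⟨(1 + 1 / (δ / 4 * Real.log 2)) ^ 4, by positivity, ?_⟩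
  intro N Z hN hNZ
  have hN1 : (1 : ℝ) ≤ N := by exact_mod_cast hN
  have hZ1 : 1 ≤ Z := hN1.trans hNZ
  have hZ0 : 0 < Z := by linarith
  have h1 : ((2 : ℝ)) ^ (Nat.log 2 N) ≤ N := by
    have := Nat.pow_log_le_self 2 (show N ≠ 0 by omega)
    exact_mod_cast this
  have h2 : (Nat.log 2 N : ℝ) * Real.log 2 ≤ Real.log Z := by
    rw [← Real.log_pow]
    exact Real.log_le_log (by positivity) (h1.trans hNZ)
  have h3 : Real.log Z ≤ Z ^ (δ / 4) / (δ / 4) := Real.log_le_rpow_div hZ0.le (by positivity)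
  have h4 : (1 : ℝ) ≤ Z ^ (δ / 4) := Real.one_le_rpow hZ1 (by positivity)
  have h5 : (Nat.log 2 N : ℝ) ≤ 1 / (δ / 4 * Real.log 2) * Z ^ (δ / 4) := by
    have e : (1 / (δ / 4 * Real.log 2) * Z ^ (δ / 4)) * Real.log 2 = Z ^ (δ / 4) / (δ / 4) := by
      field_simp
    have : (Nat.log 2 N : ℝ) * Real.log 2 ≤ (1 / (δ / 4 * Real.log 2) * Z ^ (δ / 4)) * Real.log 2 := by
      rw [e]; exact h2.trans h3
    exact le_of_mul_le_mul_right this hl2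
  have h6 : ((Nat.log 2 N + 1 : ℕ) : ℝ) ≤ (1 + 1 / (δ / 4 * Real.log 2)) * Z ^ (δ / 4) := by
    push_cast
    rw [add_mul, one_mul]
    linarith
  have h7 : (Z ^ (δ / 4)) ^ 4 = Z ^ δ := by
    rw [← Real.rpow_natCast, ← Real.rpow_mul hZ0.le]
    congr 1
    push_cast
    ring
  calc ((Nat.log 2 N + 1 : ℕ) : ℝ) ^ 4 ≤ ((1 + 1 / (δ / 4 * Real.log 2)) * Z ^ (δ / 4)) ^ 4 :=
        pow_le_pow_left₀ (by positivity) h6 4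
    _ = (1 + 1 / (δ / 4 * Real.log 2)) ^ 4 * (Z ^ (δ / 4)) ^ 4 := by ring
    _ = _ := by rw [h7]

theorem zxi_coef (H : ℕ) (hH : 1 ≤ H) (z : ℕ → ℂ) (hz : ∀ h, 1 ≤ h → ‖z h‖ ≤ 1 / Real.sqrt h) (P : ℕ → Prop)
    [DecidablePred P] (h : ℕ) : ‖(if H ≤ h ∧ P h then ((Real.sqrt H : ℝ) : ℂ) * z h else 0)‖ ≤ 1 := by
  split_ifs with hc
  · have h1 : 1 ≤ h := hH.trans hc.1
    have hH' : (0 : ℝ) < H := by exact_mod_cast hH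
    have hh' : (0 : ℝ) < h := by exact_mod_cast h1
    have hs : 0 < Real.sqrt h := Real.sqrt_pos.2 hh'
    have hle : Real.sqrt H ≤ Real.sqrt h := Real.sqrt_le_sqrt (by exact_mod_cast hc.1)
    rw [norm_mul, Complex.norm_real, Real.norm_of_nonneg (Real.sqrt_nonneg _)]
    calc Real.sqrt H * ‖z h‖ ≤ Real.sqrt h * (1 / Real.sqrt h) :=
          mul_le_mul hle (hz h h1) (norm_nonneg _) hs.le
      _ = 1 := by field_simp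
  · simp

theorem zxi_block (ε C : ℝ) (hT : ∀ a q E0 H U V G : ℕ, 1 ≤ a → 1 ≤ q → 1 ≤ E0 → 1 ≤ H → 1 ≤ U →
    1 ≤ V → ∀ Z : ℝ, (H : ℝ) ≤ Z → (U : ℝ) ≤ Z → (V : ℝ) ≤ Z →
    ∀ EE : Finset ℕ, EE ⊆ Ico E0 (2 * E0) → ∀ f : ℕ → ℕ, (∀ E ∈ EE, Nat.Coprime (f E) E) →
    (∀ E ∈ EE, Nat.Coprime G (a * E * q)) → ∀ γ β β' : ℕ → ℕ → ℂ,
    (∀ E h, ‖γ E h‖ ≤ 1) → (∀ E u, ‖β E u‖ ≤ 1) → (∀ E v, ‖β' E v‖ ≤ 1) →
    (∀ E ∈ EE, ∀ u, β E u ≠ 0 → Nat.Coprime u (a * E * q)) → (∀ E ∈ EE, ∀ v, β' E v ≠ 0 → Nat.Coprime v (a * E * q)) →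
    (∑ E ∈ EE, ‖∑ h ∈ Ico H (2 * H), ∑ u ∈ Ico U (2 * U), ∑ v ∈ Ico V (2 * V), γ E h * β E u * β' E v *
      chi (a * E * q) ((h : ZMod (a * E * q)) * (f E : ZMod (a * E * q)) *
        ((G * u * v : ℕ) : ZMod (a * E * q))⁻¹)‖) ^ 4 ≤
      C * Z ^ ε * (E0 : ℝ) ^ 4 * ((H : ℝ) * U) ^ 3 * (1 + (H : ℝ) * U / E0) * ((a : ℝ) * q) *
        ((V : ℝ) ^ 4 + E0 * (V : ℝ) ^ 2))
    {a q E0 H U V G : ℕ} (ha : 1 ≤ a) (hq : 1 ≤ q) (hE0 : 1 ≤ E0) (hH : 1 ≤ H) (hU : 1 ≤ U) (hV : 1 ≤ V)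
    {Z : ℝ} (hHZ : (H : ℝ) ≤ Z) (hUZ : (U : ℝ) ≤ Z) (hVZ : (V : ℝ) ≤ Z)
    {EE : Finset ℕ} (hEE : EE ⊆ Ico E0 (2 * E0)) {f : ℕ → ℕ} (hf : ∀ E ∈ EE, Nat.Coprime (f E) E)
    (hG : ∀ E ∈ EE, Nat.Coprime G (a * E * q)) {γ β β' : ℕ → ℕ → ℂ}
    (hγ : ∀ E h, 1 ≤ h → ‖γ E h‖ ≤ 1 / Real.sqrt h) (hβ : ∀ E u, 1 ≤ u → ‖β E u‖ ≤ 1 / Real.sqrt u)
    (hβ' : ∀ E v, 1 ≤ v → ‖β' E v‖ ≤ 1 / Real.sqrt v)
    (hc : ∀ E ∈ EE, ∀ u, β E u ≠ 0 → Nat.Coprime u (a * E * q))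
    (hc' : ∀ E ∈ EE, ∀ v, β' E v ≠ 0 → Nat.Coprime v (a * E * q)) (N : ℕ) :
    (∑ E ∈ EE, ‖∑ h ∈ Ico H (2 * H), (if h ≤ N then ∑ u ∈ Ico U (2 * U), ∑ v ∈ Ico V (2 * V), γ E h * β E u * β' E v *
      chi (a * E * q) ((h : ZMod (a * E * q)) * (f E : ZMod (a * E * q)) *
        ((G * u * v : ℕ) : ZMod (a * E * q))⁻¹) else 0)‖) ^ 4 ≤
      C * Z ^ ε * (E0 : ℝ) ^ 4 * ((H : ℝ) * U) * (1 + (H : ℝ) * U / E0) * ((a : ℝ) * q) *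
        ((V : ℝ) ^ 2 + E0) := by
  have hH' : (0 : ℝ) < H := by exact_mod_cast hH
  have hU' : (0 : ℝ) < U := by exact_mod_cast hU
  have hV' : (0 : ℝ) < V := by exact_mod_cast hV
  set R : ℝ := Real.sqrt H * Real.sqrt U * Real.sqrt V with hR
  have hR0 : 0 < R := by
    have h1 := Real.sqrt_pos.2 hH'
    have h2 := Real.sqrt_pos.2 hU'
    have h3 := Real.sqrt_pos.2 hV'
    positivity
  have hR4 : R ^ 4 = ((H : ℝ) * U * V) ^ 2 := by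
    have e1 : (Real.sqrt H) ^ 2 = (H : ℝ) := Real.sq_sqrt hH'.le
    have e2 : (Real.sqrt U) ^ 2 = (U : ℝ) := Real.sq_sqrt hU'.le
    have e3 : (Real.sqrt V) ^ 2 = (V : ℝ) := Real.sq_sqrt hV'.le
    calc R ^ 4 = ((Real.sqrt H) ^ 2 * (Real.sqrt U) ^ 2 * (Real.sqrt V) ^ 2) ^ 2 := by rw [hR]; ring
      _ = _ := by rw [e1, e2, e3]
  have hmain := hT a q E0 H U V G ha hq hE0 hH hU hV Z hHZ hUZ hVZ EE hEE f hf hG
    (fun E h => if H ≤ h ∧ h ≤ N then ((Real.sqrt H : ℝ) : ℂ) * γ E h else 0)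
    (fun E u => if U ≤ u ∧ True then ((Real.sqrt U : ℝ) : ℂ) * β E u else 0)
    (fun E v => if V ≤ v ∧ True then ((Real.sqrt V : ℝ) : ℂ) * β' E v else 0)
    (fun E h => zxi_coef H hH (γ E) (hγ E) (fun h => h ≤ N) h)
    (fun E u => zxi_coef U hU (β E) (hβ E) (fun _ => True) u)
    (fun E v => zxi_coef V hV (β' E) (hβ' E) (fun _ => True) v)
    (by
      intro E hE u hu
      refine hc E hE u (fun h0 => hu ?_)
      simp [h0])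
    (by
      intro E hE u hu
      refine hc' E hE u (fun h0 => hu ?_)
      simp [h0])
  have hsum : ∀ E, (∑ h ∈ Ico H (2 * H), ∑ u ∈ Ico U (2 * U), ∑ v ∈ Ico V (2 * V),
      (if H ≤ h ∧ h ≤ N then ((Real.sqrt H : ℝ) : ℂ) * γ E h else 0) *
      (if U ≤ u ∧ True then ((Real.sqrt U : ℝ) : ℂ) * β E u else 0) *
      (if V ≤ v ∧ True then ((Real.sqrt V : ℝ) : ℂ) * β' E v else 0) *
      chi (a * E * q) ((h : ZMod (a * E * q)) * (f E : ZMod (a * E * q)) *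
        ((G * u * v : ℕ) : ZMod (a * E * q))⁻¹)) =
      (R : ℂ) * ∑ h ∈ Ico H (2 * H), (if h ≤ N then ∑ u ∈ Ico U (2 * U), ∑ v ∈ Ico V (2 * V),
        γ E h * β E u * β' E v * chi (a * E * q) ((h : ZMod (a * E * q)) * (f E : ZMod (a * E * q)) *
        ((G * u * v : ℕ) : ZMod (a * E * q))⁻¹) else 0) := by
    intro E
    rw [mul_sum]
    refine sum_congr rfl (fun h hh => ?_)
    have hh1 : H ≤ h := (mem_Ico.1 hh).1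
    by_cases hhN : h ≤ N
    · rw [if_pos hhN, mul_sum]
      refine sum_congr rfl (fun u hu => ?_)
      rw [mul_sum]
      refine sum_congr rfl (fun v hv => ?_)
      have hu1 : U ≤ u := (mem_Ico.1 hu).1
      have hv1 : V ≤ v := (mem_Ico.1 hv).1
      rw [if_pos ⟨hh1, hhN⟩, if_pos ⟨hu1, trivial⟩, if_pos ⟨hv1, trivial⟩, hR]
      push_cast
      ring
    · rw [if_neg hhN, mul_zero]
      refine sum_eq_zero (fun u _ => sum_eq_zero (fun v _ => ?_))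
      rw [if_neg (fun hcc => hhN hcc.2)]
      ring
  simp only [hsum, norm_mul, Complex.norm_real, Real.norm_of_nonneg hR0.le] at hmain
  rw [← mul_sum, mul_pow, hR4] at hmain
  have hE0' : (0 : ℝ) < E0 := by exact_mod_cast hE0
  have hpos : (0 : ℝ) < ((H : ℝ) * U * V) ^ 2 := by positivity
  refine le_of_mul_le_mul_left (hmain.trans (le_of_eq ?_)) hpos
  ring

theorem zxi (ε : ℝ) (hε : 0 < ε) : ∃ C : ℝ, 0 < C ∧ ∀ a q E0 U V G : ℕ, 1 ≤ a → 1 ≤ q → 1 ≤ E0 → 1 ≤ U →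
    1 ≤ V → ∀ X Z : ℝ, 1 ≤ X → X ≤ Z → (U : ℝ) ≤ Z → (V : ℝ) ≤ Z →
    ∀ EE : Finset ℕ, EE ⊆ Ico E0 (2 * E0) → ∀ f : ℕ → ℕ, (∀ E ∈ EE, Nat.Coprime (f E) E) →
    (∀ E ∈ EE, Nat.Coprime G (a * E * q)) → ∀ γ β β' : ℕ → ℕ → ℂ,
    (∀ E h, 1 ≤ h → ‖γ E h‖ ≤ 1 / Real.sqrt h) → (∀ E u, 1 ≤ u → ‖β E u‖ ≤ 1 / Real.sqrt u) →
    (∀ E v, 1 ≤ v → ‖β' E v‖ ≤ 1 / Real.sqrt v) →
    (∀ E ∈ EE, ∀ u, β E u ≠ 0 → Nat.Coprime u (a * E * q)) → (∀ E ∈ EE, ∀ v, β' E v ≠ 0 → Nat.Coprime v (a * E * q)) →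
    (∑ E ∈ EE, ‖∑ h ∈ Icc 1 ⌊X⌋₊, ∑ u ∈ Ico U (2 * U), ∑ v ∈ Ico V (2 * V), γ E h * β E u * β' E v *
      chi (a * E * q) ((h : ZMod (a * E * q)) * (f E : ZMod (a * E * q)) *
        ((G * u * v : ℕ) : ZMod (a * E * q))⁻¹)‖) ^ 4 ≤
      C * Z ^ ε * ((a : ℝ) * q) * (E0 : ℝ) ^ 4 * (X * U) * (1 + X * U / E0) * ((V : ℝ) ^ 2 + E0) := by
  obtain ⟨C, hC, hT⟩ := tri (ε / 2) (by positivity)
  obtain ⟨C', hC', hL⟩ := zxi_log (ε / 2) (by positivity)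
  refine ⟨C' * C, by positivity, ?_⟩
  intro a q E0 U V G ha hq hE0 hU hV X Z hX hXZ hUZ hVZ EE hEE f hf hG γ β β' hγ hβ hβ' hc hc'
  have hX0 : 0 < X := by linarith
  have hZ0 : 0 < Z := by linarith
  have hE0' : (0 : ℝ) < E0 := by exact_mod_cast hE0
  have hU' : (0 : ℝ) < U := by exact_mod_cast hU
  have hN1 : 1 ≤ ⌊X⌋₊ := Nat.le_floor (by exact_mod_cast hX)
  have hNX : ((⌊X⌋₊ : ℕ) : ℝ) ≤ X := Nat.floor_le hX0.le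
  set N : ℕ := ⌊X⌋₊ with hNdef
  set B : ℝ := C * Z ^ (ε / 2) * (E0 : ℝ) ^ 4 * (X * U) * (1 + X * U / E0) * ((a : ℝ) * q) *
        ((V : ℝ) ^ 2 + E0) with hB
  have hB0 : 0 ≤ B := by positivity
  have hblock : ∀ s ∈ range (Nat.log 2 N + 1),
      (∑ E ∈ EE, ‖∑ h ∈ Ico (2 ^ s) (2 * 2 ^ s), (if h ≤ N then ∑ u ∈ Ico U (2 * U), ∑ v ∈ Ico V (2 * V),
        γ E h * β E u * β' E v *
        chi (a * E * q) ((h : ZMod (a * E * q)) * (f E : ZMod (a * E * q)) *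
        ((G * u * v : ℕ) : ZMod (a * E * q))⁻¹) else 0)‖) ^ 4 ≤ B := by
    intro s hs
    have hs' : s ≤ Nat.log 2 N := by
      have := mem_range.1 hs
      omega
    have hsN : 2 ^ s ≤ N := (Nat.pow_le_pow_right (by norm_num) hs').trans
      (Nat.pow_log_le_self 2 (by omega))
    have hsX : ((2 ^ s : ℕ) : ℝ) ≤ X := le_trans (by exact_mod_cast hsN) hNX
    have h1 := zxi_block (ε / 2) C hT ha hq hE0 (Nat.one_le_two_pow (n := s)) hU hV (hsX.trans hXZ) hUZ hVZ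
      hEE hf hG hγ hβ hβ' hc hc' N
    refine h1.trans ?_
    rw [hB]
    have h2 : ((2 ^ s : ℕ) : ℝ) * U ≤ X * U := mul_le_mul_of_nonneg_right hsX hU'.le
    have h3 : 1 + ((2 ^ s : ℕ) : ℝ) * U / E0 ≤ 1 + X * U / E0 := by
      have := div_le_div_of_nonneg_right h2 hE0'.le
      linarith
    gcongr
  have hsplit : ∀ E, (∑ h ∈ Icc 1 N, ∑ u ∈ Ico U (2 * U), ∑ v ∈ Ico V (2 * V), γ E h * β E u * β' E v *
      chi (a * E * q) ((h : ZMod (a * E * q)) * (f E : ZMod (a * E * q)) *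
        ((G * u * v : ℕ) : ZMod (a * E * q))⁻¹)) =
      ∑ s ∈ range (Nat.log 2 N + 1), ∑ h ∈ Ico (2 ^ s) (2 * 2 ^ s), (if h ≤ N then
        ∑ u ∈ Ico U (2 * U), ∑ v ∈ Ico V (2 * V), γ E h * β E u * β' E v *
        chi (a * E * q) ((h : ZMod (a * E * q)) * (f E : ZMod (a * E * q)) *
        ((G * u * v : ℕ) : ZMod (a * E * q))⁻¹) else 0) := fun E => zxi_split N _
  have hle : (∑ E ∈ EE, ‖∑ h ∈ Icc 1 N, ∑ u ∈ Ico U (2 * U), ∑ v ∈ Ico V (2 * V), γ E h * β E u * β' E v *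
      chi (a * E * q) ((h : ZMod (a * E * q)) * (f E : ZMod (a * E * q)) *
        ((G * u * v : ℕ) : ZMod (a * E * q))⁻¹)‖) ≤
      ∑ s ∈ range (Nat.log 2 N + 1), ∑ E ∈ EE, ‖∑ h ∈ Ico (2 ^ s) (2 * 2 ^ s), (if h ≤ N then
        ∑ u ∈ Ico U (2 * U), ∑ v ∈ Ico V (2 * V), γ E h * β E u * β' E v *
        chi (a * E * q) ((h : ZMod (a * E * q)) * (f E : ZMod (a * E * q)) *
        ((G * u * v : ℕ) : ZMod (a * E * q))⁻¹) else 0)‖ := by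
    rw [sum_comm]
    refine sum_le_sum (fun E _ => ?_)
    rw [hsplit E]
    exact norm_sum_le _ _
  have h4 := zxi_pow4 (range (Nat.log 2 N + 1)) _ B hB0
    (fun s _ => sum_nonneg (fun E _ => norm_nonneg _)) hblock
  have h5 := hL N Z hN1 (hNX.trans hXZ)
  rw [card_range] at h4
  have h6 : Z ^ (ε / 2) * Z ^ (ε / 2) = Z ^ ε := by
    rw [← Real.rpow_add hZ0]
    congr 1
    ring
  calc _ ≤ (∑ s ∈ range (Nat.log 2 N + 1), ∑ E ∈ EE, ‖∑ h ∈ Ico (2 ^ s) (2 * 2 ^ s), (if h ≤ N then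
        ∑ u ∈ Ico U (2 * U), ∑ v ∈ Ico V (2 * V), γ E h * β E u * β' E v *
        chi (a * E * q) ((h : ZMod (a * E * q)) * (f E : ZMod (a * E * q)) *
        ((G * u * v : ℕ) : ZMod (a * E * q))⁻¹) else 0)‖) ^ 4 :=
        pow_le_pow_left₀ (sum_nonneg (fun E _ => norm_nonneg _)) hle 4
    _ ≤ ((Nat.log 2 N + 1 : ℕ) : ℝ) ^ 4 * B := h4
    _ ≤ (C' * Z ^ (ε / 2)) * B := mul_le_mul_of_nonneg_right h5 hB0
    _ = C' * C * (Z ^ (ε / 2) * Z ^ (ε / 2)) * ((a : ℝ) * q) * (E0 : ℝ) ^ 4 * (X * U) *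
        (1 + X * U / E0) * ((V : ℝ) ^ 2 + E0) := by rw [hB]; ring
    _ = _ := by rw [h6]

end H69EGD
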